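import Pool.Agent.P.MP_eba2d2_an.Defs

/-! The surface is contractible. -/

set_option autoImplicit false

open Set Filter Topology Complex unitInterval

namespace Pool.Agent.P.MP_eba2d2_an

/-- `(exp w - 1) / w` -/
noncomputable def eE : ℂ → ℂ := dslope exp 0

theorem eE_mul (w : ℂ) : w * eE w = exp w - 1 := by
  have := sub_smul_dslope exp 0 w
  simpa [eE] using this

theorem eE_zero : eE 0 = 1 := by simp [eE, dslope_same]

theorem differentiable_eE : Differentiable ℂ eE := by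
  rw [← differentiableOn_univ, eE, differentiableOn_dslope univ_mem]
  exact differentiable_exp.differentiableOn

@[fun_prop] theorem continuous_eE : Continuous eE := differentiable_eE.continuous

/-- `log (1 + w) / w` -/
noncomputable def eL : ℂ → ℂ := dslope (fun w => log (1 + w)) 0

theorem eL_mul (w : ℂ) : w * eL w = log (1 + w) := by
  have := sub_smul_dslope (fun w => log (1 + w)) 0 w
  simpa [eL] using this

theorem hasDerivAt_log_one_add : HasDerivAt (fun w : ℂ => log (1 + w)) 1 0 := by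
  have := ((hasDerivAt_id (0 : ℂ)).const_add 1).clog (by simp)
  simpa using this

theorem eL_zero : eL 0 = 1 := by
  rw [eL, dslope_same, hasDerivAt_log_one_add.deriv]

theorem continuousAt_eL : ContinuousAt eL 0 :=
  continuousAt_dslope_same.2 hasDerivAt_log_one_add.differentiableAt

theorem eq_of_uv {x y z : ℂ} (hz : z ≠ 0) (h : z = (1 + x * z) ^ 2 - (1 + y * z) ^ 3) :
    2 * x + x ^ 2 * z - 3 * y - 3 * y ^ 2 * z - y ^ 3 * z ^ 2 = 1 := by
  apply mul_left_cancel₀ hz
  linear_combination -h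

theorem vert_aux (n : ℕ) (x z s : ℂ) :
    1 + (x + (1 + x * z) * (n * s * eE (n * (z * s)))) / exp (z * s) ^ 6 * (exp (z * s) ^ 6 * z)
      = exp (z * s) ^ n * (1 + x * z) := by
  have h0 := exp_ne_zero (z * s)
  have h3 := eE_mul (n * (z * s))
  rw [exp_nat_mul] at h3
  rw [← mul_assoc, div_mul_cancel₀ _ (pow_ne_zero _ h0)]
  linear_combination (1 + x * z) * h3

/-- the vertical move -/
noncomputable def vert (p : V) (s : ℂ) : V :=
  ⟨((p.x + p.u * (3 * s * eE (3 * (p.z * s)))) / exp (p.z * s) ^ 6,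
    (p.y + p.v * (2 * s * eE (2 * (p.z * s)))) / exp (p.z * s) ^ 6, exp (p.z * s) ^ 6 * p.z), by
    by_cases hz : p.z = 0
    · have := p.eq
      simp only [hz, V.u, V.v, zero_mul, mul_zero, eE_zero, exp_zero] at this ⊢
      linear_combination this
    · have h0 := exp_ne_zero (p.z * s)
      refine eq_of_uv (mul_ne_zero (pow_ne_zero _ h0) hz) ?_
      have e1 : 1 + (p.x + p.u * (3 * s * eE (3 * (p.z * s)))) / exp (p.z * s) ^ 6 *
          (exp (p.z * s) ^ 6 * p.z) = exp (p.z * s) ^ 3 * p.u := vert_aux 3 p.x p.z s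
      have e2 : 1 + (p.y + p.v * (2 * s * eE (2 * (p.z * s)))) / exp (p.z * s) ^ 6 *
          (exp (p.z * s) ^ 6 * p.z) = exp (p.z * s) ^ 2 * p.v := vert_aux 2 p.y p.z s
      simp only
      rw [e1, e2]
      linear_combination exp (p.z * s) ^ 6 * p.z_eq⟩

theorem vert_z (p : V) (s : ℂ) : (vert p s).z = exp (p.z * s) ^ 6 * p.z := rfl

theorem vert_u (p : V) (s : ℂ) : (vert p s).u = exp (p.z * s) ^ 3 * p.u := vert_aux 3 p.x p.z s

theorem vert_v (p : V) (s : ℂ) : (vert p s).v = exp (p.z * s) ^ 2 * p.v := vert_aux 2 p.y p.z s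

theorem vert_zero (p : V) : vert p 0 = p := by
  apply V.ext' <;> simp [vert, V.x, V.y, V.z]

theorem continuous_vert : Continuous (fun q : V × ℂ => vert q.1 q.2) := by
  refine continuous_induced_rng.2 ?_
  have h : ∀ q : V × ℂ, exp (q.1.z * q.2) ^ 6 ≠ 0 := fun q => pow_ne_zero _ (exp_ne_zero _)
  exact (Continuous.div (by fun_prop) (by fun_prop) h).prodMk
    ((Continuous.div (by fun_prop) (by fun_prop) h).prodMk (by fun_prop))

theorem V.ext_uv {p q : V} (hz : p.z ≠ 0) (hu : p.u = q.u) (hv : p.v = q.v) : p = q := by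
  have h : p.z = q.z := by rw [p.z_eq, q.z_eq, hu, hv]
  simp only [V.u, V.v, ← h, add_right_inj] at hu hv
  exact V.ext' (mul_right_cancel₀ hz hu) (mul_right_cancel₀ hz hv) h

/-- the straightening function -/
noncomputable def sh (v : ℂ) : ℂ := (√v.re ^ 3 : ℝ)

@[fun_prop] theorem continuous_sh : Continuous sh := by unfold sh; fun_prop

/-- the complement of a half of the real cusp -/
abbrev W : Type := {q : ℂ × ℂ // ¬ (q.1 + sh q.2 = 0 ∧ q.2.im = 0 ∧ 0 ≤ q.2.re)}

theorem W_null : (ContinuousMap.id W).Nullhomotopic := by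
  let H : I × W → W := fun p => ⟨((1 - (p.1 : ℝ)) * (p.2.1.1 + sh p.2.1.2)
      - sh ((1 - (p.1 : ℝ)) * p.2.1.2 - (p.1 : ℝ)), (1 - (p.1 : ℝ)) * p.2.1.2 - (p.1 : ℝ)), by
    rintro ⟨h1, h2, h3⟩
    have h0 := p.1.2.1
    have h4 := p.1.2.2
    simp only [sub_add_cancel, mul_eq_zero] at h1
    simp only [sub_im, mul_im, sub_re, one_re, ofReal_re, one_im, ofReal_im, mul_re] at h2 h3
    have h5 : (p.1 : ℝ) ≠ 1 := fun h => by
      rw [h] at h3
      norm_num at h3
    have h6 : 0 < 1 - (p.1 : ℝ) := sub_pos.2 (lt_of_le_of_ne h4 h5)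
    refine p.2.2 ⟨h1.resolve_left fun h => h5 ?_, ?_, ?_⟩
    · exact_mod_cast (sub_eq_zero.1 h).symm
    · simpa [h6.ne'] using h2
    · by_contra h7
      nlinarith [not_le.1 h7]⟩
  have hH : Continuous H := continuous_induced_rng.2 (by
    refine Continuous.prodMk ?_ ?_ <;> fun_prop)
  refine ⟨⟨(-sh (-1), -1), by simp⟩, ⟨⟨⟨H, hH⟩, fun q => ?_, fun q => ?_⟩⟩⟩
  · apply Subtype.ext
    simp [H]
  · apply Subtype.ext
    simp [H]

theorem W_cusp (q : W) (h : q.1.1 ^ 2 = q.1.2 ^ 3) : q.1.2 ≠ 0 ∧ q.1.1 / q.1.2 ∈ slitPlane := by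
  obtain ⟨⟨u, v⟩, hq⟩ := q
  simp only at h hq ⊢
  have hv : v ≠ 0 := by
    rintro rfl
    have : u = 0 := by simpa using h
    exact hq (by simp [this, sh])
  refine ⟨hv, ?_⟩
  by_contra h1
  simp only [mem_slitPlane_iff, not_or, not_lt, ne_eq, not_not] at h1
  obtain ⟨r, hr⟩ : ∃ r : ℝ, u / v = r := ⟨(u / v).re, Complex.ext (by simp) (by simp [h1.2])⟩
  have h2 : r ≤ 0 := by simpa [hr] using h1.1
  have h3 : u = r * v := by rw [← hr]; field_simp
  have h4 : v = (r ^ 2 : ℝ) := by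
    apply mul_left_cancel₀ (pow_ne_zero 2 hv)
    push_cast
    rw [h3] at h
    linear_combination -h
  refine hq ⟨?_, by rw [h4, ofReal_im], by rw [h4, ofReal_re]; positivity⟩
  rw [h3, sh, h4, ofReal_re, Real.sqrt_sq_eq_abs, abs_of_nonpos h2]
  push_cast
  ring

theorem exists_cut : ∃ h : W → ℂ, Continuous h ∧
    ∀ q : W, q.1.1 ^ 2 = q.1.2 ^ 3 → ∀ᶠ q' in 𝓝 q, h q' = log (q'.1.1 / q'.1.2) := by
  have hO : IsOpen ({q : W | q.1.2 ≠ 0} ∩ (fun q : W => q.1.1 / q.1.2) ⁻¹' slitPlane) :=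
    ContinuousOn.isOpen_inter_preimage (ContinuousOn.div (by fun_prop) (by fun_prop) fun q hq => hq)
      (isOpen_ne_fun (by fun_prop) continuous_const) isOpen_slitPlane
  have hD : IsClosed {q : W | q.1.1 ^ 2 = q.1.2 ^ 3} := isClosed_eq (by fun_prop) (by fun_prop)
  obtain ⟨k, h0, h1, -⟩ := exists_continuous_zero_one_of_isClosed hO.isClosed_compl hD
    (disjoint_left.2 fun q hq hq' => hq (W_cusp q hq'))
  have hk : Continuous (fun q : W => ((min 1 (max 0 (3 * k q - 1)) : ℝ) : ℂ)) := by fun_prop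
  refine ⟨fun q => (min 1 (max 0 (3 * k q - 1)) : ℝ) * log (q.1.1 / q.1.2), ?_, fun q hq => ?_⟩
  · rw [continuous_iff_continuousAt]
    intro q
    by_cases hq : q ∈ {q : W | q.1.2 ≠ 0} ∩ (fun q : W => q.1.1 / q.1.2) ⁻¹' slitPlane
    · exact hk.continuousAt.mul (ContinuousAt.clog
        (ContinuousAt.div (by fun_prop) (by fun_prop) hq.1) hq.2)
    · refine (continuousAt_const (y := (0 : ℂ))).congr ?_
      have h2 : k q < 1 / 3 := by rw [h0 hq]; norm_num
      filter_upwards [k.continuous.continuousAt.eventually (gt_mem_nhds h2)] with q' h3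
      rw [max_eq_left (by linarith)]
      simp
  · have h2 : 2 / 3 < k q := by rw [h1 hq]; norm_num
    filter_upwards [k.continuous.continuousAt.eventually (lt_mem_nhds h2)] with q' h3
    rw [min_eq_left (le_max_of_le_right (by linarith))]
    simp

/-- the point with given `u`, `v` -/
noncomputable def ofUV (a b : ℂ) : V :=
  V.mk' ((a - 1) / (a ^ 2 - b ^ 3), (b - 1) / (a ^ 2 - b ^ 3), a ^ 2 - b ^ 3)

theorem ofUV_val {a b : ℂ} (h : a ^ 2 - b ^ 3 ≠ 0) :
    (ofUV a b).1 = ((a - 1) / (a ^ 2 - b ^ 3), (b - 1) / (a ^ 2 - b ^ 3), a ^ 2 - b ^ 3) := by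
  refine V.mk'_val (eq_of_uv h ?_)
  simp only
  rw [div_mul_cancel₀ _ h, div_mul_cancel₀ _ h]
  ring

/-- the projection to the plane -/
def proj (p : V) : W := ⟨(p.u, p.v), by
  rintro ⟨h1, h2, h3⟩
  simp only at h1 h2 h3
  obtain ⟨r, hr⟩ : ∃ r : ℝ, p.v = r := ⟨p.v.re, Complex.ext (by simp) (by simp [h2])⟩
  rw [hr, ofReal_re] at h3
  rw [hr, sh, ofReal_re] at h1
  have h4 : p.u = -(√r ^ 3 : ℝ) := by linear_combination h1
  have h5 : (√r ^ 2 : ℝ) = r := Real.sq_sqrt h3
  have h6 : p.z = 0 := by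
    rw [p.z_eq, h4, hr]
    have : ((√r : ℝ) : ℂ) ^ 2 = r := by exact_mod_cast h5
    push_cast
    linear_combination ((√r : ℝ) ^ 4 + (√r : ℝ) ^ 2 * r + r ^ 2 : ℂ) * this
  have h7 : p.u = 1 := by simp [V.u, h6]
  rw [h7] at h4
  have h8 : (1 : ℝ) = -(√r ^ 3) := by exact_mod_cast h4
  have : 0 ≤ √r ^ 3 := by positivity
  linarith⟩

theorem continuous_proj : Continuous proj :=
  continuous_induced_rng.2 (V.continuous_u.prodMk V.continuous_v)

theorem contractible : ContractibleSpace V := by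
  classical
  obtain ⟨h, hc, hD⟩ := exists_cut
  have hne : ∀ q : W, q.1.1 ^ 2 ≠ q.1.2 ^ 3 →
      (exp (-h q) ^ 3 * q.1.1) ^ 2 - (exp (-h q) ^ 2 * q.1.2) ^ 3 ≠ 0 := fun q hq => by
    rw [show (exp (-h q) ^ 3 * q.1.1) ^ 2 - (exp (-h q) ^ 2 * q.1.2) ^ 3
      = exp (-h q) ^ 6 * (q.1.1 ^ 2 - q.1.2 ^ 3) by ring]
    exact mul_ne_zero (pow_ne_zero _ (exp_ne_zero _)) (sub_ne_zero.2 hq)
  let j : W → V := fun q => if q.1.1 ^ 2 = q.1.2 ^ 3 then V.base else
    ofUV (exp (-h q) ^ 3 * q.1.1) (exp (-h q) ^ 2 * q.1.2)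
  have hj : Continuous j := by
    rw [continuous_iff_continuousAt]
    intro q
    refine IsInducing.subtypeVal.continuousAt_iff.2 ?_
    by_cases hq : q.1.1 ^ 2 = q.1.2 ^ 3
    · obtain ⟨h1, h2⟩ := W_cusp q hq
      have h3 : q.1.1 ≠ 0 := fun h => by simp [h] at h2
      have hf : ContinuousAt (fun q : W => q.1.1 ^ 2 / q.1.2 ^ 3) q :=
        ContinuousAt.div (by fun_prop) (by fun_prop) (pow_ne_zero _ h1)
      have h4 : ContinuousAt (fun q : W => (-(q.1.1 ^ 2 / q.1.2 ^ 3) ^ 2,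
          -(q.1.1 ^ 2 / q.1.2 ^ 3) ^ 2,
          (q.1.1 ^ 2 / q.1.2 ^ 3 - 1) / (q.1.1 ^ 2 / q.1.2 ^ 3) ^ 3)) q :=
        (hf.pow 2).neg.prodMk ((hf.pow 2).neg.prodMk ((hf.sub continuousAt_const).div (hf.pow 3)
          (pow_ne_zero _ (div_ne_zero (pow_ne_zero _ h3) (pow_ne_zero _ h1)))))
      refine h4.congr ?_
      have c1 : ContinuousAt (fun q : W => q.1.1) q := by fun_prop
      have c2 : ContinuousAt (fun q : W => q.1.2) q := by fun_prop
      filter_upwards [hD q hq, c1.eventually_ne h3, c2.eventually_ne h1] with q' k1 k2 k3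
      by_cases k4 : q'.1.1 ^ 2 = q'.1.2 ^ 3
      · have : j q' = V.base := if_pos k4
        simp only [Function.comp, this, k4, div_self (pow_ne_zero 3 k3)]
        simp [V.base]
      · have : j q' = ofUV _ _ := if_neg k4
        have k5 := hne q' k4
        simp only [Function.comp, this]
        rw [ofUV_val k5]
        rw [k1, exp_neg, exp_log (div_ne_zero k2 k3)] at k5 ⊢
        have k6 : q'.1.1 ^ 2 - q'.1.2 ^ 3 ≠ 0 := sub_ne_zero.2 k4
        have e1 : (q'.1.1 / q'.1.2)⁻¹ ^ 3 * q'.1.1 = q'.1.2 ^ 3 / q'.1.1 ^ 2 := by field_simp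
        have e2 : (q'.1.1 / q'.1.2)⁻¹ ^ 2 * q'.1.2 = q'.1.2 ^ 3 / q'.1.1 ^ 2 := by field_simp
        have e3 : (q'.1.2 ^ 3 / q'.1.1 ^ 2) ^ 2 - (q'.1.2 ^ 3 / q'.1.1 ^ 2) ^ 3 =
            q'.1.2 ^ 6 * (q'.1.1 ^ 2 - q'.1.2 ^ 3) / q'.1.1 ^ 6 := by field_simp
        rw [e1, e2, e3]
        refine Prod.ext ?_ (Prod.ext ?_ ?_) <;> simp only <;> field_simp <;> ring
    · have h1 := hne q hq
      have h4 : ContinuousAt (fun q : W =>
          ((exp (-h q) ^ 3 * q.1.1 - 1) /
            ((exp (-h q) ^ 3 * q.1.1) ^ 2 - (exp (-h q) ^ 2 * q.1.2) ^ 3),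
          (exp (-h q) ^ 2 * q.1.2 - 1) /
            ((exp (-h q) ^ 3 * q.1.1) ^ 2 - (exp (-h q) ^ 2 * q.1.2) ^ 3),
          (exp (-h q) ^ 3 * q.1.1) ^ 2 - (exp (-h q) ^ 2 * q.1.2) ^ 3)) q :=
        have c0 : ContinuousAt (fun q : W =>
            (exp (-h q) ^ 3 * q.1.1) ^ 2 - (exp (-h q) ^ 2 * q.1.2) ^ 3) q := by fun_prop
        (ContinuousAt.div (by fun_prop) c0 h1).prodMk
          ((ContinuousAt.div (by fun_prop) c0 h1).prodMk c0)
      refine h4.congr ?_
      filter_upwards [(isOpen_ne_fun (f := fun q : W => q.1.1 ^ 2) (g := fun q : W => q.1.2 ^ 3)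
        (by fun_prop) (by fun_prop)).mem_nhds hq] with q' k4
      have : j q' = ofUV _ _ := if_neg k4
      simp only [Function.comp, this]
      rw [ofUV_val (hne q' k4)]
  let c : V → ℂ := fun p => if p.z = 0 then p.x - p.y else h (proj p) / p.z
  have hcc : Continuous c := by
    rw [continuous_iff_continuousAt]
    intro p
    by_cases hz : p.z = 0
    · have hv : p.v ≠ 0 := by simp [V.v, hz]
      have h1 : ContinuousAt (fun p : V => (p.x - p.y) / p.v) p :=
        ContinuousAt.div (by fun_prop) (by fun_prop) hv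
      have h2 : ContinuousAt (fun p : V => eL (p.z * ((p.x - p.y) / p.v)) * ((p.x - p.y) / p.v))
          p := by
        refine ContinuousAt.mul (ContinuousAt.comp (g := eL) ?_
          (V.continuous_z.continuousAt.mul h1)) h1
        simp only [hz, zero_mul]
        exact continuousAt_eL
      refine h2.congr ?_
      filter_upwards [continuous_proj.continuousAt.eventually (hD (proj p) (by
        show p.u ^ 2 = p.v ^ 3
        rw [← sub_eq_zero, ← p.z_eq, hz])), V.continuous_v.continuousAt.eventually_ne hv]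
        with p' k1 k2
      by_cases k3 : p'.z = 0
      · have : c p' = _ := if_pos k3
        rw [this, k3, zero_mul, eL_zero]
        simp [V.v, k3]
      · have : c p' = _ := if_neg k3
        rw [this, k1, eq_div_iff k3]
        have k4 : (proj p').1.1 / (proj p').1.2 = 1 + p'.z * ((p'.x - p'.y) / p'.v) := by
          show p'.u / p'.v = _
          field_simp
          simp only [V.u, V.v]
          ring
        rw [k4, ← eL_mul]
        ring
    · have h2 : ContinuousAt (fun p : V => h (proj p) / p.z) p :=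
        (hc.comp continuous_proj).continuousAt.div V.continuous_z.continuousAt hz
      refine h2.congr ?_
      filter_upwards [V.continuous_z.continuousAt.eventually_ne hz] with p' k3
      exact (if_neg k3).symm
  rw [contractible_iff_id_nullhomotopic]
  obtain ⟨p₀, hp₀⟩ := (W_null.comp_left (⟨proj, continuous_proj⟩ : C(V, W))).comp_right
    (⟨j, hj⟩ : C(W, V))
  refine ⟨p₀, ContinuousMap.Homotopic.trans ?_ hp₀⟩
  refine ⟨⟨⟨fun q : I × V => vert q.2 (-((q.1 : ℝ) * c q.2)),
    continuous_vert.comp (f := fun q : I × V => (q.2, -(((q.1 : ℝ) : ℂ) * c q.2)))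
      (by fun_prop)⟩, fun p => ?_, fun p => ?_⟩⟩
  · simp [vert_zero]
  · show vert p (-(((1 : ℝ) : ℂ) * c p)) = j (proj p)
    by_cases hz : p.z = 0
    · have h1 : j (proj p) = V.base := if_pos (by
        show p.u ^ 2 = p.v ^ 3
        rw [← sub_eq_zero, ← p.z_eq, hz])
      have h2 : c p = _ := if_pos hz
      have h3 := p.eq
      rw [h1, h2]
      rw [hz] at h3
      apply V.ext'
      · show (p.x + p.u * _) / _ = -1
        simp only [V.u, hz, zero_mul, mul_zero, eE_zero, exp_zero]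
        push_cast
        linear_combination -h3
      · show (p.y + p.v * _) / _ = -1
        simp only [V.v, hz, zero_mul, mul_zero, eE_zero, exp_zero]
        push_cast
        linear_combination -h3
      · rw [vert_z, hz, mul_zero]
        rfl
    · have h0 : (proj p).1.1 ^ 2 ≠ (proj p).1.2 ^ 3 := fun h => hz (by
        rw [p.z_eq, sub_eq_zero]
        exact h)
      have h1 : j (proj p) = ofUV _ _ := if_neg h0
      have h2 : c p = _ := if_neg hz
      have h3 : p.z * -(((1 : ℝ) : ℂ) * c p) = -h (proj p) := by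
        rw [h2]
        push_cast
        field_simp
      have h4 := hne _ h0
      refine V.ext_uv (by rw [vert_z]; exact mul_ne_zero (pow_ne_zero _ (exp_ne_zero _)) hz) ?_ ?_
      · rw [vert_u, h3, h1, V.u, V.u, V.x, V.z, V.x, V.z, ofUV_val h4]
        simp only
        rw [div_mul_cancel₀ _ h4, add_sub_cancel]
        rfl
      · rw [vert_v, h3, h1, V.v, V.v, V.y, V.z, V.y, V.z, ofUV_val h4]
        simp only
        rw [div_mul_cancel₀ _ h4, add_sub_cancel]
        rfl

end Pool.Agent.P.MP_eba2d2_an
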