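import Mathlib

/-! The tom Dieck-Petrie surface `V (2,3)` and its complex manifold structure. -/

set_option autoImplicit false

open Set Filter Topology
open scoped Manifold ContDiff

namespace Pool.Agent.P.MP_eba2d2_an

/-- the surface -/
def V : Type :=
  {p : ℂ × ℂ × ℂ // 2 * p.1 + p.1 ^ 2 * p.2.2 - 3 * p.2.1 - 3 * p.2.1 ^ 2 * p.2.2
    - p.2.1 ^ 3 * p.2.2 ^ 2 = 1}

noncomputable instance : TopologicalSpace V := instTopologicalSpaceSubtype
instance : T2Space V := inferInstanceAs (T2Space (Subtype _))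
instance : SecondCountableTopology V := inferInstanceAs (SecondCountableTopology (Subtype _))

namespace V

/-- first coordinate -/
def x (p : V) : ℂ := p.1.1
/-- second coordinate -/
def y (p : V) : ℂ := p.1.2.1
/-- third coordinate -/
def z (p : V) : ℂ := p.1.2.2
/-- the function `u` -/
def u (p : V) : ℂ := 1 + p.x * p.z
/-- the function `v` -/
def v (p : V) : ℂ := 1 + p.y * p.z

theorem eq (p : V) :
    2 * p.x + p.x ^ 2 * p.z - 3 * p.y - 3 * p.y ^ 2 * p.z - p.y ^ 3 * p.z ^ 2 = 1 := p.2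

theorem z_eq (p : V) : p.z = p.u ^ 2 - p.v ^ 3 := by
  have := p.eq
  simp only [u, v]
  linear_combination (-p.z) * this

theorem ext' {p q : V} (hx : p.x = q.x) (hy : p.y = q.y) (hz : p.z = q.z) : p = q :=
  Subtype.ext (Prod.ext hx (Prod.ext hy hz))

theorem continuous_val : Continuous (fun p : V => p.1) := continuous_subtype_val

@[fun_prop] theorem continuous_x : Continuous x := continuous_val.fst
@[fun_prop] theorem continuous_y : Continuous y := continuous_val.snd.fst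
@[fun_prop] theorem continuous_z : Continuous z := continuous_val.snd.snd
@[fun_prop] theorem continuous_u : Continuous u := by unfold u; fun_prop
@[fun_prop] theorem continuous_v : Continuous v := by unfold v; fun_prop

theorem isClosed_range : IsClosed (range (fun p : V => p.1)) := by
  have : range (fun p : V => p.1) = {p : ℂ × ℂ × ℂ | 2 * p.1 + p.1 ^ 2 * p.2.2 - 3 * p.2.1
      - 3 * p.2.1 ^ 2 * p.2.2 - p.2.1 ^ 3 * p.2.2 ^ 2 = 1} := Subtype.range_coe_subtype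
  rw [this]
  exact isClosed_eq (by fun_prop) continuous_const

theorem isClosedEmbedding_val : IsClosedEmbedding (fun p : V => p.1) :=
  ⟨IsEmbedding.subtypeVal, isClosed_range⟩

theorem isCompact_box (c : ℝ) : IsCompact {p : V | ‖p.x‖ ≤ c ∧ ‖p.y‖ ≤ c ∧ ‖p.z‖ ≤ c} := by
  have := isClosedEmbedding_val.isCompact_preimage (isCompact_closedBall (0 : ℂ × ℂ × ℂ) c)
  convert this using 1
  ext p
  simp [x, y, z, Prod.norm_def]

theorem continuousAt_iff {A : Type*} [TopologicalSpace A] {f : A → V} {a : A} :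
    ContinuousAt f a ↔ ContinuousAt (fun b => (f b).x) a ∧ ContinuousAt (fun b => (f b).y) a ∧
      ContinuousAt (fun b => (f b).z) a :=
  ⟨fun h => ⟨continuous_x.continuousAt.comp h, continuous_y.continuousAt.comp h,
    continuous_z.continuousAt.comp h⟩,
    fun h => IsInducing.subtypeVal.continuousAt_iff.2 (h.1.prodMk (h.2.1.prodMk h.2.2))⟩

/-- a base point -/
def base : V := ⟨(-1, -1, 0), by norm_num⟩

open Classical in
/-- a point of the surface from a point of the ambient space -/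
noncomputable def mk' (p : ℂ × ℂ × ℂ) : V :=
  if h : 2 * p.1 + p.1 ^ 2 * p.2.2 - 3 * p.2.1 - 3 * p.2.1 ^ 2 * p.2.2
    - p.2.1 ^ 3 * p.2.2 ^ 2 = 1 then ⟨p, h⟩ else base

theorem mk'_val {p : ℂ × ℂ × ℂ} (h : 2 * p.1 + p.1 ^ 2 * p.2.2 - 3 * p.2.1
    - 3 * p.2.1 ^ 2 * p.2.2 - p.2.1 ^ 3 * p.2.2 ^ 2 = 1) : (mk' p).1 = p := by
  have : mk' p = (⟨p, h⟩ : V) := dif_pos h
  rw [this]

theorem mk'_coe (p : V) : mk' p.1 = p := Subtype.ext (mk'_val p.2)

end V

/-- the model space -/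
abbrev E2 : Type := EuclideanSpace ℂ (Fin 2)

/-- data for a chart given by ambient analytic maps -/
structure ChartData where
  φ : ℂ × ℂ × ℂ → E2
  ψ : E2 → ℂ × ℂ × ℂ
  S : Set (ℂ × ℂ × ℂ)
  T : Set E2
  hS : IsOpen S
  hT : IsOpen T
  hφ : ContDiffOn ℂ ω φ S
  hψ : ContDiffOn ℂ ω ψ T
  mem : ∀ q ∈ T, 2 * (ψ q).1 + (ψ q).1 ^ 2 * (ψ q).2.2 - 3 * (ψ q).2.1
    - 3 * (ψ q).2.1 ^ 2 * (ψ q).2.2 - (ψ q).2.1 ^ 3 * (ψ q).2.2 ^ 2 = 1
  mapψ : ∀ q ∈ T, ψ q ∈ S
  mapφ : ∀ p : V, p.1 ∈ S → φ p.1 ∈ T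
  left : ∀ p : V, p.1 ∈ S → ψ (φ p.1) = p.1
  right : ∀ q ∈ T, φ (ψ q) = q

namespace ChartData

variable (D : ChartData)

/-- the chart -/
noncomputable def chart : OpenPartialHomeomorph V E2 where
  toFun p := D.φ p.1
  invFun q := V.mk' (D.ψ q)
  source := {p | p.1 ∈ D.S}
  target := D.T
  map_source' p hp := D.mapφ p hp
  map_target' q hq := by
    show (V.mk' (D.ψ q)).1 ∈ D.S
    rw [V.mk'_val (D.mem q hq)]
    exact D.mapψ q hq
  left_inv' p hp := by rw [D.left p hp, V.mk'_coe]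
  right_inv' q hq := by rw [V.mk'_val (D.mem q hq), D.right q hq]
  open_source := D.hS.preimage V.continuous_val
  open_target := D.hT
  continuousOn_toFun := D.hφ.continuousOn.comp V.continuous_val.continuousOn fun _ hp => hp
  continuousOn_invFun := by
    refine IsInducing.subtypeVal.continuousOn_iff.2 (D.hψ.continuousOn.congr fun q hq => ?_)
    exact V.mk'_val (D.mem q hq)

theorem chart_symm_val {q : E2} (hq : q ∈ D.T) : (D.chart.symm q).1 = D.ψ q :=
  V.mk'_val (D.mem q hq)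

end ChartData

theorem contDiffOn_pair {F : Type*} [NormedAddCommGroup F] [NormedSpace ℂ F] {a b : F → ℂ}
    {S : Set F} (ha : ContDiffOn ℂ ω a S) (hb : ContDiffOn ℂ ω b S) :
    ContDiffOn ℂ ω (fun p => (!₂[a p, b p] : E2)) S := by
  rw [contDiffOn_euclidean]
  intro i
  fin_cases i
  · simpa using ha
  · simpa using hb

theorem contDiff_co (i : Fin 2) : ContDiff ℂ ω (fun q : E2 => q i) :=
  (EuclideanSpace.proj (𝕜 := ℂ) i).contDiff

/-- the chart `(u, v)` on `z ≠ 0` -/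
noncomputable def D1 : ChartData where
  φ p := !₂[1 + p.1 * p.2.2, 1 + p.2.1 * p.2.2]
  ψ q := ((q 0 - 1) / (q 0 ^ 2 - q 1 ^ 3), (q 1 - 1) / (q 0 ^ 2 - q 1 ^ 3), q 0 ^ 2 - q 1 ^ 3)
  S := {p | p.2.2 ≠ 0}
  T := {q | q 0 ^ 2 - q 1 ^ 3 ≠ 0}
  hS := isOpen_ne_fun (by fun_prop) continuous_const
  hT := isOpen_ne_fun (by fun_prop) continuous_const
  hφ := contDiffOn_pair (by fun_prop) (by fun_prop)
  hψ := by
    have h0 := (contDiff_co 0).contDiffOn (s := {q : E2 | q 0 ^ 2 - q 1 ^ 3 ≠ 0})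
    have h1 := (contDiff_co 1).contDiffOn (s := {q : E2 | q 0 ^ 2 - q 1 ^ 3 ≠ 0})
    have h2 := (h0.pow 2).sub (h1.pow 3)
    exact ((h0.sub contDiffOn_const).div h2 fun q hq => hq).prodMk
      (((h1.sub contDiffOn_const).div h2 fun q hq => hq).prodMk h2)
  mem q hq := by
    have hq' : q 0 ^ 2 - q 1 ^ 3 ≠ 0 := hq
    simp only
    field_simp
    ring
  mapψ q hq := hq
  mapφ p hp := by
    have h : p.z ≠ 0 := hp
    rw [p.z_eq] at h
    simpa [V.u, V.v, V.x, V.y, V.z] using h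
  left p hp := by
    have h : p.z ≠ 0 := hp
    have h2 : (1 + p.x * p.z) ^ 2 - (1 + p.y * p.z) ^ 3 = p.z := p.z_eq.symm
    show ((1 + p.x * p.z - 1) / ((1 + p.x * p.z) ^ 2 - (1 + p.y * p.z) ^ 3),
      (1 + p.y * p.z - 1) / ((1 + p.x * p.z) ^ 2 - (1 + p.y * p.z) ^ 3),
      (1 + p.x * p.z) ^ 2 - (1 + p.y * p.z) ^ 3) = (p.x, p.y, p.z)
    rw [h2]
    simp [h]
  right q hq := by
    have hq' : q 0 ^ 2 - q 1 ^ 3 ≠ 0 := hq
    ext i
    fin_cases i <;> simp [hq']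

/-- the chart `(t, s)` on `u v ≠ 0` -/
noncomputable def D2 : ChartData where
  φ p := !₂[p.2.2 / (1 + p.2.1 * p.2.2) ^ 3, (p.1 - p.2.1) * (1 + p.2.1 * p.2.2) ^ 2]
  ψ q := ((3 * q 1 + 3 * q 1 ^ 2 * q 0 + q 1 ^ 3 * q 0 ^ 2 - 1) * (1 + q 0) ^ 2
      / (1 + q 1 * q 0) ^ 6,
    (2 * q 1 + q 1 ^ 2 * q 0 - 1) * (1 + q 0) ^ 2 / (1 + q 1 * q 0) ^ 6,
    q 0 * (1 + q 1 * q 0) ^ 6 / (1 + q 0) ^ 3)
  S := {p | 1 + p.1 * p.2.2 ≠ 0} ∩ {p | 1 + p.2.1 * p.2.2 ≠ 0}
  T := {q | 1 + q 0 ≠ 0} ∩ {q | 1 + q 1 * q 0 ≠ 0}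
  hS := (isOpen_ne_fun (by fun_prop) continuous_const).inter
    (isOpen_ne_fun (by fun_prop) continuous_const)
  hT := (isOpen_ne_fun (by fun_prop) continuous_const).inter
    (isOpen_ne_fun (by fun_prop) continuous_const)
  hφ := contDiffOn_pair (ContDiffOn.div (by fun_prop) (by fun_prop) fun p hp => pow_ne_zero _ hp.2)
    (by fun_prop)
  hψ := by
    have h0 := (contDiff_co 0).contDiffOn (s := {q : E2 | 1 + q 0 ≠ 0} ∩ {q | 1 + q 1 * q 0 ≠ 0})
    have h1 := (contDiff_co 1).contDiffOn (s := {q : E2 | 1 + q 0 ≠ 0} ∩ {q | 1 + q 1 * q 0 ≠ 0})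
    refine ContDiffOn.prodMk (ContDiffOn.div (by fun_prop) (by fun_prop)
      fun q hq => pow_ne_zero _ hq.2) (ContDiffOn.prodMk (ContDiffOn.div (by fun_prop) (by fun_prop)
      fun q hq => pow_ne_zero _ hq.2) (ContDiffOn.div (by fun_prop) (by fun_prop)
      fun q hq => pow_ne_zero _ hq.1))
  mem q hq := by
    have h1 : 1 + q 0 ≠ 0 := hq.1
    have h2 : 1 + q 1 * q 0 ≠ 0 := hq.2
    simp only
    field_simp
    ring
  mapψ q hq := by
    have h1 : 1 + q 0 ≠ 0 := hq.1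
    have h2 : 1 + q 1 * q 0 ≠ 0 := hq.2
    constructor
    · have : 1 + (3 * q 1 + 3 * q 1 ^ 2 * q 0 + q 1 ^ 3 * q 0 ^ 2 - 1) * (1 + q 0) ^ 2
          / (1 + q 1 * q 0) ^ 6 * (q 0 * (1 + q 1 * q 0) ^ 6 / (1 + q 0) ^ 3)
          = (1 + q 1 * q 0) ^ 3 / (1 + q 0) := by
        field_simp
        ring
      show _ ≠ _
      rw [this]
      exact div_ne_zero (pow_ne_zero _ h2) h1
    · have : 1 + (2 * q 1 + q 1 ^ 2 * q 0 - 1) * (1 + q 0) ^ 2
          / (1 + q 1 * q 0) ^ 6 * (q 0 * (1 + q 1 * q 0) ^ 6 / (1 + q 0) ^ 3)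
          = (1 + q 1 * q 0) ^ 2 / (1 + q 0) := by
        field_simp
        ring
      show _ ≠ _
      rw [this]
      exact div_ne_zero (pow_ne_zero _ h2) h1
  mapφ p hp := by
    have hu : p.u ≠ 0 := hp.1
    have hv : p.v ≠ 0 := hp.2
    constructor
    · show 1 + p.z / p.v ^ 3 ≠ 0
      have : 1 + p.z / p.v ^ 3 = p.u ^ 2 / p.v ^ 3 := by
        rw [p.z_eq]; field_simp; ring
      rw [this]
      exact div_ne_zero (pow_ne_zero _ hu) (pow_ne_zero _ hv)
    · show 1 + (p.x - p.y) * p.v ^ 2 * (p.z / p.v ^ 3) ≠ 0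
      have : 1 + (p.x - p.y) * p.v ^ 2 * (p.z / p.v ^ 3) = p.u / p.v := by
        field_simp; simp only [V.u, V.v]; ring
      rw [this]
      exact div_ne_zero hu hv
  left p hp := by
    have hu : p.u ≠ 0 := hp.1
    have hv : p.v ≠ 0 := hp.2
    have e1 : 1 + p.z / p.v ^ 3 = p.u ^ 2 / p.v ^ 3 := by
      rw [p.z_eq]; field_simp; ring
    have e2 : 1 + (p.x - p.y) * p.v ^ 2 * (p.z / p.v ^ 3) = p.u / p.v := by
      field_simp; simp only [V.u, V.v]; ring
    have h := p.eq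
    show ((3 * ((p.x - p.y) * p.v ^ 2) + 3 * ((p.x - p.y) * p.v ^ 2) ^ 2 * (p.z / p.v ^ 3)
        + ((p.x - p.y) * p.v ^ 2) ^ 3 * (p.z / p.v ^ 3) ^ 2 - 1) * (1 + p.z / p.v ^ 3) ^ 2
        / (1 + (p.x - p.y) * p.v ^ 2 * (p.z / p.v ^ 3)) ^ 6,
      (2 * ((p.x - p.y) * p.v ^ 2) + ((p.x - p.y) * p.v ^ 2) ^ 2 * (p.z / p.v ^ 3) - 1)
        * (1 + p.z / p.v ^ 3) ^ 2 / (1 + (p.x - p.y) * p.v ^ 2 * (p.z / p.v ^ 3)) ^ 6,
      p.z / p.v ^ 3 * (1 + (p.x - p.y) * p.v ^ 2 * (p.z / p.v ^ 3)) ^ 6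
        / (1 + p.z / p.v ^ 3) ^ 3) = (p.x, p.y, p.z)
    rw [e1, e2]
    refine Prod.ext ?_ (Prod.ext ?_ ?_)
    · simp only
      field_simp
      simp only [V.u, V.v]
      linear_combination h
    · simp only
      field_simp
      simp only [V.u, V.v]
      linear_combination h
    · simp only
      field_simp
  right q hq := by
    have h1 : 1 + q 0 ≠ 0 := hq.1
    have h2 : 1 + q 1 * q 0 ≠ 0 := hq.2
    have : 1 + (2 * q 1 + q 1 ^ 2 * q 0 - 1) * (1 + q 0) ^ 2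
          / (1 + q 1 * q 0) ^ 6 * (q 0 * (1 + q 1 * q 0) ^ 6 / (1 + q 0) ^ 3)
          = (1 + q 1 * q 0) ^ 2 / (1 + q 0) := by
        field_simp
        ring
    ext i
    fin_cases i
    · simp only [this]
      simp
      generalize 1 + q 1 * q 0 = w at h2
      field_simp
    · simp only [this]
      simp
      field_simp
      ring

open Classical in
/-- the chart data used at a point -/
noncomputable def dataAt (p : V) : ChartData := if p.z = 0 then D2 else D1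

theorem mem_dataAt (p : V) : p.1 ∈ (dataAt p).S := by
  unfold dataAt
  split_ifs with h
  · have h' : p.1.2.2 = 0 := h
    constructor <;> simp [h']
  · exact h

noncomputable instance : ChartedSpace E2 V where
  atlas := range ChartData.chart
  chartAt p := (dataAt p).chart
  mem_chart_source p := mem_dataAt p
  chart_mem_atlas _ := mem_range_self _

instance : IsManifold 𝓘(ℂ, E2) (⊤ : WithTop ℕ∞) V := by
  refine isManifold_of_contDiffOn _ _ _ ?_
  rintro _ _ ⟨D, rfl⟩ ⟨D', rfl⟩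
  simp only [modelWithCornersSelf_coe, modelWithCornersSelf_coe_symm, Function.id_comp,
    Function.comp_id, preimage_id_eq, id_eq, range_id, inter_univ]
  refine (D'.hφ.comp (D.hψ.mono fun q hq => hq.1) fun q hq => ?_).congr fun q hq => ?_
  · rw [← D.chart_symm_val hq.1]
    exact hq.2
  · show D'.φ (D.chart.symm q).1 = _
    rw [D.chart_symm_val hq.1]
    rfl

end Pool.Agent.P.MP_eba2d2_an
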