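import Pool.Agent.P.MP_eba2d2_an.Logs
import Pool.Agent.P.MP_eba2d2_an.Defs

/-! The end of the surface carries a nontrivial flat structure. -/

set_option autoImplicit false
set_option linter.dupNamespace false

open Set Filter Topology Complex

namespace Pool.Agent.P.MP_eba2d2_an

namespace V

/-- the fibre coordinate -/
noncomputable def w (p : V) : ℂ := p.u / p.v
/-- the base coordinate -/
noncomputable def f (p : V) : ℂ := p.u ^ 2 / p.v ^ 3
/-- the shifted base coordinate -/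
noncomputable def t (p : V) : ℂ := p.z / p.v ^ 3
/-- a local equation of the removed curve -/
noncomputable def g (p : V) : ℂ := p.u / (p.v ^ 3 * (p.x - p.y))

theorem contAt_w {p : V} (h : p.v ≠ 0) : ContinuousAt w p :=
  continuous_u.continuousAt.div continuous_v.continuousAt h

theorem contAt_f {p : V} (h : p.v ≠ 0) : ContinuousAt f p :=
  (continuous_u.pow 2).continuousAt.div (continuous_v.pow 3).continuousAt (pow_ne_zero _ h)

theorem contAt_t {p : V} (h : p.v ≠ 0) : ContinuousAt t p :=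
  continuous_z.continuousAt.div (continuous_v.pow 3).continuousAt (pow_ne_zero _ h)

theorem f_eq {p : V} (h : p.v ≠ 0) : p.f = 1 + p.t := by
  rw [f, t, p.z_eq]
  field_simp
  ring

theorem w_sub_one {p : V} (h : p.v ≠ 0) : p.w - 1 = (p.x - p.y) * p.z / p.v := by
  rw [w]
  field_simp
  simp only [u, v]
  ring

end V

/-- the outer region -/
def Large : Set V := {p | p.z ≠ 0} ∩ ({p | 10 < ‖p.u‖} ∪ {p | 4 < ‖p.v‖})

/-- the four kinds of regions -/
inductive Reg
  | P | Q | S | D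

/-- the regions -/
def reg : Reg → Set V
  | .P => Large ∩ ({p | p.v ≠ 0} ∩ {p | 1 - p.u ^ 2 / p.v ^ 3 ∈ slitPlane})
  | .Q => Large ∩ ({p | p.u ≠ 0} ∩ {p | 1 - p.v ^ 3 / p.u ^ 2 ∈ slitPlane})
  | .S => {p | ‖p.u‖ < 1 / 2} ∩ {p | ‖p.v‖ < 1 / 2}
  | .D => {p | ‖p.z‖ < ‖p.v‖ ^ 3 / 2} ∩ {p | p.x ≠ p.y}

theorem isOpen_large : IsOpen Large :=
  (isOpen_ne_fun V.continuous_z continuous_const).inter
    ((isOpen_lt continuous_const (by fun_prop)).union (isOpen_lt continuous_const (by fun_prop)))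

theorem isOpen_reg (r : Reg) : IsOpen (reg r) := by
  cases r
  · refine isOpen_large.inter (ContinuousOn.isOpen_inter_preimage
      (f := fun p : V => 1 - p.u ^ 2 / p.v ^ 3) ?_
      (isOpen_ne_fun V.continuous_v continuous_const) isOpen_slitPlane)
    exact continuousOn_const.sub (ContinuousOn.div (by fun_prop) (by fun_prop)
      fun p hp => pow_ne_zero _ hp)
  · refine isOpen_large.inter (ContinuousOn.isOpen_inter_preimage
      (f := fun p : V => 1 - p.v ^ 3 / p.u ^ 2) ?_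
      (isOpen_ne_fun V.continuous_u continuous_const) isOpen_slitPlane)
    exact continuousOn_const.sub (ContinuousOn.div (by fun_prop) (by fun_prop)
      fun p hp => pow_ne_zero _ hp)
  · exact (isOpen_lt (by fun_prop) continuous_const).inter
      (isOpen_lt (by fun_prop) continuous_const)
  · exact (isOpen_lt (by fun_prop) (by fun_prop)).inter
      (isOpen_ne_fun V.continuous_x V.continuous_y)

theorem D_v {p : V} (hp : p ∈ reg .D) : p.v ≠ 0 := by
  intro h
  have h1 : ‖p.z‖ < ‖p.v‖ ^ 3 / 2 := hp.1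
  rw [h] at h1
  have := norm_nonneg p.z
  simp at h1
  linarith

theorem D_t {p : V} (hp : p ∈ reg .D) : ‖p.t‖ < 1 / 2 := by
  have h1 : ‖p.z‖ < ‖p.v‖ ^ 3 / 2 := hp.1
  have h2 : 0 < ‖p.v‖ ^ 3 := pow_pos (norm_pos_iff.2 (D_v hp)) 3
  rw [V.t, norm_div, norm_pow, div_lt_iff₀ h2]
  linarith

theorem D_f {p : V} (hp : p ∈ reg .D) : p.f ∈ slitPlane := by
  rw [V.f_eq (D_v hp)]
  exact mem_slitPlane_of_norm_lt_one ((D_t hp).trans (by norm_num))

theorem D_u {p : V} (hp : p ∈ reg .D) : p.u ≠ 0 := by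
  intro h
  have := slitPlane_ne_zero (D_f hp)
  simp [V.f, h] at this

theorem D_w_sq {p : V} (hp : p ∈ reg .D) : ‖p.w‖ ^ 2 = ‖p.f‖ * ‖p.v‖ := by
  have := D_v hp
  rw [← norm_pow, ← norm_mul, V.w, V.f]
  congr 1
  field_simp

theorem D_f_norm {p : V} (hp : p ∈ reg .D) : 1 / 2 < ‖p.f‖ ∧ ‖p.f‖ < 3 / 2 := by
  have h1 := D_t hp
  rw [V.f_eq (D_v hp)]
  have h2 := norm_add_le 1 p.t
  have h3 := norm_sub_le (1 + p.t) p.t
  simp only [add_sub_cancel_right, norm_one] at h2 h3
  constructor <;> linarith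

theorem D_large {p : V} (hp : p ∈ reg .D) (hl : p ∈ Large) : 1 < ‖p.w‖ := by
  have h1 := D_w_sq hp
  obtain ⟨h2, h3⟩ := D_f_norm hp
  have hv : 4 < ‖p.v‖ := by
    rcases hl.2 with h | h
    · have h4 : 10 < ‖p.u‖ := h
      have h5 : ‖p.u‖ ^ 2 = ‖p.f‖ * ‖p.v‖ ^ 3 := by
        have := D_v hp
        rw [← norm_pow, ← norm_pow, ← norm_mul, V.f]
        congr 1
        field_simp
      by_contra h6
      have h7 : ‖p.v‖ ^ 3 ≤ 4 ^ 3 := pow_le_pow_left₀ (norm_nonneg _) (not_lt.1 h6) 3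
      nlinarith [norm_nonneg p.f]
    · exact h
  by_contra h6
  have h7 : ‖p.w‖ ^ 2 ≤ 1 := pow_le_one₀ (norm_nonneg _) (not_lt.1 h6)
  nlinarith

theorem D_small {p : V} (hp : p ∈ reg .D) (hs : p ∈ reg .S) : ‖p.w‖ < 1 := by
  have h1 := D_w_sq hp
  obtain ⟨h2, h3⟩ := D_f_norm hp
  have hv : ‖p.v‖ < 1 / 2 := hs.2
  by_contra h6
  have h7 : 1 ≤ ‖p.w‖ ^ 2 := one_le_pow₀ (not_lt.1 h6)
  nlinarith [norm_nonneg p.v]

theorem S_z {p : V} (hp : p ∈ reg .S) : p.z ≠ 0 := by
  intro h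
  have h1 : ‖p.u‖ < 1 / 2 := hp.1
  simp [V.u, h] at h1
  linarith

theorem not_large_small {p : V} (hl : p ∈ Large) (hs : p ∈ reg .S) : False := by
  have h1 : ‖p.u‖ < 1 / 2 := hs.1
  have h2 : ‖p.v‖ < 1 / 2 := hs.2
  rcases hl.2 with h | h
  · have : 10 < ‖p.u‖ := h
    linarith
  · have : 4 < ‖p.v‖ := h
    linarith

/-- the functions whose logarithms give the local sections -/
noncomputable def fn : Reg → V → ℂ
  | .P => V.v
  | .Q => V.u
  | .S => V.z
  | .D => V.g

open Classical in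
/-- the reference logarithms -/
noncomputable def ref : Reg → V → ℂ
  | .P => fun p => if p.u = 0 then log p.v else 2 * log p.w - ell p.f
  | .Q => fun p => if p.v = 0 then log p.u else 3 * log p.w - ell p.f
  | .S => fun p => log p.z
  | .D => fun p => if p.z = 0 then log p.g else if 1 < ‖p.w‖ then ell p.t + log (p.w / (p.w - 1))
      else log p.z - log (1 - p.w) - Real.pi * I - 5 * log p.w + 3 * log p.f

theorem exp_nat_log (n : ℕ) {a : ℂ} (h : a ≠ 0) : exp (n * log a) = a ^ n := by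
  rw [exp_nat_mul, exp_log h]

theorem exp_ref (r : Reg) {p : V} (hp : p ∈ reg r) : exp (ref r p) = fn r p := by
  cases r
  · have hv : p.v ≠ 0 := hp.2.1
    simp only [ref, fn]
    split_ifs with hu
    · exact exp_log hv
    · have := exp_nat_log 2 (div_ne_zero hu hv)
      rw [exp_sub, V.f, exp_ell (div_ne_zero (pow_ne_zero _ hu) (pow_ne_zero _ hv)), V.w]
      push_cast at this
      rw [this]
      field_simp
  · have hu : p.u ≠ 0 := hp.2.1
    simp only [ref, fn]
    split_ifs with hv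
    · exact exp_log hu
    · have := exp_nat_log 3 (div_ne_zero hu hv)
      rw [exp_sub, V.f, exp_ell (div_ne_zero (pow_ne_zero _ hu) (pow_ne_zero _ hv)), V.w]
      push_cast at this
      rw [this]
      field_simp
  · exact exp_log (S_z hp)
  · have hu := D_u hp
    have hv := D_v hp
    have hxy : p.x - p.y ≠ 0 := sub_ne_zero.2 hp.2
    have hw : p.w ≠ 0 := div_ne_zero hu hv
    simp only [ref, fn]
    split_ifs with hz h1
    · exact exp_log (div_ne_zero hu (mul_ne_zero (pow_ne_zero _ hv) hxy))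
    · have h2 : p.w - 1 ≠ 0 := by
        rw [V.w_sub_one hv]
        exact div_ne_zero (mul_ne_zero hxy hz) hv
      rw [exp_add, V.t, exp_ell (div_ne_zero hz (pow_ne_zero _ hv)), exp_log (div_ne_zero hw h2),
        V.w_sub_one hv, V.w, V.g]
      field_simp
    · have h2 : 1 - p.w = -((p.x - p.y) * p.z / p.v) := by rw [← V.w_sub_one hv]; ring
      have h3 : 1 - p.w ≠ 0 := by
        rw [h2]
        exact neg_ne_zero.2 (div_ne_zero (mul_ne_zero hxy hz) hv)
      have h4 := exp_nat_log 5 hw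
      have h5 := exp_nat_log 3 (slitPlane_ne_zero (D_f hp))
      push_cast at h4 h5
      rw [exp_add, exp_sub, exp_sub, exp_sub, h4, h5, exp_log hz, exp_log h3, exp_pi_mul_I, h2,
        V.w, V.f, V.g]
      field_simp

theorem fn_ne (r : Reg) {p : V} (hp : p ∈ reg r) : fn r p ≠ 0 := by
  rw [← exp_ref r hp]
  exact exp_ne_zero _

theorem contAt_fn (r : Reg) {p : V} (hp : p ∈ reg r) : ContinuousAt (fn r) p := by
  cases r
  · exact V.continuous_v.continuousAt
  · exact V.continuous_u.continuousAt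
  · exact V.continuous_z.continuousAt
  · exact V.continuous_u.continuousAt.div (Continuous.continuousAt (by fun_prop))
      (mul_ne_zero (pow_ne_zero _ (D_v hp)) (sub_ne_zero.2 hp.2))

variable {G : Type*} [Group G]

/-- the monodromy elements -/
def mono (a b : G) : Reg → G
  | .P => a
  | .Q => b
  | .S => a * b⁻¹
  | .D => a * b⁻¹

open Classical in
/-- the twists -/
noncomputable def tw (a : G) : Reg → V → G
  | .D => fun p => if 1 < ‖p.w‖ then a ^ ep p.t else 1
  | _ => fun _ => 1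

/-- a local section -/
noncomputable def sec (a b : G) (r : Reg) (L : V → ℂ) (p : V) : G :=
  mono a b r ^ ex (L p - ref r p) * tw a r p

/-- a germ of a continuous logarithm -/
def IsLog (r : Reg) (L : V → ℂ) (p : V) : Prop :=
  p ∈ reg r ∧ ContinuousAt L p ∧ ∀ᶠ q in 𝓝 p, exp (L q) = fn r q

theorem IsLog.ev {r : Reg} {L : V → ℂ} {p : V} (h : IsLog r L p) :
    ∀ᶠ q in 𝓝 p, q ∈ reg r ∧ exp (L q - ref r q) = 1 := by
  filter_upwards [h.2.2, (isOpen_reg r).mem_nhds h.1] with q h1 h2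
  refine ⟨h2, ?_⟩
  rw [exp_sub, h1, exp_ref r h2, div_self (fn_ne r h2)]

theorem ep_f {p : V} (h : p.v ≠ 0) : ep p.f = ep p.t := by
  simp [ep, V.f_eq h]

theorem sec_P {a b : G} (ha : a ^ (2 : ℤ) = 1) {L : V → ℂ} {p : V} (h : IsLog .P L p)
    (hu : p.u ≠ 0) {C : V → ℂ} {e : V → ℤ} (hC : ContinuousAt C p)
    (he : ∀ᶠ q in 𝓝 p, ell q.f = C q + e q * tpi) :
    ∃ n : ℤ, ∀ᶠ q in 𝓝 p, sec a b .P L q = a ^ (n + e q) := by
  have hv : p.v ≠ 0 := h.1.2.1
  obtain ⟨Lw, h1, h2⟩ := exists_local_log (V.contAt_w hv) (div_ne_zero hu hv)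
  simp only [sec, mono, tw, mul_one]
  refine zpow_ex ha (C := fun q => L q - 2 * Lw q + C q)
    ((h.2.1.sub (continuousAt_const.mul h1)).add hC) ?_
  filter_upwards [h.ev, h2, he, V.continuous_u.continuousAt.eventually_ne hu] with q k1 k2 k3 k4
  obtain ⟨J, k2⟩ := k2
  refine ⟨k1.2, J, ?_⟩
  simp only [ref, if_neg k4, k2, k3]
  push_cast
  ring

theorem sec_Q {a b : G} (hb : b ^ (3 : ℤ) = 1) {L : V → ℂ} {p : V} (h : IsLog .Q L p)
    (hv : p.v ≠ 0) {C : V → ℂ} {e : V → ℤ} (hC : ContinuousAt C p)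
    (he : ∀ᶠ q in 𝓝 p, ell q.f = C q + e q * tpi) :
    ∃ n : ℤ, ∀ᶠ q in 𝓝 p, sec a b .Q L q = b ^ (n + e q) := by
  have hu : p.u ≠ 0 := h.1.2.1
  obtain ⟨Lw, h1, h2⟩ := exists_local_log (V.contAt_w hv) (div_ne_zero hu hv)
  simp only [sec, mono, tw, mul_one]
  refine zpow_ex hb (C := fun q => L q - 3 * Lw q + C q)
    ((h.2.1.sub (continuousAt_const.mul h1)).add hC) ?_
  filter_upwards [h.ev, h2, he, V.continuous_v.continuousAt.eventually_ne hv] with q k1 k2 k3 k4
  obtain ⟨J, k2⟩ := k2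
  refine ⟨k1.2, J, ?_⟩
  simp only [ref, if_neg k4, k2, k3]
  push_cast
  ring

theorem div_sub_one_mem {w : ℂ} (h : 1 < ‖w‖) : w / (w - 1) ∈ slitPlane := by
  have h0 : w ≠ 0 := by
    rintro rfl
    norm_num at h
  have h1 : 1 + -w⁻¹ ∈ slitPlane :=
    mem_slitPlane_of_norm_lt_one (by rw [norm_neg, norm_inv]; exact inv_lt_one_of_one_lt₀ h)
  have h2 : w / (w - 1) = (1 + -w⁻¹)⁻¹ := by
    have : w - 1 ≠ 0 := by
      rw [sub_ne_zero]
      rintro rfl
      norm_num at h
    have h3 : 1 + -w⁻¹ = (w - 1) / w := by field_simp; ring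
    rw [h3, inv_div]
  rw [h2]
  rcases h1 with h1 | h1
  · left
    rw [inv_re]
    exact div_pos h1 (normSq_pos.2 fun h => by simp [h] at h1)
  · right
    rw [inv_im]
    exact div_ne_zero (neg_ne_zero.2 h1) (normSq_pos.2 fun h => by simp [h] at h1).ne'

theorem sec_D {a b : G} {L : V → ℂ} {p : V} (h : IsLog .D L p) (hl : p ∈ Large)
    {C : V → ℂ} {e : V → ℤ} (hC : ContinuousAt C p)
    (he : ∀ᶠ q in 𝓝 p, ell q.t = C q + e q * tpi) :
    ∃ n : ℤ, ∀ᶠ q in 𝓝 p, sec a b .D L q = (a * b⁻¹) ^ (n + -e q) * a ^ ep q.t := by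
  have hw := D_large h.1 hl
  have hv := D_v h.1
  have h1 : ContinuousAt (fun q : V => log (q.w / (q.w - 1))) p := by
    refine ContinuousAt.clog ((V.contAt_w hv).div ((V.contAt_w hv).sub continuousAt_const) ?_)
      (div_sub_one_mem hw)
    rw [sub_ne_zero]
    intro h
    rw [h] at hw
    norm_num at hw
  obtain ⟨n, hn⟩ := zpow_ex (zpow_zero (a * b⁻¹)) (A := fun q => L q - ref .D q) (e := fun q => -e q)
    (C := fun q => L q - C q - log (q.w / (q.w - 1))) ((h.2.1.sub hC).sub h1) (by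
      filter_upwards [h.ev, he, isOpen_large.mem_nhds hl] with q k1 k2 k3
      refine ⟨k1.2, 0, ?_⟩
      have k4 : q.z ≠ 0 := k3.1
      simp only [ref, if_neg k4, if_pos (D_large k1.1 k3), k2]
      push_cast
      ring)
  refine ⟨n, ?_⟩
  filter_upwards [hn, h.ev, isOpen_large.mem_nhds hl] with q k1 k2 k3
  simp only [sec, mono, tw, if_pos (D_large k2.1 k3), k1]

theorem lc_PQ {a b : G} (ha : a ^ (2 : ℤ) = 1) (hb : b ^ (3 : ℤ) = 1) {L L' : V → ℂ} {p : V}
    (h : IsLog .P L p) (h' : IsLog .Q L' p) :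
    LC (fun q => sec a b .P L q * (sec a b .Q L' q)⁻¹) p := by
  have hv : p.v ≠ 0 := h.1.2.1
  have hu : p.u ≠ 0 := h'.1.2.1
  have hf : -p.f ∈ slitPlane := by
    have h1 : 1 - p.f ∈ slitPlane := h.1.2.2
    have h0 : p.f ≠ 0 := div_ne_zero (pow_ne_zero _ hu) (pow_ne_zero _ hv)
    have h2 : 1 - p.f⁻¹ ∈ slitPlane := by
      rw [V.f, inv_div]
      exact h'.1.2.2
    by_contra h3
    simp only [mem_slitPlane_iff, neg_re, neg_im, not_or, not_lt, ne_eq, neg_eq_zero,
      not_not] at h3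
    obtain ⟨r, hr⟩ : ∃ r : ℝ, p.f = r := ⟨p.f.re, Complex.ext (by simp) (by simp [h3.2])⟩
    rw [hr] at h0 h1 h2 h3
    have h4 : 0 < r := lt_of_le_of_ne (by simpa using h3.1) (fun h => h0 (by simp [← h]))
    have h5 : r < 1 := by simpa [mem_slitPlane_iff] using h1
    have h6 : r⁻¹ < 1 := by
      rw [← ofReal_inv] at h2
      simpa [mem_slitPlane_iff, -ofReal_inv] using h2
    exact absurd (inv_lt_one₀ h4 |>.1 h6) h5.not_gt
  have hC : ContinuousAt (fun q : V => ell q.f) p :=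
    (continuousAt_ell hf).comp (V.contAt_f hv)
  obtain ⟨n, hn⟩ := sec_P (b := b) ha h hu (e := fun _ => 0) hC (by simp)
  obtain ⟨m, hm⟩ := sec_Q (a := a) hb h' hv (e := fun _ => 0) hC (by simp)
  refine LC.of_eventually (c := a ^ (n + 0) * (b ^ (m + 0))⁻¹) ?_
  filter_upwards [hn, hm] with q k1 k2
  rw [k1, k2]

theorem lc_PD {a b : G} (ha : a ^ (2 : ℤ) = 1) {L L' : V → ℂ} {p : V}
    (h : IsLog .P L p) (h' : IsLog .D L' p) :
    LC (fun q => sec a b .D L' q * (sec a b .P L q)⁻¹) p := by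
  have hv := D_v h'.1
  have ht : -p.t ∈ slitPlane := by
    have h1 : 1 - p.f ∈ slitPlane := h.1.2.2
    rw [V.f_eq hv] at h1
    simpa using h1
  obtain ⟨n, hn⟩ := sec_P (b := b) ha h (D_u h'.1) (e := fun q => ep q.t) (C := fun q => log q.f)
    ((V.contAt_f hv).clog (D_f h'.1)) (by
      filter_upwards [V.continuous_v.continuousAt.eventually_ne hv] with q hq
      rw [ell, ep_f hq])
  obtain ⟨m, hm⟩ := sec_D (a := a) (b := b) h' h.1.1 (e := fun _ => 0)
    ((continuousAt_ell ht).comp (V.contAt_t hv)) (by simp)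
  refine LC.of_eventually (c := (a * b⁻¹) ^ m * (a ^ n)⁻¹) ?_
  filter_upwards [hn, hm] with q k1 k2
  rw [k1, k2]
  group

theorem lc_QD {a b : G} (hb : b ^ (3 : ℤ) = 1) {L L' : V → ℂ} {p : V}
    (h : IsLog .Q L p) (h' : IsLog .D L' p) :
    LC (fun q => sec a b .D L' q * (sec a b .Q L q)⁻¹) p := by
  have hv := D_v h'.1
  have ht : p.t ∈ slitPlane := by
    have h2 : 1 - p.f⁻¹ ∈ slitPlane := by
      rw [V.f, inv_div]
      exact h.1.2.2
    rw [V.f_eq hv] at h2
    have h4 := D_t h'.1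
    by_contra h3
    simp only [mem_slitPlane_iff, not_or, not_lt, ne_eq, not_not] at h3
    obtain ⟨r, hr⟩ : ∃ r : ℝ, p.t = r := ⟨p.t.re, Complex.ext (by simp) (by simp [h3.2])⟩
    rw [hr] at h2 h3 h4
    have h5 : r ≤ 0 := by simpa using h3.1
    have h6 : -(1 / 2) < r := (abs_lt.1 (by simpa using h4)).1
    have h7 : (1 + r)⁻¹ < 1 := by
      have : (1 + (r : ℂ))⁻¹ = ((1 + r)⁻¹ : ℝ) := by push_cast; rfl
      rw [this] at h2
      simpa [mem_slitPlane_iff, -ofReal_inv] using h2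
    have := (inv_lt_one₀ (by linarith)).1 h7
    linarith
  obtain ⟨n, hn⟩ := sec_Q (a := a) hb h hv (e := fun q => ep q.t) (C := fun q => log q.f)
    ((V.contAt_f hv).clog (D_f h'.1)) (by
      filter_upwards [V.continuous_v.continuousAt.eventually_ne hv] with q hq
      rw [ell, ep_f hq])
  obtain ⟨m, hm⟩ := sec_D (a := a) (b := b) h' h.1.1 (e := fun q => ep q.t) (C := fun q => log q.t)
    ((V.contAt_t hv).clog ht) (Eventually.of_forall fun q => rfl)
  refine LC.of_eventually (c := (a * b⁻¹) ^ m * (b ^ n)⁻¹) ?_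
  filter_upwards [hn, hm] with q k1 k2
  rw [k1, k2, ep]
  split_ifs
  · rw [zpow_add, zpow_add]
    group
  · simp

theorem lc_SD {a b : G} (hc : (a * b⁻¹) ^ (5 : ℤ) = 1) {L L' : V → ℂ} {p : V}
    (h : IsLog .S L p) (h' : IsLog .D L' p) :
    LC (fun q => sec a b .D L' q * (sec a b .S L q)⁻¹) p := by
  have hv := D_v h'.1
  have hw := D_small h'.1 h.1
  obtain ⟨Lw, h1, h2⟩ := exists_local_log (V.contAt_w hv) (div_ne_zero (D_u h'.1) hv)
  have h3 : ContinuousAt (fun q : V => log (1 - q.w)) p := by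
    refine (continuousAt_const.sub (V.contAt_w hv)).clog ?_
    show 1 - p.w ∈ slitPlane
    rw [sub_eq_add_neg]
    exact mem_slitPlane_of_norm_lt_one (by rwa [norm_neg])
  obtain ⟨n, hn⟩ := zpow_ex hc (A := fun q => L' q - ref .D q) (e := fun q => ex (L q - ref .S q))
    (C := fun q => L' q - L q + log (1 - q.w) + Real.pi * I + 5 * Lw q - 3 * log q.f)
    (((((h'.2.1.sub h.2.1).add h3).add continuousAt_const).add (continuousAt_const.mul h1)).sub
      (continuousAt_const.mul ((V.contAt_f hv).clog (D_f h'.1)))) (by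
      filter_upwards [h.ev, h'.ev, h2] with q k1 k2 k3
      obtain ⟨J, k3⟩ := k3
      refine ⟨k2.2, -J, ?_⟩
      have k4 := eq_ex k1.2
      simp only [ref, if_neg (S_z k1.1), if_neg (D_small k2.1 k1.1).not_gt, k3] at k4 ⊢
      push_cast
      linear_combination k4)
  refine LC.of_eventually (c := (a * b⁻¹) ^ n) ?_
  filter_upwards [hn, h.ev, h'.ev] with q k1 k2 k3
  simp only [sec, mono, tw, if_neg (D_small k3.1 k2.1).not_gt, k1, mul_one]
  group

theorem lc_sec {a b : G} (ha : a ^ (2 : ℤ) = 1) (hb : b ^ (3 : ℤ) = 1)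
    (hc : (a * b⁻¹) ^ (5 : ℤ) = 1) {r r' : Reg} {L L' : V → ℂ} {p : V}
    (h : IsLog r L p) (h' : IsLog r' L' p) :
    LC (fun q => sec a b r L q * (sec a b r' L' q)⁻¹) p := by
  have same : r = r' → LC (fun q => sec a b r L q * (sec a b r' L' q)⁻¹) p := by
    rintro rfl
    refine lc_same _ _ h.2.1 h'.2.1 ?_
    filter_upwards [h.ev, h'.ev] with q k1 k2
    exact ⟨k1.2, k2.2⟩
  cases r <;> cases r'
  · exact same rfl
  · exact lc_PQ ha hb h h'
  · exact (not_large_small h.1.1 h'.1).elim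
  · exact (lc_PD ha h h').symm'
  · exact (lc_PQ ha hb h' h).symm'
  · exact same rfl
  · exact (not_large_small h.1.1 h'.1).elim
  · exact (lc_QD hb h h').symm'
  · exact (not_large_small h'.1.1 h.1).elim
  · exact (not_large_small h'.1.1 h.1).elim
  · exact same rfl
  · exact (lc_SD hc h h').symm'
  · exact lc_PD ha h' h
  · exact lc_QD hb h' h
  · exact lc_SD hc h' h
  · exact same rfl

end Pool.Agent.P.MP_eba2d2_an
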