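import Pool.Agent.P.MP_eba2d2_an.End

/-! The surface is not homeomorphic to the complex plane of dimension two. -/

set_option autoImplicit false

open Set Filter Topology Complex

namespace Pool.Agent.P.MP_eba2d2_an

theorem large_cover {p : V} (hp : p ∈ Large) : p ∈ reg .P ∨ p ∈ reg .Q := by
  have hz : p.z ≠ 0 := hp.1
  by_cases hv : p.v = 0
  · refine Or.inr ⟨hp, fun hu => hz ?_, by simp [hv]⟩
    rw [p.z_eq, hv, show p.u = 0 from hu]
    simp
  by_cases hu : p.u = 0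
  · exact Or.inl ⟨hp, hv, by simp [hu]⟩
  by_cases h1 : 1 - p.u ^ 2 / p.v ^ 3 ∈ slitPlane
  · exact Or.inl ⟨hp, hv, h1⟩
  refine Or.inr ⟨hp, hu, ?_⟩
  show 1 - p.v ^ 3 / p.u ^ 2 ∈ slitPlane
  rw [← inv_div]
  have h2 : p.u ^ 2 / p.v ^ 3 ≠ 1 := by
    intro h
    rw [div_eq_one_iff_eq (pow_ne_zero _ hv)] at h
    exact hz (by rw [p.z_eq, h, sub_self])
  generalize p.u ^ 2 / p.v ^ 3 = f at h1 h2
  simp only [mem_slitPlane_iff, not_or, not_lt, ne_eq, not_not, sub_re, sub_im, one_re, one_im,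
    zero_sub, neg_eq_zero] at h1
  obtain ⟨r, rfl⟩ : ∃ r : ℝ, f = r := ⟨f.re, Complex.ext (by simp) (by simp [h1.2])⟩
  have h3 : 1 < r := lt_of_le_of_ne (by simpa using h1.1) fun h => h2 (by simp [← h])
  left
  rw [← ofReal_inv]
  simpa [-ofReal_inv] using inv_lt_one_of_one_lt₀ h3

theorem bound_of_z {a b z : ℂ} (h : a = 1 + b * z) (ha : ‖a‖ ≤ 10) (hz : 1 / 16 ≤ ‖z‖) :
    ‖b‖ ≤ 200 := by
  have h1 : ‖b‖ * ‖z‖ ≤ 11 := by
    rw [← norm_mul, show b * z = a - 1 by rw [h]; ring]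
    have := norm_sub_le a 1
    rw [norm_one] at this
    linarith
  nlinarith [norm_nonneg b]

theorem cover (p : V) (h : ∀ r, p ∉ reg r) : ‖p.x‖ ≤ 200 ∧ ‖p.y‖ ≤ 200 ∧ ‖p.z‖ ≤ 200 := by
  have hL : p ∉ Large := fun hl => (large_cover hl).elim (h _) (h _)
  have hS : 1 / 2 ≤ ‖p.u‖ ∨ 1 / 2 ≤ ‖p.v‖ := by
    by_contra hc
    push Not at hc
    exact h .S hc
  have hD : ‖p.v‖ ^ 3 / 2 ≤ ‖p.z‖ ∨ p.x = p.y := by
    by_contra hc
    push Not at hc
    exact h .D hc
  by_cases hz : p.z = 0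
  · have hv : p.v = 1 := by simp [V.v, hz]
    rcases hD with h1 | h1
    · rw [hv, hz] at h1
      norm_num at h1
    · have h2 := p.eq
      rw [hz, h1] at h2
      have h3 : p.y = -1 := by linear_combination -h2
      rw [h1, h3, hz]
      norm_num
  have hu : ‖p.u‖ ≤ 10 := not_lt.1 fun hc => hL ⟨hz, Or.inl hc⟩
  have hv : ‖p.v‖ ≤ 4 := not_lt.1 fun hc => hL ⟨hz, Or.inr hc⟩
  have hz1 : ‖p.z‖ ≤ 200 := by
    rw [p.z_eq]
    refine (norm_sub_le _ _).trans ?_
    rw [norm_pow, norm_pow]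
    have h1 : ‖p.u‖ ^ 2 ≤ 10 ^ 2 := pow_le_pow_left₀ (norm_nonneg _) hu 2
    have h2 : ‖p.v‖ ^ 3 ≤ 4 ^ 3 := pow_le_pow_left₀ (norm_nonneg _) hv 3
    linarith
  rcases hD with h1 | h1
  · have h2 : 1 / 16 ≤ ‖p.z‖ := by
      by_cases h3 : 1 / 2 ≤ ‖p.v‖
      · have : (1 / 2) ^ 3 ≤ ‖p.v‖ ^ 3 := pow_le_pow_left₀ (by norm_num) h3 3
        linarith
      · have h4 := hS.resolve_right h3
        have h5 : ‖p.v‖ ^ 3 ≤ (1 / 2) ^ 3 := pow_le_pow_left₀ (norm_nonneg _) (not_le.1 h3).le 3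
        have h6 : (1 / 2) ^ 2 ≤ ‖p.u‖ ^ 2 := pow_le_pow_left₀ (by norm_num) h4 2
        have h7 := norm_add_le p.z (p.v ^ 3)
        rw [p.z_eq, sub_add_cancel, ← p.z_eq, norm_pow, norm_pow] at h7
        linarith
    exact ⟨bound_of_z rfl hu h2, bound_of_z rfl (hv.trans (by norm_num)) h2, hz1⟩
  · have h2 : p.u = p.v := by simp [V.u, V.v, h1]
    have h3 : 1 / 2 ≤ ‖p.u‖ := hS.elim id fun h => h2 ▸ h
    have h4 : p.x * p.u ^ 2 = -1 := by
      have h5 := p.eq
      rw [← h1] at h5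
      simp only [V.u]
      linear_combination -h5
    have h5 : ‖p.x‖ * ‖p.u‖ ^ 2 = 1 := by
      rw [← norm_pow, ← norm_mul, h4]
      simp
    have h6 : (1 / 2) ^ 2 ≤ ‖p.u‖ ^ 2 := pow_le_pow_left₀ (by norm_num) h3 2
    have h7 : ‖p.x‖ ≤ 200 := by nlinarith [norm_nonneg p.x]
    exact ⟨h7, h1 ▸ h7, hz1⟩

theorem exists_isLog {r : Reg} {p : V} (hp : p ∈ reg r) :
    ∃ (U : Set V) (L : V → ℂ), IsOpen U ∧ p ∈ U ∧ ∀ q ∈ U, IsLog r L q := by
  have hO : IsOpen (reg r ∩ (fun q => fn r q / fn r p) ⁻¹' slitPlane) :=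
    ContinuousOn.isOpen_inter_preimage
      (fun q hq => ((contAt_fn r hq).div_const _).continuousWithinAt) (isOpen_reg r)
      isOpen_slitPlane
  refine ⟨_, fun q => log (fn r p) + log (fn r q / fn r p), hO,
    ⟨hp, by simp [div_self (fn_ne r hp)]⟩, fun q hq => ⟨hq.1, continuousAt_const.add
      (((contAt_fn r hq.1).div_const _).clog hq.2), ?_⟩⟩
  filter_upwards [hO.mem_nhds hq] with q' hq'
  rw [exp_add, exp_log (fn_ne r hp), exp_log (slitPlane_ne_zero hq'.2)]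
  field_simp [fn_ne r hp]

/-- points of the multiple fibre `u = 0` -/
noncomputable def fib (c : ℂ) : V :=
  ⟨(1 / exp c ^ 3, (1 - exp c) / exp c ^ 3, -exp c ^ 3), by
    have := exp_ne_zero c
    simp only
    field_simp
    ring⟩

theorem fib_u (c : ℂ) : (fib c).u = 0 := by
  have := exp_ne_zero c
  simp only [V.u, V.x, V.z, fib]
  field_simp
  ring

theorem fib_v (c : ℂ) : (fib c).v = exp c := by
  have := exp_ne_zero c
  simp only [V.v, V.y, V.z, fib]
  field_simp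
  ring

theorem fib_z (c : ℂ) : (fib c).z = -exp c ^ 3 := rfl

theorem continuous_fib : Continuous fib := by
  refine continuous_induced_rng.2 ?_
  have h : ∀ c : ℂ, exp c ^ 3 ≠ 0 := fun c => pow_ne_zero _ (exp_ne_zero c)
  exact (continuous_const.div (by fun_prop) h).prodMk
    ((Continuous.div (by fun_prop) (by fun_prop) h).prodMk (by fun_prop))

theorem eq_one_of_homeo (φ : V ≃ₜ E2) {G : Type} [Group G] {a b : G} (ha : a ^ (2 : ℤ) = 1)
    (hb : b ^ (3 : ℤ) = 1) (hc : (a * b⁻¹) ^ (5 : ℤ) = 1) : a = 1 := by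
  obtain ⟨R, hR0, hR⟩ := ((V.isCompact_box 200).image φ.continuous).isBounded.exists_pos_norm_le
  have : SimplyConnectedSpace {x : E2 // R < ‖x‖} := simplyConnected_far (by
    rw [← Module.finrank_mul_finrank ℝ ℂ E2]
    simp) hR0
  have : LocallyPathConnectedSpace {x : E2 // R < ‖x‖} :=
    (isOpen_lt continuous_const continuous_norm).locallyPathConnectedSpace
  let ψ : {x : E2 // R < ‖x‖} → V := fun x => φ.symm x.1
  have hψ : Continuous ψ := φ.symm.continuous.comp continuous_subtype_val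
  obtain ⟨γ, hγ⟩ := exists_gauge
    (ι := {i : Reg × Set V × (V → ℂ) // IsOpen i.2.1 ∧ ∀ q ∈ i.2.1, IsLog i.1 i.2.2 q})
    (fun i => ψ ⁻¹' i.1.2.1) (fun i x => sec a b i.1.1 i.1.2.2 (ψ x))
    (fun i => i.2.1.preimage hψ) (fun x => by
      have h1 : ¬ ∀ r, ψ x ∉ reg r := fun h => by
        have := hR _ (mem_image_of_mem φ (cover _ h))
        simp only [ψ, Homeomorph.apply_symm_apply] at this
        exact x.2.not_ge this
      push Not at h1
      obtain ⟨r, hr⟩ := h1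
      obtain ⟨U, L, h2, h3, h4⟩ := exists_isLog hr
      exact ⟨⟨(r, U, L), h2, h4⟩, h3⟩)
    (fun i j x hi hj => (lc_sec ha hb hc (i.2.2 _ hi) (j.2.2 _ hj)).comp hψ.continuousAt)
  obtain ⟨B, hB0, hB⟩ := (((isCompact_closedBall (0 : E2) R).image φ.symm.continuous).image
    V.continuous_z).isBounded.exists_pos_norm_le
  let c : ℝ → ℂ := fun θ => (B + 4 : ℝ) + θ * I
  have hcc : Continuous c := by fun_prop
  have hn : ∀ θ, B + 4 < ‖exp (c θ)‖ := fun θ => by
    have := Real.add_one_le_exp (B + 4)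
    simp only [norm_exp, c, add_re, ofReal_re, mul_re, I_re, ofReal_im, I_im]
    simp only [mul_zero, mul_one, sub_zero, add_zero]
    linarith
  have hfar : ∀ θ, R < ‖φ (fib (c θ))‖ := fun θ => by
    by_contra h
    have h1 := hB _ (mem_image_of_mem V.z (mem_image_of_mem φ.symm
      (mem_closedBall_zero_iff.2 (not_lt.1 h))))
    rw [Homeomorph.symm_apply_apply, fib_z, norm_neg, norm_pow] at h1
    have h2 := hn θ
    have h3 : ‖exp (c θ)‖ ^ 1 ≤ ‖exp (c θ)‖ ^ 3 := pow_le_pow_right₀ (by linarith) (by norm_num)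
    linarith
  let l : ℝ → {x : E2 // R < ‖x‖} := fun θ => ⟨φ (fib (c θ)), hfar θ⟩
  have hl : Continuous l :=
    continuous_induced_rng.2 (φ.continuous.comp (continuous_fib.comp hcc))
  have hψl : ∀ θ, ψ (l θ) = fib (c θ) := fun θ => φ.symm_apply_apply _
  have hP : ∀ θ, fib (c θ) ∈ reg .P := fun θ => by
    refine ⟨⟨neg_ne_zero.2 (pow_ne_zero _ (exp_ne_zero _)), Or.inr ?_⟩, ?_, ?_⟩
    · show 4 < ‖(fib (c θ)).v‖
      rw [fib_v]
      linarith [hn θ]
    · show (fib (c θ)).v ≠ 0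
      rw [fib_v]
      exact exp_ne_zero _
    · simp [fib_u]
  have hF : IsLocallyConstant
      (fun θ => γ (l θ) * (a ^ ex (c θ - log (exp (c θ))) * 1)⁻¹) := by
    rw [IsLocallyConstant.iff_eventually_eq]
    intro θ
    obtain ⟨U, L, h2, h3, h4⟩ := exists_isLog (hP θ)
    have h5 := (hγ ⟨(.P, U, L), h2, h4⟩ (l θ) (by rwa [mem_preimage, hψl])).comp hl.continuousAt
    have hfc : ContinuousAt (fun θ => fib (c θ)) θ := (continuous_fib.comp hcc).continuousAt
    have h6 := lc_same (x := θ) a (fun _ => 1) (L := fun θ => L (fib (c θ))) (L' := c)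
      (Λ := fun θ => log (exp (c θ))) (ContinuousAt.comp (f := fun θ => fib (c θ)) (h4 _ h3).2.1 hfc) hcc.continuousAt (by
        filter_upwards [hfc.eventually (h4 _ h3).2.2] with θ' h
        have h' : exp (L (fib (c θ'))) = exp (c θ') := h.trans (fib_v _)
        rw [exp_sub, exp_sub, h', exp_log (exp_ne_zero _), div_self (exp_ne_zero _)]
        exact ⟨rfl, rfl⟩)
    have h7 : ∀ θ', sec a b .P L (ψ (l θ')) = a ^ ex (L (fib (c θ')) - log (exp (c θ'))) * 1 := by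
      intro θ'
      simp only [sec, mono, tw, ref, hψl, fib_u, fib_v, if_true]
    filter_upwards [h5, h6] with θ' k1 k2
    simp only [h7] at k1
    have e : ∀ θ', γ (l θ') * (a ^ ex (c θ' - log (exp (c θ'))) * 1)⁻¹ =
        (γ (l θ') * (a ^ ex (L (fib (c θ')) - log (exp (c θ'))) * 1)⁻¹) *
        (a ^ ex (L (fib (c θ')) - log (exp (c θ'))) * 1 *
          (a ^ ex (c θ' - log (exp (c θ'))) * 1)⁻¹) := fun θ' => by group
    rw [e θ', e θ, k1, k2]
  have h1 := hF.apply_eq_of_preconnectedSpace 0 (2 * Real.pi)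
  have h2 : c (2 * Real.pi) = c 0 + tpi := by
    simp [c]
  have h3 : exp (c (2 * Real.pi)) = exp (c 0) := by
    rw [h2, exp_add, exp_two_pi_mul_I, mul_one]
  have h4 : l (2 * Real.pi) = l 0 := by
    apply Subtype.ext
    show φ (fib _) = φ (fib _)
    simp only [fib, h3]
  have h5 : log (exp (c 0)) = c 0 := log_exp (by simp [c, Real.pi_pos]) (by simp [c, Real.pi_pos.le])
  have h6 : ex 0 = 0 := by simpa using ex_int 0
  have h7 : ex tpi = 1 := by simpa using ex_int 1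
  simp only [h4, h3, h5] at h1
  rw [h2, sub_self, add_sub_cancel_left, h6, h7] at h1
  simpa using h1

theorem not_homeo (φ : V ≃ₜ E2) : False := by
  have h := eq_one_of_homeo φ (G := Equiv.Perm (Fin 5))
    (a := Equiv.swap 0 1 * Equiv.swap 2 3) (b := Equiv.swap 0 2 * Equiv.swap 2 4)
    (by rw [zpow_ofNat]; decide) (by rw [zpow_ofNat]; decide) (by rw [zpow_ofNat]; decide)
  revert h
  decide

end Pool.Agent.P.MP_eba2d2_an
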