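import Pool.Agent.P.MP_eba2d2_an.Mfd
import Pool.Agent.P.MP_eba2d2_an.NotHomeo
import Pool.Agent.P.MP_eba2d2_an.Contr

/-! The counterexample, given the approximation property in coordinates. -/

set_option autoImplicit false

open scoped Manifold

namespace Pool.Agent.P.MP_eba2d2_an

theorem main_of_cap (hcap : Cap) :
    ¬ (∀ (m : ℕ) (X : Type) [TopologicalSpace X] [T2Space X] [SecondCountableTopology X]
    [ChartedSpace (EuclideanSpace ℂ (Fin m)) X]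
    [IsManifold 𝓘(ℂ, EuclideanSpace ℂ (Fin m)) (⊤ : WithTop ℕ∞) X],
    ContractibleSpace X →
    (∀ K : Set X, IsCompact K →
      IsCompact {x : X | ∀ f : X → ℂ,
        MDifferentiable 𝓘(ℂ, EuclideanSpace ℂ (Fin m)) 𝓘(ℂ, ℂ) f →
        ∀ c : ℝ, (∀ y ∈ K, ‖f y‖ ≤ c) → ‖f x‖ ≤ c}) →
    (∀ x y : X, x ≠ y → ∃ f : X → ℂ,
      MDifferentiable 𝓘(ℂ, EuclideanSpace ℂ (Fin m)) 𝓘(ℂ, ℂ) f ∧ f x ≠ f y) →
    (∀ (n : ℕ) (K : Set (EuclideanSpace ℂ (Fin n))), IsCompact K → Convex ℝ K →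
      ∀ (U : Set (EuclideanSpace ℂ (Fin n))), IsOpen U → K ⊆ U →
      ∀ f : EuclideanSpace ℂ (Fin n) → X,
        MDifferentiableOn 𝓘(ℂ, EuclideanSpace ℂ (Fin n)) 𝓘(ℂ, EuclideanSpace ℂ (Fin m)) f U →
        ∀ Ω : Set (EuclideanSpace ℂ (Fin n) × X), IsOpen Ω → (∀ z ∈ K, (z, f z) ∈ Ω) →
          ∃ g : EuclideanSpace ℂ (Fin n) → X,
            MDifferentiable 𝓘(ℂ, EuclideanSpace ℂ (Fin n)) 𝓘(ℂ, EuclideanSpace ℂ (Fin m)) g ∧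
            ∀ z ∈ K, (z, g z) ∈ Ω) →
    ∃ φ : X ≃ₜ EuclideanSpace ℂ (Fin m),
      MDifferentiable 𝓘(ℂ, EuclideanSpace ℂ (Fin m)) 𝓘(ℂ, EuclideanSpace ℂ (Fin m))
        (φ : X → EuclideanSpace ℂ (Fin m)) ∧
      MDifferentiable 𝓘(ℂ, EuclideanSpace ℂ (Fin m)) 𝓘(ℂ, EuclideanSpace ℂ (Fin m))
        (φ.symm : EuclideanSpace ℂ (Fin m) → X)) := by
  intro h
  obtain ⟨φ, -⟩ := h 2 V contractible hull_compact separates (oka_of_cap hcap)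
  exact not_homeo φ

end Pool.Agent.P.MP_eba2d2_an
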