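import Mathlib
import Pool.Agent.P.MP_4d0e60_an.Sphere

/-! Global gauges for families of local group-valued functions on simply connected spaces. -/

set_option autoImplicit false

open Set Filter Topology unitInterval

namespace Pool.Agent.P.MP_eba2d2_an

theorem simplyConnected_sphere {E : Type} [NormedAddCommGroup E] [NormedSpace ℝ E]
    [FiniteDimensional ℝ E] (h : 2 < Module.finrank ℝ E) :
    SimplyConnectedSpace (Metric.sphere (0 : E) 1) := by
  rw [simply_connected_iff_loops_nullhomotopic]
  have hr : 1 < Module.rank ℝ E := by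
    rw [← Module.finrank_eq_rank]
    exact_mod_cast (by omega : 1 < Module.finrank ℝ E)
  refine ⟨isPathConnected_iff_pathConnectedSpace.1 (isPathConnected_sphere hr 0 zero_le_one),
    fun x γ => ?_⟩
  have h1 : Subsingleton (HomotopyGroup.Pi 1 (Metric.sphere (0 : E) 1) x) :=
    MP_4d0e60_an.subsingleton_pi (Homeomorph.refl _) 1 (by omega) x
  have h2 : Subsingleton (FundamentalGroup (Metric.sphere (0 : E) 1) x) :=
    (HomotopyGroup.pi1EquivFundamentalGroup (X := Metric.sphere (0 : E) 1) (x := x)).symm.subsingleton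
  have h3 : Subsingleton (Path.Homotopic.Quotient x x) := h2
  exact Path.Homotopic.Quotient.eq.1 (Subsingleton.elim _ _)

theorem simplyConnected_far {E : Type} [NormedAddCommGroup E] [NormedSpace ℝ E]
    [FiniteDimensional ℝ E] (h : 2 < Module.finrank ℝ E) {R : ℝ} (hR : 0 < R) :
    SimplyConnectedSpace {x : E // R < ‖x‖} := by
  have := simplyConnected_sphere h
  have hne : ∀ x : {x : E // R < ‖x‖}, ‖x.1‖ ≠ 0 := fun x => (hR.trans x.2).ne'
  let f : C({x : E // R < ‖x‖}, Metric.sphere (0 : E) 1) :=
    ⟨fun x => ⟨‖x.1‖⁻¹ • x.1, by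
      rw [mem_sphere_zero_iff_norm, norm_smul, norm_inv, norm_norm, inv_mul_cancel₀ (hne x)]⟩,
      continuous_induced_rng.2 ((continuous_subtype_val.norm.inv₀ hne).smul continuous_subtype_val)⟩
  let g : C(Metric.sphere (0 : E) 1, {x : E // R < ‖x‖}) :=
    ⟨fun y => ⟨(R + 1) • y.1, by
      rw [norm_smul, norm_eq_of_mem_sphere, mul_one, Real.norm_of_nonneg (by linarith)]
      linarith⟩, continuous_induced_rng.2 (continuous_subtype_val.const_smul (R + 1))⟩
  have hfg : f.comp g = ContinuousMap.id _ := by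
    ext y
    have : (0 : ℝ) < R + 1 := by linarith
    simp only [f, g, ContinuousMap.comp_apply, ContinuousMap.coe_mk, ContinuousMap.id_apply,
      norm_smul, norm_eq_of_mem_sphere, mul_one, Real.norm_of_nonneg this.le, smul_smul,
      inv_mul_cancel₀ this.ne', one_smul]
  let H : I × {x : E // R < ‖x‖} → {x : E // R < ‖x‖} := fun p =>
    ⟨(((1 - (p.1 : ℝ)) * (R + 1) + p.1 * ‖p.2.1‖) * ‖p.2.1‖⁻¹) • p.2.1, by
      have h0 := p.1.2.1
      have h1 := p.1.2.2
      have h2 := p.2.2
      have h3 : R < (1 - (p.1 : ℝ)) * (R + 1) + p.1 * ‖p.2.1‖ := by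
        rcases eq_or_lt_of_le h0 with h4 | h4
        · rw [← h4]; linarith
        · nlinarith
      rw [norm_smul, norm_mul, norm_inv, norm_norm, mul_assoc, inv_mul_cancel₀ (hne p.2), mul_one,
        Real.norm_of_nonneg (by linarith)]
      exact h3⟩
  have hH : Continuous H := by
    refine Continuous.subtype_mk (Continuous.smul (Continuous.mul (by fun_prop) ?_) (by fun_prop)) _
    exact Continuous.inv₀ (by fun_prop) fun p => hne p.2
  have hgf : (g.comp f).Homotopic (ContinuousMap.id _) := by
    refine ⟨⟨⟨H, hH⟩, fun x => ?_, fun x => ?_⟩⟩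
    · apply Subtype.ext
      simp [H, f, g, smul_smul]
    · apply Subtype.ext
      simp [H, mul_inv_cancel₀ (hne x)]
  exact ContinuousMap.HomotopyEquiv.simplyConnectedSpace
    ⟨f, g, hgf, by rw [hfg]⟩

/-- local constancy at a point -/
def LC {N α : Type*} [TopologicalSpace N] (F : N → α) (x : N) : Prop := ∀ᶠ y in 𝓝 x, F y = F x

theorem LC.of_eventually {N α : Type*} [TopologicalSpace N] {F : N → α} {x : N} {c : α}
    (h : ∀ᶠ y in 𝓝 x, F y = c) : LC F x := by
  have := h.self_of_nhds
  filter_upwards [h] with y hy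
  rw [hy, this]

theorem LC.comp {M N α : Type*} [TopologicalSpace M] [TopologicalSpace N] {F : N → α} {ψ : M → N}
    {x : M} (h : LC F (ψ x)) (hψ : ContinuousAt ψ x) : LC (fun y => F (ψ y)) x :=
  hψ.eventually h

theorem exists_gauge {N G ι : Type*} [TopologicalSpace N] [SimplyConnectedSpace N]
    [LocallyPathConnectedSpace N] [Group G] (U : ι → Set N) (sg : ι → N → G)
    (hU : ∀ i, IsOpen (U i)) (hc : ∀ x, ∃ i, x ∈ U i)
    (h : ∀ i j, ∀ x ∈ U i, x ∈ U j → LC (fun y => sg i y * (sg j y)⁻¹) x) :
    ∃ γ : N → G, ∀ i, ∀ x ∈ U i, LC (fun y => γ y * (sg i y)⁻¹) x := by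
  let _ : TopologicalSpace G := ⊥
  have : DiscreteTopology G := ⟨rfl⟩
  choose ind hind using hc
  let Z : FiberBundleCore ι N G :=
    { baseSet := U
      isOpen_baseSet := hU
      indexAt := ind
      mem_baseSet_at := hind
      coordChange := fun i j x g => g * (sg i x * (sg j x)⁻¹)
      coordChange_self := fun i x _ v => by simp
      continuousOn_coordChange := fun i j p hp => by
        have h1 := h i j p.1 hp.1.1 hp.1.2
        have h2 : ∀ᶠ q in 𝓝 p, q.2 * (sg i q.1 * (sg j q.1)⁻¹) = p.2 * (sg i p.1 * (sg j p.1)⁻¹) := by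
          have h3 : ∀ᶠ q : N × G in 𝓝 p, q.2 = p.2 :=
            continuous_snd.continuousAt.eventually (p := fun g => g = p.2)
              ((isOpen_discrete {p.2}).mem_nhds rfl)
          filter_upwards [h3, continuous_fst.continuousAt.eventually h1] with q a b
          rw [a, b]
        exact (continuousAt_const.congr (EventuallyEq.symm h2)).continuousWithinAt
      coordChange_comp := fun i j k x _ v => by group }
  have cov : IsCoveringMap Z.proj := FiberBundle.isCoveringMap (F := G) (E := Z.Fiber)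
  obtain ⟨x₀⟩ : Nonempty N := inferInstance
  obtain ⟨s, ⟨-, hs⟩, -⟩ := cov.existsUnique_continuousMap_lifts (ContinuousMap.id N) x₀
    ⟨x₀, (1 : G)⟩ rfl
  have hs' : ∀ x, (s x).1 = x := fun x => congrFun hs x
  let s2 : N → G := fun y => (s y).2
  refine ⟨fun y => s2 y * sg (ind y) y, fun i x hx => ?_⟩
  have h1 : ContinuousAt (fun y => ((Z.localTriv i) (s y)).2) x := by
    refine continuous_snd.continuousAt.comp (ContinuousAt.comp ?_ s.continuous.continuousAt)
    refine (Z.localTriv i).continuousAt ?_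
    rw [FiberBundleCore.mem_localTriv_source]
    show (s x).1 ∈ U i
    rw [hs']
    exact hx
  have h2 : ∀ y, ((Z.localTriv i) (s y)).2 = s2 y * sg (ind y) y * (sg i y)⁻¹ := by
    intro y
    rw [FiberBundleCore.localTriv_apply]
    show s2 y * (sg (ind (s y).1) (s y).1 * (sg i (s y).1)⁻¹) = _
    rw [hs', mul_assoc]
  have h3 := h1.eventually (p := fun g => g = ((Z.localTriv i) (s x)).2)
    ((isOpen_discrete {((Z.localTriv i) (s x)).2}).mem_nhds rfl)
  simp only [h2] at h3
  exact h3

end Pool.Agent.P.MP_eba2d2_an
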