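import Pool.Agent.P.MP_eba2d2_an.Gauge

/-! Bookkeeping of branches of the logarithm. -/

set_option autoImplicit false

open Set Filter Topology Complex

namespace Pool.Agent.P.MP_eba2d2_an

/-- `2 π i` -/
noncomputable abbrev tpi : ℂ := 2 * Real.pi * I

theorem exp_int_tpi (n : ℤ) : exp (n * tpi) = 1 := exp_int_mul_two_pi_mul_I n

/-- the integer attached to a period -/
noncomputable def ex (w : ℂ) : ℤ := round (w.im / (2 * Real.pi))

theorem ex_int (n : ℤ) : ex (n * tpi) = n := by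
  have : ((n : ℂ) * tpi).im / (2 * Real.pi) = n := by
    simp [tpi]
  rw [ex, this, round_intCast]

theorem eq_ex {A : ℂ} (h : exp A = 1) : A = ex A * tpi := by
  obtain ⟨n, rfl⟩ := exp_eq_one_iff.1 h
  rw [ex_int]

theorem int_lc {N : Type*} [TopologicalSpace N] {x : N} {C : N → ℂ} (hC : ContinuousAt C x)
    (h : ∀ᶠ y in 𝓝 x, exp (C y) = 1) : ∃ n : ℤ, ∀ᶠ y in 𝓝 x, C y = n * tpi := by
  refine ⟨ex (C x), ?_⟩
  filter_upwards [h, Metric.tendsto_nhds.1 hC 1 one_pos] with y h1 h2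
  have e1 := eq_ex h1
  have e2 := eq_ex h.self_of_nhds
  rw [e1, e2, dist_eq_norm, ← sub_mul, norm_mul, ← Int.cast_sub, norm_intCast] at h2
  have h3 : 1 ≤ ‖tpi‖ := by
    have := Real.pi_gt_three
    simp [tpi, abs_of_pos Real.pi_pos]
    linarith
  have h4 : |((ex (C y) - ex (C x) : ℤ) : ℝ)| < 1 := by
    nlinarith [abs_nonneg ((ex (C y) - ex (C x) : ℤ) : ℝ)]
  have h5 : ex (C y) - ex (C x) = 0 := by
    rw [← Int.cast_abs] at h4
    exact Int.abs_lt_one_iff.1 (by exact_mod_cast h4)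
  rw [e1, sub_eq_zero.1 h5]

theorem zpow_ex {N G : Type*} [TopologicalSpace N] [Group G] {x : N} {c : G} {k : ℤ}
    (hc : c ^ k = 1) {A C : N → ℂ} {e : N → ℤ} (hC : ContinuousAt C x)
    (h : ∀ᶠ y in 𝓝 x, exp (A y) = 1 ∧ ∃ J : ℤ, A y = C y + (k * J + e y : ℤ) * tpi) :
    ∃ n : ℤ, ∀ᶠ y in 𝓝 x, c ^ ex (A y) = c ^ (n + e y) := by
  obtain ⟨n, hn⟩ := int_lc hC (by
    filter_upwards [h] with y hy
    obtain ⟨h1, J, h2⟩ := hy
    rwa [h2, exp_add, exp_int_tpi, mul_one] at h1)
  refine ⟨n, ?_⟩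
  filter_upwards [h, hn] with y hy h3
  obtain ⟨-, J, h2⟩ := hy
  have : A y = (k * J + (n + e y) : ℤ) * tpi := by
    rw [h2, h3]
    push_cast
    ring
  rw [this, ex_int, zpow_add, zpow_mul, hc, one_zpow, one_mul]

theorem lc_same {N G : Type*} [TopologicalSpace N] [Group G] {x : N} (c : G) (k : N → G)
    {L L' Λ : N → ℂ} (hL : ContinuousAt L x) (hL' : ContinuousAt L' x)
    (h : ∀ᶠ y in 𝓝 x, exp (L y - Λ y) = 1 ∧ exp (L' y - Λ y) = 1) :
    LC (fun y => c ^ ex (L y - Λ y) * k y * (c ^ ex (L' y - Λ y) * k y)⁻¹) x := by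
  obtain ⟨n, hn⟩ := int_lc (hL.sub hL') (by
    filter_upwards [h] with y hy
    have : L y - L' y = (L y - Λ y) - (L' y - Λ y) := by ring
    show exp (L y - L' y) = 1
    rw [this, exp_sub, hy.1, hy.2, div_one])
  refine LC.of_eventually (c := c ^ n) ?_
  filter_upwards [h, hn] with y hy h1
  have h2 : L y - L' y = n * tpi := h1
  have : L y - Λ y = (n + ex (L' y - Λ y) : ℤ) * tpi := by
    push_cast
    rw [add_mul, ← eq_ex hy.2, ← h2]
    ring
  rw [this, ex_int, zpow_add]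
  group

theorem LC.symm' {N G : Type*} [TopologicalSpace N] [Group G] {x : N} {s s' : N → G}
    (h : LC (fun y => s y * (s' y)⁻¹) x) : LC (fun y => s' y * (s y)⁻¹) x := by
  filter_upwards [h] with y hy
  have := congrArg (·⁻¹) hy
  simpa using this

theorem exists_local_log {N : Type*} [TopologicalSpace N] {x : N} {φ : N → ℂ}
    (h : ContinuousAt φ x) (h0 : φ x ≠ 0) :
    ∃ L : N → ℂ, ContinuousAt L x ∧ ∀ᶠ y in 𝓝 x, ∃ J : ℤ, L y = log (φ y) + J * tpi := by
  refine ⟨fun y => log (φ x) + log (φ y / φ x), continuousAt_const.add ?_, ?_⟩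
  · refine ContinuousAt.clog (h.div_const _) ?_
    simp [div_self h0]
  · filter_upwards [h.eventually_ne h0] with y hy
    refine exp_eq_exp_iff_exists_int.1 ?_
    rw [exp_add, exp_log h0, exp_log (div_ne_zero hy h0), exp_log hy]
    field_simp

/-- the side of the real axis -/
noncomputable def ep (f : ℂ) : ℤ := if f.im < 0 then 1 else 0

/-- the logarithm with argument in `[0, 2 π)` -/
noncomputable def ell (f : ℂ) : ℂ := log f + ep f * tpi

theorem exp_ell {f : ℂ} (hf : f ≠ 0) : exp (ell f) = f := by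
  rw [ell, exp_add, exp_log hf, exp_int_tpi, mul_one]

theorem ell_eq {f : ℂ} (hf : -f ∈ slitPlane) : ell f = log (-f) + Real.pi * I := by
  rw [ell, log, log, norm_neg, ep]
  rcases lt_trichotomy f.im 0 with h | h | h
  · rw [if_pos h, arg_neg_eq_arg_add_pi_of_im_neg h]
    push_cast
    ring
  · rw [if_neg h.not_lt]
    have h1 : f.re < 0 := by
      rcases hf with h1 | h1
      · simpa using h1
      · simp [h] at h1
    rw [arg_eq_pi_iff.2 ⟨h1, h⟩, arg_eq_zero_iff.2 ⟨by simpa using h1.le, by simpa using h⟩]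
    simp
  · rw [if_neg h.le.not_gt, arg_neg_eq_arg_sub_pi_of_im_pos h]
    push_cast
    ring

theorem continuousAt_ell {f : ℂ} (hf : -f ∈ slitPlane) : ContinuousAt ell f := by
  have h1 : ContinuousAt (fun g : ℂ => log (-g) + Real.pi * I) f :=
    (ContinuousAt.clog continuous_neg.continuousAt hf).add continuousAt_const
  refine h1.congr ?_
  filter_upwards [continuous_neg.continuousAt.eventually (isOpen_slitPlane.mem_nhds hf)] with g hg
  exact (ell_eq hg).symm

end Pool.Agent.P.MP_eba2d2_an
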