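import Pool.Agent.P.MP_eba2d2_an.Defs

/-! Holomorphic maps from and to the surface; Stein properties; transfer of the approximation. -/

set_option autoImplicit false

open Set Filter Topology
open scoped Manifold ContDiff

namespace Pool.Agent.P.MP_eba2d2_an

theorem chartAt_eq (p : V) : chartAt E2 p = (dataAt p).chart := rfl

theorem mdiff_val : MDifferentiable 𝓘(ℂ, E2) 𝓘(ℂ, ℂ × ℂ × ℂ) (fun p : V => p.1) := by
  intro p
  rw [mdifferentiableAt_iff]
  refine ⟨V.continuous_val.continuousAt, ?_⟩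
  have hT : (dataAt p).chart p ∈ (dataAt p).T := (dataAt p).mapφ p (mem_dataAt p)
  have h1 : DifferentiableAt ℂ (dataAt p).ψ ((dataAt p).chart p) :=
    ((dataAt p).hψ.differentiableOn (by simp)).differentiableAt ((dataAt p).hT.mem_nhds hT)
  simp only [writtenInExtChartAt, extChartAt, mfld_simps, chartAt_eq]
  refine (h1.congr_of_eventuallyEq ?_).differentiableWithinAt
  filter_upwards [(dataAt p).hT.mem_nhds hT] with q hq
  exact (dataAt p).chart_symm_val hq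

theorem mdiff_of_val {F : ℂ × ℂ × ℂ → ℂ} (hF : Differentiable ℂ F) :
    MDifferentiable 𝓘(ℂ, E2) 𝓘(ℂ, ℂ) (fun p : V => F p.1) :=
  hF.mdifferentiable.comp mdiff_val

theorem mdiffAt_to {E : Type*} [NormedAddCommGroup E] [NormedSpace ℂ E] {g : E → V} {a : E}
    (hg : DifferentiableAt ℂ (fun b => (g b).1) a) : MDifferentiableAt 𝓘(ℂ, E) 𝓘(ℂ, E2) g a := by
  rw [mdifferentiableAt_iff]
  have hc : ContinuousAt g a := IsInducing.subtypeVal.continuousAt_iff.2 hg.continuousAt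
  refine ⟨hc, ?_⟩
  have h1 : DifferentiableAt ℂ (dataAt (g a)).φ (g a).1 :=
    ((dataAt (g a)).hφ.differentiableOn (by simp)).differentiableAt
      ((dataAt (g a)).hS.mem_nhds (mem_dataAt _))
  simp only [writtenInExtChartAt, extChartAt, mfld_simps, chartAt_eq]
  exact (h1.comp a hg).differentiableWithinAt

theorem hull_compact (K : Set V) (hK : IsCompact K) :
    IsCompact {x : V | ∀ f : V → ℂ, MDifferentiable 𝓘(ℂ, E2) 𝓘(ℂ, ℂ) f →
      ∀ c : ℝ, (∀ y ∈ K, ‖f y‖ ≤ c) → ‖f x‖ ≤ c} := by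
  obtain ⟨c, hc⟩ := (hK.image V.continuous_val).isBounded.exists_norm_le
  have hc' : ∀ y ∈ K, ‖y.1‖ ≤ c := fun y hy => hc _ (mem_image_of_mem _ hy)
  refine (V.isCompact_box c).of_isClosed_subset ?_ fun x hx => ⟨?_, ?_, ?_⟩
  · simp only [ofPred_forall]
    exact isClosed_iInter fun f => isClosed_iInter fun hf => isClosed_iInter fun c =>
      isClosed_iInter fun _ => isClosed_le hf.continuous.norm continuous_const
  · exact hx _ (mdiff_of_val (F := fun p => p.1) (by fun_prop)) c fun y hy =>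
      (norm_fst_le y.1).trans (hc' y hy)
  · exact hx _ (mdiff_of_val (F := fun p => p.2.1) (by fun_prop)) c fun y hy =>
      ((norm_fst_le y.1.2).trans (norm_snd_le y.1)).trans (hc' y hy)
  · exact hx _ (mdiff_of_val (F := fun p => p.2.2) (by fun_prop)) c fun y hy =>
      ((norm_snd_le y.1.2).trans (norm_snd_le y.1)).trans (hc' y hy)

theorem separates (p q : V) (h : p ≠ q) :
    ∃ f : V → ℂ, MDifferentiable 𝓘(ℂ, E2) 𝓘(ℂ, ℂ) f ∧ f p ≠ f q := by
  by_contra hc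
  push Not at hc
  exact h (V.ext' (hc _ (mdiff_of_val (F := fun p => p.1) (by fun_prop)))
    (hc _ (mdiff_of_val (F := fun p => p.2.1) (by fun_prop)))
    (hc _ (mdiff_of_val (F := fun p => p.2.2) (by fun_prop))))

/-- the approximation property in coordinates -/
def Cap : Prop :=
  ∀ {n : ℕ} (K U : Set (EuclideanSpace ℂ (Fin n))), IsCompact K → Convex ℝ K → IsOpen U → K ⊆ U →
    ∀ x y z : EuclideanSpace ℂ (Fin n) → ℂ, DifferentiableOn ℂ x U → DifferentiableOn ℂ y U →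
      DifferentiableOn ℂ z U →
      (∀ p ∈ U, 2 * x p + x p ^ 2 * z p - 3 * y p - 3 * y p ^ 2 * z p - y p ^ 3 * z p ^ 2 = 1) →
      ∀ e : ℝ, 0 < e → ∃ x1 y1 z1 : EuclideanSpace ℂ (Fin n) → ℂ,
        Differentiable ℂ x1 ∧ Differentiable ℂ y1 ∧ Differentiable ℂ z1 ∧
        (∀ p, 2 * x1 p + x1 p ^ 2 * z1 p - 3 * y1 p - 3 * y1 p ^ 2 * z1 p
          - y1 p ^ 3 * z1 p ^ 2 = 1) ∧
        ∀ p ∈ K, ‖x1 p - x p‖ < e ∧ ‖y1 p - y p‖ < e ∧ ‖z1 p - z p‖ < e

theorem oka_of_cap (hcap : Cap) (n : ℕ) (K : Set (EuclideanSpace ℂ (Fin n))) (hK : IsCompact K)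
    (hc : Convex ℝ K) (U : Set (EuclideanSpace ℂ (Fin n))) (hU : IsOpen U) (hKU : K ⊆ U)
    (f : EuclideanSpace ℂ (Fin n) → V)
    (hf : MDifferentiableOn 𝓘(ℂ, EuclideanSpace ℂ (Fin n)) 𝓘(ℂ, E2) f U)
    (Ω : Set (EuclideanSpace ℂ (Fin n) × V)) (hΩ : IsOpen Ω) (hfΩ : ∀ z ∈ K, (z, f z) ∈ Ω) :
    ∃ g : EuclideanSpace ℂ (Fin n) → V,
      MDifferentiable 𝓘(ℂ, EuclideanSpace ℂ (Fin n)) 𝓘(ℂ, E2) g ∧ ∀ z ∈ K, (z, g z) ∈ Ω := by
  have hf' : DifferentiableOn ℂ (fun a => (f a).1) U :=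
    mdifferentiableOn_iff_differentiableOn.1 (mdiff_val.comp_mdifferentiableOn hf)
  obtain ⟨Ω', hΩ', rfl⟩ :=
    (IsInducing.prodMap (IsInducing.id (X := EuclideanSpace ℂ (Fin n)))
      V.isClosedEmbedding_val.isInducing).isOpen_iff.1 hΩ
  have hG : IsCompact ((fun a => (a, (f a).1)) '' K) :=
    hK.image_of_continuousOn (continuousOn_id.prodMk (hf'.continuousOn.mono hKU))
  obtain ⟨e, he, hsub⟩ := hG.exists_thickening_subset_open hΩ' (by
    rintro _ ⟨a, ha, rfl⟩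
    exact hfΩ a ha)
  obtain ⟨x1, y1, z1, hx, hy, hz, h, hcl⟩ := hcap K U hK hc hU hKU (fun a => (f a).x)
    (fun a => (f a).y) (fun a => (f a).z) hf'.fst hf'.snd.fst hf'.snd.snd (fun p _ => (f p).eq) e he
  refine ⟨fun a => ⟨(x1 a, y1 a, z1 a), h a⟩, fun a => mdiffAt_to ?_, fun a ha => hsub ?_⟩
  · exact (hx a).prodMk ((hy a).prodMk (hz a))
  · rw [Metric.mem_thickening_iff]
    refine ⟨_, mem_image_of_mem _ ha, ?_⟩
    obtain ⟨h1, h2, h3⟩ := hcl a ha
    rw [← dist_eq_norm] at h1 h2 h3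
    simp only [Prod.dist_eq, Prod.map, id, dist_self, max_lt_iff]
    exact ⟨he, h1, h2, h3⟩

end Pool.Agent.P.MP_eba2d2_an
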