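import Pool.Agent.P.MP_eba2d2_an.NotHomeo

/-! The surface is not homeomorphic to any complex affine space. -/

set_option autoImplicit false

open Set Filter Topology Complex

namespace Pool.Agent.P.MP_eba2d2_an

theorem eq_one_of_homeo' {E : Type} [NormedAddCommGroup E] [NormedSpace ℝ E]
    [FiniteDimensional ℝ E] (hE : 2 < Module.finrank ℝ E) (φ : V ≃ₜ E) {G : Type} [Group G] {a b : G} (ha : a ^ (2 : ℤ) = 1)
    (hb : b ^ (3 : ℤ) = 1) (hc : (a * b⁻¹) ^ (5 : ℤ) = 1) : a = 1 := by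
  have : ProperSpace E := FiniteDimensional.proper_real E
  obtain ⟨R, hR0, hR⟩ := ((V.isCompact_box 200).image φ.continuous).isBounded.exists_pos_norm_le
  have : SimplyConnectedSpace {x : E // R < ‖x‖} := simplyConnected_far hE hR0
  have : LocallyPathConnectedSpace {x : E // R < ‖x‖} :=
    (isOpen_lt continuous_const continuous_norm).locallyPathConnectedSpace
  let ψ : {x : E // R < ‖x‖} → V := fun x => φ.symm x.1
  have hψ : Continuous ψ := φ.symm.continuous.comp continuous_subtype_val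
  obtain ⟨γ, hγ⟩ := exists_gauge
    (ι := {i : Reg × Set V × (V → ℂ) // IsOpen i.2.1 ∧ ∀ q ∈ i.2.1, IsLog i.1 i.2.2 q})
    (fun i => ψ ⁻¹' i.1.2.1) (fun i x => sec a b i.1.1 i.1.2.2 (ψ x))
    (fun i => i.2.1.preimage hψ) (fun x => by
      have h1 : ¬ ∀ r, ψ x ∉ reg r := fun h => by
        have := hR _ (mem_image_of_mem φ (cover _ h))
        simp only [ψ, Homeomorph.apply_symm_apply] at this
        exact x.2.not_ge this
      push Not at h1
      obtain ⟨r, hr⟩ := h1
      obtain ⟨U, L, h2, h3, h4⟩ := exists_isLog hr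
      exact ⟨⟨(r, U, L), h2, h4⟩, h3⟩)
    (fun i j x hi hj => (lc_sec ha hb hc (i.2.2 _ hi) (j.2.2 _ hj)).comp hψ.continuousAt)
  obtain ⟨B, hB0, hB⟩ := (((isCompact_closedBall (0 : E) R).image φ.symm.continuous).image
    V.continuous_z).isBounded.exists_pos_norm_le
  let c : ℝ → ℂ := fun θ => (B + 4 : ℝ) + θ * I
  have hcc : Continuous c := by fun_prop
  have hn : ∀ θ, B + 4 < ‖exp (c θ)‖ := fun θ => by
    have := Real.add_one_le_exp (B + 4)
    simp only [norm_exp, c, add_re, ofReal_re, mul_re, I_re, ofReal_im, I_im]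
    simp only [mul_zero, mul_one, sub_zero, add_zero]
    linarith
  have hfar : ∀ θ, R < ‖φ (fib (c θ))‖ := fun θ => by
    by_contra h
    have h1 := hB _ (mem_image_of_mem V.z (mem_image_of_mem φ.symm
      (mem_closedBall_zero_iff.2 (not_lt.1 h))))
    rw [Homeomorph.symm_apply_apply, fib_z, norm_neg, norm_pow] at h1
    have h2 := hn θ
    have h3 : ‖exp (c θ)‖ ^ 1 ≤ ‖exp (c θ)‖ ^ 3 := pow_le_pow_right₀ (by linarith) (by norm_num)
    linarith
  let l : ℝ → {x : E // R < ‖x‖} := fun θ => ⟨φ (fib (c θ)), hfar θ⟩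
  have hl : Continuous l :=
    continuous_induced_rng.2 (φ.continuous.comp (continuous_fib.comp hcc))
  have hψl : ∀ θ, ψ (l θ) = fib (c θ) := fun θ => φ.symm_apply_apply _
  have hP : ∀ θ, fib (c θ) ∈ reg .P := fun θ => by
    refine ⟨⟨neg_ne_zero.2 (pow_ne_zero _ (exp_ne_zero _)), Or.inr ?_⟩, ?_, ?_⟩
    · show 4 < ‖(fib (c θ)).v‖
      rw [fib_v]
      linarith [hn θ]
    · show (fib (c θ)).v ≠ 0
      rw [fib_v]
      exact exp_ne_zero _
    · simp [fib_u]
  have hF : IsLocallyConstant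
      (fun θ => γ (l θ) * (a ^ ex (c θ - log (exp (c θ))) * 1)⁻¹) := by
    rw [IsLocallyConstant.iff_eventually_eq]
    intro θ
    obtain ⟨U, L, h2, h3, h4⟩ := exists_isLog (hP θ)
    have h5 := (hγ ⟨(.P, U, L), h2, h4⟩ (l θ) (by rwa [mem_preimage, hψl])).comp hl.continuousAt
    have hfc : ContinuousAt (fun θ => fib (c θ)) θ := (continuous_fib.comp hcc).continuousAt
    have h6 := lc_same (x := θ) a (fun _ => 1) (L := fun θ => L (fib (c θ))) (L' := c)
      (Λ := fun θ => log (exp (c θ))) (ContinuousAt.comp (f := fun θ => fib (c θ)) (h4 _ h3).2.1 hfc) hcc.continuousAt (by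
        filter_upwards [hfc.eventually (h4 _ h3).2.2] with θ' h
        have h' : exp (L (fib (c θ'))) = exp (c θ') := h.trans (fib_v _)
        rw [exp_sub, exp_sub, h', exp_log (exp_ne_zero _), div_self (exp_ne_zero _)]
        exact ⟨rfl, rfl⟩)
    have h7 : ∀ θ', sec a b .P L (ψ (l θ')) = a ^ ex (L (fib (c θ')) - log (exp (c θ'))) * 1 := by
      intro θ'
      simp only [sec, mono, tw, ref, hψl, fib_u, fib_v, if_true]
    filter_upwards [h5, h6] with θ' k1 k2
    simp only [h7] at k1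
    have e : ∀ θ', γ (l θ') * (a ^ ex (c θ' - log (exp (c θ'))) * 1)⁻¹ =
        (γ (l θ') * (a ^ ex (L (fib (c θ')) - log (exp (c θ'))) * 1)⁻¹) *
        (a ^ ex (L (fib (c θ')) - log (exp (c θ'))) * 1 *
          (a ^ ex (c θ' - log (exp (c θ'))) * 1)⁻¹) := fun θ' => by group
    rw [e θ', e θ, k1, k2]
  have h1 := hF.apply_eq_of_preconnectedSpace 0 (2 * Real.pi)
  have h2 : c (2 * Real.pi) = c 0 + tpi := by
    simp [c]
  have h3 : exp (c (2 * Real.pi)) = exp (c 0) := by
    rw [h2, exp_add, exp_two_pi_mul_I, mul_one]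
  have h4 : l (2 * Real.pi) = l 0 := by
    apply Subtype.ext
    show φ (fib _) = φ (fib _)
    simp only [fib, h3]
  have h5 : log (exp (c 0)) = c 0 := log_exp (by simp [c, Real.pi_pos]) (by simp [c, Real.pi_pos.le])
  have h6 : ex 0 = 0 := by simpa using ex_int 0
  have h7 : ex tpi = 1 := by simpa using ex_int 1
  simp only [h4, h3, h5] at h1
  rw [h2, sub_self, add_sub_cancel_left, h6, h7] at h1
  simpa using h1

theorem not_homeo_big {E : Type} [NormedAddCommGroup E] [NormedSpace ℝ E]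
    [FiniteDimensional ℝ E] (hE : 2 < Module.finrank ℝ E) (φ : V ≃ₜ E) : False := by
  have h := eq_one_of_homeo' hE φ (G := Equiv.Perm (Fin 5))
    (a := Equiv.swap 0 1 * Equiv.swap 2 3) (b := Equiv.swap 0 2 * Equiv.swap 2 4)
    (by rw [zpow_ofNat]; decide) (by rw [zpow_ofNat]; decide) (by rw [zpow_ofNat]; decide)
  revert h
  decide

/-- inversion in the unit sphere -/
noncomputable def ivs (x : E2) : E2 := (‖x‖ ^ 2)⁻¹ • x

theorem norm_ivs (x : E2) : ‖ivs x‖ = ‖x‖⁻¹ := by
  rcases eq_or_ne x 0 with rfl | h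
  · simp [ivs]
  have : ‖x‖ ≠ 0 := norm_ne_zero_iff.2 h
  rw [ivs, norm_smul, norm_inv, norm_pow, norm_norm]
  field_simp

theorem ivs_ivs (x : E2) : ivs (ivs x) = x := by
  rcases eq_or_ne x 0 with rfl | h
  · simp [ivs]
  have : ‖x‖ ≠ 0 := norm_ne_zero_iff.2 h
  rw [ivs, norm_ivs, ivs, smul_smul, inv_pow, inv_inv, mul_inv_cancel₀ (pow_ne_zero _ this),
    one_smul]

theorem contAt_ivs {x : E2} (h : x ≠ 0) : ContinuousAt ivs x :=
  ((continuous_norm.pow 2).continuousAt.inv₀ (pow_ne_zero _ (norm_ne_zero_iff.2 h))).smul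
    continuousAt_id

theorem not_homeo_line (φ : V ≃ₜ ℂ) : False := by
  let p : V := V.base
  let e := chartAt E2 p
  have hp : p ∈ e.source := mem_chart_source E2 p
  obtain ⟨δ, hδ, hT⟩ := Metric.isOpen_iff.1 e.open_target _ (e.map_source hp)
  have hm : ∀ x : E2, δ⁻¹ < ‖x‖ → e p + ivs x ∈ e.target := fun x hx => hT (by
    rw [Metric.mem_ball, dist_eq_norm, add_sub_cancel_left, norm_ivs]
    exact inv_lt_of_inv_lt₀ hδ hx)
  have h0 : ∀ x : E2, δ⁻¹ < ‖x‖ → x ≠ 0 := fun x hx =>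
    norm_pos_iff.1 ((inv_pos.2 hδ).trans hx)
  have hsc : IsSimplyConnected {x : E2 | δ⁻¹ < ‖x‖} := simplyConnected_far (by
    rw [← Module.finrank_mul_finrank ℝ ℂ E2]
    simp) (inv_pos.2 hδ)
  obtain ⟨L, hL, hLe⟩ := exists_continuousOn_eqOn_exp_comp hsc
    (isOpen_lt continuous_const continuous_norm) (g := fun x => φ (e.symm (e p + ivs x)) - φ p)
    (fun x hx => ((φ.continuous.continuousAt.comp (ContinuousAt.comp (f := fun x => e p + ivs x)
      (e.continuousAt_symm (hm x hx)) (continuousAt_const.add (contAt_ivs (h0 x hx))))).sub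
      continuousAt_const).continuousWithinAt) (by
      rintro ⟨x, hx, h⟩
      have h1 := congrArg e (φ.injective (sub_eq_zero.1 h))
      rw [e.right_inv (hm x hx), add_eq_left] at h1
      exact h0 x hx (by rw [← ivs_ivs x, h1]; simp [ivs]))
  have hO : IsOpen (φ.symm ⁻¹' (e.source ∩ e ⁻¹' Metric.ball (e p) δ)) :=
    (e.isOpen_inter_preimage Metric.isOpen_ball).preimage φ.symm.continuous
  obtain ⟨r, hr, hB⟩ := Metric.isOpen_iff.1 hO (φ p) (by simpa using ⟨hp, hδ⟩)
  let c : ℝ → ℂ := fun θ => (Real.log (r / 2) : ℝ) + θ * I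
  have hc : Continuous c := by fun_prop
  have hq : ∀ θ, φ.symm (φ p + exp (c θ)) ∈ e.source ∩ e ⁻¹' Metric.ball (e p) δ := fun θ =>
    hB (by
      rw [Metric.mem_ball, dist_eq_norm, add_sub_cancel_left, norm_exp]
      simp only [c, add_re, ofReal_re, mul_re, I_re, ofReal_im, I_im, mul_zero, mul_one, sub_zero,
        add_zero]
      rw [Real.exp_log (by positivity)]
      linarith)
  have hne : ∀ θ, e (φ.symm (φ p + exp (c θ))) - e p ≠ 0 := fun θ h => by
    have h1 := congrArg φ (e.injOn (hq θ).1 hp (sub_eq_zero.1 h))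
    rw [φ.apply_symm_apply, add_eq_left] at h1
    exact exp_ne_zero _ h1
  let l : ℝ → E2 := fun θ => ivs (e (φ.symm (φ p + exp (c θ))) - e p)
  have hl : Continuous l := continuous_iff_continuousAt.2 fun θ =>
    ContinuousAt.comp (f := fun θ => e (φ.symm (φ p + exp (c θ))) - e p) (contAt_ivs (hne θ))
      ((ContinuousAt.comp (f := fun θ => φ.symm (φ p + exp (c θ))) (e.continuousAt (hq θ).1)
        (by fun_prop)).sub continuousAt_const)
  have hlm : ∀ θ, δ⁻¹ < ‖l θ‖ := fun θ => by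
    rw [norm_ivs]
    exact inv_strictAnti₀ (norm_pos_iff.2 (hne θ)) (by simpa [dist_eq_norm] using (hq θ).2)
  have hex : ∀ θ, exp (L (l θ) - c θ) = 1 := fun θ => by
    have h1 : exp (L (l θ)) = φ (e.symm (e p + ivs (l θ))) - φ p := hLe (hlm θ)
    rw [exp_sub, h1, ivs_ivs, add_sub_cancel, e.left_inv (hq θ).1, φ.apply_symm_apply,
      add_sub_cancel_left, div_self (exp_ne_zero _)]
  have hC : Continuous fun θ => L (l θ) - c θ := (hL.comp_continuous hl hlm).sub hc
  have hF : IsLocallyConstant fun θ => ex (L (l θ) - c θ) := by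
    rw [IsLocallyConstant.iff_eventually_eq]
    intro θ
    obtain ⟨n, hn⟩ := int_lc (x := θ) hC.continuousAt (Eventually.of_forall hex)
    filter_upwards [hn] with θ' h
    rw [h, hn.self_of_nhds]
  have h1 := hF.apply_eq_of_preconnectedSpace 0 (2 * Real.pi)
  have h2 : c (2 * Real.pi) = c 0 + tpi := by simp [c]
  have h3 : l (2 * Real.pi) = l 0 := by
    simp only [l, h2, exp_add, exp_two_pi_mul_I, mul_one]
  have h4 := eq_ex (hex 0)
  rw [h1, ← eq_ex (hex _), h3, h2] at h4
  exact two_pi_I_ne_zero (by linear_combination h4)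

theorem not_homeo_all (n : ℕ) (φ : V ≃ₜ EuclideanSpace ℂ (Fin n)) : False := by
  rcases n with _ | _ | n
  · have h : (⟨(1 / 2, 0, 0), by norm_num⟩ : V) = V.base := φ.injective (Subsingleton.elim _ _)
    have h1 : (0 : ℂ) = -1 := congrArg V.y h
    norm_num at h1
  · exact not_homeo_line (φ.trans ((EuclideanSpace.equiv (Fin 1) ℂ).toHomeomorph.trans
      (Homeomorph.funUnique (Fin 1) ℂ)))
  · refine not_homeo_big ?_ φ
    rw [← Module.finrank_mul_finrank ℝ ℂ (EuclideanSpace ℂ (Fin (n + 1 + 1)))]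
    simp

end Pool.Agent.P.MP_eba2d2_an
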