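import Pool.Agent.P.MP_eba2d2_an.OkaStep

set_option autoImplicit false

open Set Filter Topology Metric Complex

namespace Pool.Agent.P.MP_eba2d2_an

variable {E : Type} [NormedAddCommGroup E] [NormedSpace ℂ E] [FiniteDimensional ℂ E]

omit [FiniteDimensional ℂ E] in
theorem isOpen_vmap (f : E → ℂ × ℂ × ℂ) :
    IsOpen {y | ContDiffAt ℂ 1 f y ∧ ∀ᶠ w in 𝓝 y, OnV (f w)} :=
  (isOpen_hol f).inter isOpen_setOfPred_eventually_nhds

/-- Approximate extension across one half space. -/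
theorem half_step {L : Set E} (hL : IsCompact L) (hc : Convex ℝ L) (lam : E →L[ℂ] ℂ) (c : ℝ)
    {f : E → ℂ × ℂ × ℂ} (hf : VMap (L ∩ {y | (lam y).re ≤ c}) f) {ε : ℝ} (hε : 0 < ε) :
    ∃ f' : E → ℂ × ℂ × ℂ, VMap L f' ∧ ∀ y ∈ L ∩ {y | (lam y).re ≤ c}, ‖f' y - f y‖ < ε := by
  have hre : Continuous fun w => (lam w).re := by fun_prop
  obtain ⟨δ, hδ, hδO⟩ := exists_slab hL (isOpen_vmap f) hre (c := c) fun y hy h => hf y ⟨hy, h⟩
  by_cases hex : ∃ y₀ ∈ L, (lam y₀).re = c + δ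
  swap
  · by_cases hall : ∀ y ∈ L, (lam y).re ≤ c + δ
    · exact ⟨f, fun y hy => hδO y hy (hall y hy), fun y _ => by simpa using hε⟩
    · push Not at hall
      obtain ⟨y₁, hy₁, h₁⟩ := hall
      refine ⟨fun _ => (1 / 2, 0, 0), fun y _ => ⟨contDiffAt_const,
        Eventually.of_forall fun _ => by simp [OnV]⟩, fun y hy => (hex ?_).elim⟩
      have h2 : (lam y).re ≤ c := hy.2
      exact hc.isPreconnected.intermediate_value hy.1 hy₁ hre.continuousOn
        (show c + δ ∈ Icc (lam y).re (lam y₁).re from ⟨by linarith, h₁.le⟩)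
  obtain ⟨y₀, hy₀, hy₀'⟩ := hex
  set K := L ∩ {y | (lam y).re ≤ c} with hK
  have hKc : IsCompact K := hL.inter_right (isClosed_re_le lam c)
  have hKv : Convex ℝ K := hc.inter (convex_re_le lam c)
  obtain ⟨ε₂, hε₂, hclose⟩ := exists_close (hKc.image_of_continuousOn (f := f)
    fun y hy => (hf y hy).1.continuousAt.continuousWithinAt) (by
      rintro _ ⟨y, hy, rfl⟩
      exact (hf y hy).2.self_of_nhds) hε
  obtain ⟨U, V, ℓ, hp⟩ := exists_pair hL hc (c := c) (c' := c + δ) (by linarith) (f := f)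
    (fun y hy => hδO y hy.1 hy.2) hy₀ hy₀' hε₂
  have hU : ∀ y ∈ L, ContDiffAt ℂ 1 U y := fun y hy => (hp y hy).1
  have hV : ∀ y ∈ L, ContDiffAt ℂ 1 V y := fun y hy => (hp y hy).2.1
  obtain ⟨hN, H, hH⟩ := exists_H hL hc hre hy₀ hy₀' hU hV (fun y hy => (hp y hy).2.2.1)
    (fun y hy => (hp y hy).2.2.2.1) (fun y hy => (hp y hy).2.2.2.2.1)
  set Z : E → ℂ := fun w => U w ^ 2 - V w ^ 3 with hZ
  have hZh : ∀ y ∈ L, ContDiffAt ℂ 1 Z y := fun y hy => ((hU y hy).pow 2).sub ((hV y hy).pow 3)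
  have hcl : ∀ y ∈ K, ∀ θ : ℂ, ‖θ‖ ≤ ε₂ → _ := fun y hy θ hθ =>
    hclose (f y) ⟨y, hy, rfl⟩ (U y) (V y) θ ((hp y hy.1).2.2.2.2.2 hy.2).1
      ((hp y hy.1).2.2.2.2.2 hy.2).2 hθ
  set N : E → ℂ := fun w => nn (f w).1 (U w) (V w) with hNdef
  set Λ : E → ℂ := fun w => nm (f w).2.1 (U w) (V w) / N w with hΛ
  have hN0 : ∀ y ∈ K, N y ≠ 0 := fun y hy => (hcl y hy 0 (by simpa using hε₂.le)).1
  have hΛ0 : ∀ y ∈ K, 0 < (Λ y).re := fun y hy => (hcl y hy 0 (by simpa using hε₂.le)).2.1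
  have hΛne : ∀ y ∈ K, Λ y ≠ 0 := fun y hy => slitPlane_ne_zero (Or.inl (hΛ0 y hy))
  have hNh : ∀ y ∈ K, ContDiffAt ℂ 1 N y := fun y hy => by
    have h1 := (hf y hy).1
    have h2 := hU y hy.1
    have h3 := hV y hy.1
    simp only [hNdef, nn]
    fun_prop
  have hMh : ∀ y ∈ K, ContDiffAt ℂ 1 (fun w => nm (f w).2.1 (U w) (V w)) y := fun y hy => by
    have h1 := (hf y hy).1
    have h2 := hU y hy.1
    have h3 := hV y hy.1
    simp only [nm]
    fun_prop
  have hΛh : ∀ y ∈ K, ContDiffAt ℂ 1 Λ y := fun y hy => (hMh y hy).div (hNh y hy) (hN0 y hy)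
  have hlog : ∀ y ∈ K, ContDiffAt ℂ 1 (fun w => log (Λ w)) y := fun y hy =>
    (contDiffAt_log (Or.inl (hΛ0 y hy))).comp y (hΛh y hy)
  have hdiv : ∀ y ∈ K, ZD Z (fun w => H w - log (Λ w)) y := by
    intro y hy
    obtain ⟨h1, h2, h3⟩ := hH y hy.1
    by_cases hz : Z y = 0
    swap
    · exact ZD.of_ne (hZh y hy.1) hz (h1.sub (hlog y hy))
    have hyc : (lam y).re ≤ c := hy.2
    obtain ⟨hV0, hW⟩ := not_Ray' ((hp y hy.1).2.2.1 (by linarith)) hz
    have hU0 : U y ≠ 0 := fun h0 => slitPlane_ne_zero hW (by rw [h0, zero_div])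
    have hval : H y - log (Λ y) = 0 := by
      have e : U y / V y = (Λ y)⁻¹ := by
        have hz' : U y ^ 2 - V y ^ 3 = 0 := hz
        simp only [hΛ, hNdef, nn, nm, hz', mul_zero, sub_zero, inv_div]
      rw [h3 (by linarith) hz, e, log_inv _ (slitPlane_arg_ne_pi (Or.inl (hΛ0 y hy)))]
      ring
    have h4 : ZD Z (fun w => Λ w * U w - V w) y := by
      refine (ZD.mul_self (ψ := fun w => Λ w * (f w).1 - (f w).2.1)
        (((hΛh y hy).mul (hf y hy).1.fst).sub (hf y hy).1.snd.fst)).congr ?_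
      filter_upwards [(hNh y hy).continuousAt.eventually_ne (hN0 y hy)] with w hw
      have e : Λ w * N w = nm (f w).2.1 (U w) (V w) := div_mul_cancel₀ _ hw
      simp only [hNdef, nn, nm] at e
      simp only [hZ]
      linear_combination e
    refine ZD.cancel (ψ := fun w => Λ w * U w * E1 (H w - log (Λ w))) ((h2.sub h4).congr ?_)
      (((hΛh y hy).mul (hU y hy.1)).mul (hol_E1 (h1.sub (hlog y hy)))) ?_
    · filter_upwards [(hΛh y hy).continuousAt.eventually_ne (hΛne y hy)] with w hw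
      have e := mul_E1 (H w - log (Λ w))
      rw [exp_sub, exp_log hw] at e
      have e2 : Λ w * (cexp (H w) / Λ w) = cexp (H w) := mul_div_cancel₀ _ hw
      linear_combination Λ w * U w * e + U w * e2
    · rw [hval, E1_zero, mul_one]
      exact mul_ne_zero (hΛne y hy) hU0
  obtain ⟨η, hη⟩ := exists_quot Z fun w => H w - log (Λ w)
  obtain ⟨g, hg, hg'⟩ := appr_of_convex hKc hKv (φ := η)
    (fun y hy => (hη y (hN y hy.1) (hdiv y hy)).1) ε₂ hε₂
  have hgh : ∀ y, ContDiffAt ℂ 1 g y := contDiffAt_of_differentiable hg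
  obtain ⟨f', hf', hform⟩ := exists_lift (L := L) (h := fun w => H w - Z w * g w) hU hV
    (fun y hy => (hH y hy).1.sub ((hZh y hy).mul (hgh y))) hN (fun y hy => by
      have h1 : ZD Z (fun w => -(Z w * g w)) y := (ZD.mul_self (hgh y)).neg
      refine (((h1.exp_sub_one ((hZh y hy).mul (hgh y)).neg).mul_left
        (ψ := fun w => cexp (H w) * U w) ((hH y hy).1.cexp.mul (hU y hy))).add
        (hH y hy).2.1).congr' fun w => ?_
      rw [sub_eq_add_neg (H w), exp_add]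
      ring) (fun y hy hz => by
      rcases le_total (lam y).re (c + δ) with h | h
      · exact (not_Ray' ((hp y hy).2.2.1 h) hz).1
      · rw [((hp y hy).2.2.2.2.1 h).2.self_of_nhds]
        exact exp_ne_zero _)
  refine ⟨f', hf', fun y hy => ?_⟩
  obtain ⟨hηh, hηe⟩ := hη y (hN y hy.1) (hdiv y hy)
  have hsc : ∀ᶠ w in 𝓝 y, cexp (H w - Z w * g w) = sc (f w).1 (f w).2.1 (U w) (V w) (η w - g w) := by
    filter_upwards [hηe, (hΛh y hy).continuousAt.eventually_ne (hΛne y hy)] with w h1 h2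
    rw [show H w - Z w * g w = log (Λ w) + Z w * (η w - g w) by linear_combination h1, exp_add,
      exp_log h2]
    rfl
  have cx := (hf y hy).1.fst.continuousAt
  have cy := (hf y hy).1.snd.fst.continuousAt
  have cU := (hU y hy.1).continuousAt
  have cV := (hV y hy.1).continuousAt
  have cθ := (hηh.sub (hgh y)).continuousAt
  have cs := cont_sc cx cy cU cV cθ (hN0 y hy)
  have cf := (hf' y hy.1).1.continuousAt
  have hs0 : sc (f y).1 (f y).2.1 (U y) (V y) (η y - g y) ^ 6 ≠ 0 := by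
    rw [← hsc.self_of_nhds]
    exact pow_ne_zero _ (exp_ne_zero _)
  have e1 := eq_of_mul_eq (Z := Z)
    (g := fun w => sc (f w).1 (f w).2.1 (U w) (V w) (η w - g w) ^ 6 * (f' w).1)
    (hN y hy.1).self_of_nhds ((cs.pow 6).mul cf.fst) (cont_ph1 cx cy cU cV cθ (hN0 y hy)) (by
      filter_upwards [hsc, hform y hy.1, (hNh y hy).continuousAt.eventually_ne (hN0 y hy)]
        with w h1 h2 h3
      rw [h1] at h2
      exact h2.2.1.trans (ph1_eq h3).symm)
  have e2 := eq_of_mul_eq (Z := Z)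
    (g := fun w => sc (f w).1 (f w).2.1 (U w) (V w) (η w - g w) ^ 6 * (f' w).2.1)
    (hN y hy.1).self_of_nhds ((cs.pow 6).mul cf.snd.fst) (cont_ph2 cx cy cU cV cθ (hN0 y hy)) (by
      filter_upwards [hsc, hform y hy.1, (hNh y hy).continuousAt.eventually_ne (hN0 y hy)]
        with w h1 h2 h3
      rw [h1] at h2
      exact h2.2.2.trans (ph2_eq h3).symm)
  have e3 := (hform y hy.1).self_of_nhds.1
  rw [hsc.self_of_nhds] at e3
  have : f' y = Phi (f y).1 (f y).2.1 (U y) (V y) (η y - g y) := by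
    refine Prod.ext ?_ (Prod.ext ?_ e3)
    · simp only [Phi]
      rw [eq_div_iff hs0, mul_comm]
      exact e1
    · simp only [Phi]
      rw [eq_div_iff hs0, mul_comm]
      exact e2
  rw [this]
  exact (hcl y hy _ (by rw [norm_sub_rev]; exact (hg' y hy).le)).2.2

theorem multi_step (t : Finset ((E →L[ℂ] ℂ) × ℝ)) : ∀ {L : Set E}, IsCompact L → Convex ℝ L →
    ∀ {f : E → ℂ × ℂ × ℂ}, VMap (L ∩ {y | ∀ p ∈ t, (p.1 y).re ≤ p.2}) f → ∀ {ε : ℝ}, 0 < ε →
      ∃ f' : E → ℂ × ℂ × ℂ, VMap L f' ∧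
        ∀ y ∈ L ∩ {y | ∀ p ∈ t, (p.1 y).re ≤ p.2}, ‖f' y - f y‖ < ε := by
  classical
  induction t using Finset.induction_on with
  | empty =>
    intro L _ _ f hf ε hε
    exact ⟨f, fun y hy => hf y ⟨hy, by simp⟩, fun y _ => by simpa using hε⟩
  | insert p t _ ih =>
    intro L hL hc f hf ε hε
    obtain ⟨f₁, h1, h2⟩ := ih (L := L ∩ {y | (p.1 y).re ≤ p.2})
      (hL.inter_right (isClosed_re_le p.1 p.2)) (hc.inter (convex_re_le p.1 p.2)) (f := f)
      (fun y hy => hf y ⟨hy.1.1, fun q hq => by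
        rcases Finset.mem_insert.mp hq with rfl | hq
        · exact hy.1.2
        · exact hy.2 q hq⟩) (half_pos hε)
    obtain ⟨f₂, h3, h4⟩ := half_step hL hc p.1 p.2 h1 (half_pos hε)
    refine ⟨f₂, h3, fun y hy => ?_⟩
    have hp : (p.1 y).re ≤ p.2 := hy.2 p (Finset.mem_insert_self _ _)
    have a1 := h2 y ⟨⟨hy.1, hp⟩, fun q hq => hy.2 q (Finset.mem_insert_of_mem hq)⟩
    have a2 := h4 y ⟨hy.1, hp⟩
    have := norm_add_le (f₂ y - f₁ y) (f₁ y - f y)
    rw [sub_add_sub_cancel] at this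
    linarith

theorem convex_step {K L : Set E} (hK : IsCompact K) (hKc : Convex ℝ K) (hL : IsCompact L)
    (hc : Convex ℝ L) (hKL : K ⊆ L) {f : E → ℂ × ℂ × ℂ} (hf : VMap K f) {ε : ℝ} (hε : 0 < ε) :
    ∃ f' : E → ℂ × ℂ × ℂ, VMap L f' ∧ ∀ y ∈ K, ‖f' y - f y‖ < ε := by
  obtain ⟨t, h1, h2⟩ := exists_halfspaces hK.isClosed hKc hL (isOpen_vmap f) hf
  obtain ⟨f', h3, h4⟩ := multi_step t hL hc (f := f) (fun y hy => h2 y hy.1 hy.2) hε
  exact ⟨f', h3, fun y hy => h4 y ⟨hKL hy, fun p hp => h1 p hp y hy⟩⟩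

theorem isClosed_OnV : IsClosed {p : ℂ × ℂ × ℂ | OnV p} :=
  isClosed_eq (by fun_prop) continuous_const

theorem cap_vmap {K : Set E} (hK : IsCompact K) (hKc : Convex ℝ K) {f : E → ℂ × ℂ × ℂ}
    (hf : VMap K f) {ε : ℝ} (hε : 0 < ε) : ∃ g : E → ℂ × ℂ × ℂ, Differentiable ℂ g ∧
      (∀ y, OnV (g y)) ∧ ∀ y ∈ K, ‖g y - f y‖ < ε := by
  have : ProperSpace E := FiniteDimensional.proper_rclike ℂ E
  obtain ⟨R, hR⟩ := hK.isBounded.subset_closedBall 0
  obtain ⟨f₀, h0, h0'⟩ := convex_step hK hKc (isCompact_closedBall 0 R) (convex_closedBall 0 R) hR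
    hf (show 0 < ε / 4 by positivity)
  have step : ∀ k : ℕ, ∀ φ : E → ℂ × ℂ × ℂ, VMap (closedBall 0 (R + k)) φ →
      ∃ ψ : E → ℂ × ℂ × ℂ, VMap (closedBall 0 (R + (k + 1 : ℕ))) ψ ∧
        ∀ y ∈ closedBall (0 : E) (R + k), ‖ψ y - φ y‖ < ε / 4 * (1 / 2) ^ k := fun k φ hφ =>
    convex_step (isCompact_closedBall 0 _) (convex_closedBall 0 _) (isCompact_closedBall 0 _)
      (convex_closedBall 0 _) (closedBall_subset_closedBall (by push_cast; linarith)) hφ
      (by positivity)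
  choose! nxt hn1 hn2 using step
  set F : ℕ → E → ℂ × ℂ × ℂ := fun k => Nat.rec f₀ nxt k with hF
  have hFs : ∀ k, F (k + 1) = nxt k (F k) := fun k => rfl
  have hFv : ∀ k : ℕ, VMap (closedBall 0 (R + k)) (F k) := by
    intro k
    induction k with
    | zero => simpa [show F 0 = f₀ from rfl] using h0
    | succ k ih => exact hn1 k _ ih
  have hFd : ∀ N k : ℕ, ∀ y ∈ closedBall (0 : E) (R + N),
      ‖F (k + N + 1) y - F (k + N) y‖ ≤ ε / 4 * (1 / 2) ^ k := by
    intro N k y hy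
    refine (hn2 (k + N) _ (hFv _) y (closedBall_subset_closedBall (by
      push_cast; linarith [Nat.cast_nonneg (α := ℝ) k]) hy)).le.trans ?_
    refine mul_le_mul_of_nonneg_left ?_ (by positivity)
    exact pow_le_pow_of_le_one (by norm_num) (by norm_num) (Nat.le_add_right _ _)
  have hsumu : Summable fun k : ℕ => ε / 4 * (1 / 2 : ℝ) ^ k :=
    summable_geometric_two.mul_left _
  have hsum : ∀ N : ℕ, ∀ y ∈ closedBall (0 : E) (R + N),
      Summable fun k => F (k + N + 1) y - F (k + N) y := fun N y hy =>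
    Summable.of_norm_bounded hsumu fun k => hFd N k y hy
  have hlim : ∀ N : ℕ, ∀ y ∈ closedBall (0 : E) (R + N), Tendsto (fun k => F k y) atTop
      (𝓝 (F N y + ∑' k, (F (k + N + 1) y - F (k + N) y))) := by
    intro N y hy
    rw [← tendsto_add_atTop_iff_nat N]
    refine ((hsum N y hy).hasSum.tendsto_sum_nat.const_add (F N y)).congr fun n => ?_
    have := Finset.sum_range_sub (fun k => F (k + N) y) n
    simp only [show ∀ i, i + 1 + N = i + N + 1 from fun i => by ring] at this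
    rw [this]
    simp
  have hex : ∀ y : E, ∃ N : ℕ, y ∈ ball (0 : E) (R + N) := fun y => by
    obtain ⟨N, hN⟩ := exists_nat_gt (‖y‖ - R)
    exact ⟨N, mem_ball_zero_iff.mpr (by linarith)⟩
  set g : E → ℂ × ℂ × ℂ := fun y => limUnder atTop fun k => F k y with hg
  have hge : ∀ N : ℕ, ∀ y ∈ closedBall (0 : E) (R + N),
      g y = F N y + ∑' k, (F (k + N + 1) y - F (k + N) y) := fun N y hy =>
    (hlim N y hy).limUnder_eq
  refine ⟨g, fun y => ?_, fun y => ?_, fun y hy => ?_⟩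
  · obtain ⟨N, hN⟩ := hex y
    have hsub : ∀ k : ℕ, closedBall (0 : E) (R + (N + 1 : ℕ)) ⊆
        closedBall 0 (R + (k + (N + 1) : ℕ)) := fun k => closedBall_subset_closedBall (by
      push_cast; linarith [Nat.cast_nonneg (α := ℝ) k])
    have hb : ∀ x ∈ ball (0 : E) (R + N), ball x 1 ⊆ closedBall 0 (R + (N + 1 : ℕ)) := by
      intro x hx
      refine (ball_subset_ball' ?_).trans ball_subset_closedBall
      rw [mem_ball] at hx
      push_cast
      linarith
    have hdk : ∀ k : ℕ, ∀ x ∈ closedBall (0 : E) (R + (N + 1 : ℕ)), DifferentiableAt ℂ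
        (fun w => F (k + (N + 1) + 1) w - F (k + (N + 1)) w) x := fun k x hx =>
      (hol_diff (hFv (k + (N + 1) + 1) x (by
        rw [show k + (N + 1) + 1 = (k + 1) + (N + 1) by ring]; exact hsub (k + 1) hx)).1).sub
        (hol_diff (hFv _ x (hsub k hx)).1)
    have hD := hasFDerivAt_tsum_of_isPreconnected (𝕜 := ℂ) (hsumu.mul_left 2)
      (s := ball (0 : E) (R + N)) isOpen_ball (convex_ball _ _).isPreconnected
      (f := fun k w => F (k + (N + 1) + 1) w - F (k + (N + 1)) w)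
      (f' := fun k w => fderiv ℂ (fun w => F (k + (N + 1) + 1) w - F (k + (N + 1)) w) w)
      (fun k x hx => (hdk k x (hb x hx (mem_ball_self one_pos))).hasFDerivAt)
      (fun k x hx => by
        simpa using norm_fderiv_le_of_bound one_pos
          (fun w hw => (hdk k w (hb x hx hw)).differentiableWithinAt)
          (fun w hw => hFd (N + 1) k w (hb x hx hw))) hN
      (hsum (N + 1) y (hb y hN (mem_ball_self one_pos))) hN
    refine ((hol_diff (hFv (N + 1) y (hb y hN (mem_ball_self one_pos))).1).add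
      hD.differentiableAt).congr_of_eventuallyEq ?_
    filter_upwards [ball_mem_nhds y one_pos] with w hw
    exact hge (N + 1) w (hb y hN hw)
  · obtain ⟨N, hN⟩ := hex y
    rw [hge N y (ball_subset_closedBall hN)]
    refine isClosed_OnV.mem_of_tendsto (hlim N y (ball_subset_closedBall hN)) ?_
    filter_upwards [eventually_ge_atTop N] with k hk
    refine (hFv k y (closedBall_subset_closedBall ?_ (ball_subset_closedBall hN))).2.self_of_nhds
    have : (N : ℝ) ≤ k := by exact_mod_cast hk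
    linarith
  · have hy0 : y ∈ closedBall (0 : E) (R + (0 : ℕ)) := by simpa using hR hy
    rw [hge 0 y hy0]
    have h1 := tsum_of_norm_bounded hsumu.hasSum fun k => hFd 0 k y hy0
    rw [tsum_mul_left, tsum_geometric_two] at h1
    have h2 := h0' y hy
    have := norm_add_le (f₀ y - f y) (∑' k, (F (k + 0 + 1) y - F (k + 0) y))
    rw [show F 0 y + ∑' k, (F (k + 0 + 1) y - F (k + 0) y) - f y =
      f₀ y - f y + ∑' k, (F (k + 0 + 1) y - F (k + 0) y) by
        rw [show F 0 = f₀ from rfl]; abel]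
    linarith

/-- The convex approximation property of the surface. -/
theorem cap {n : ℕ} (K U : Set (EuclideanSpace ℂ (Fin n))) (hK : IsCompact K) (hc : Convex ℝ K)
    (hU : IsOpen U) (hKU : K ⊆ U) (x y z : EuclideanSpace ℂ (Fin n) → ℂ)
    (hx : DifferentiableOn ℂ x U) (hy : DifferentiableOn ℂ y U) (hz : DifferentiableOn ℂ z U)
    (h : ∀ p ∈ U, 2 * x p + x p ^ 2 * z p - 3 * y p - 3 * y p ^ 2 * z p - y p ^ 3 * z p ^ 2 = 1)
    (e : ℝ) (he : 0 < e) :
    ∃ x1 y1 z1 : EuclideanSpace ℂ (Fin n) → ℂ, Differentiable ℂ x1 ∧ Differentiable ℂ y1 ∧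
      Differentiable ℂ z1 ∧ (∀ p, 2 * x1 p + x1 p ^ 2 * z1 p - 3 * y1 p - 3 * y1 p ^ 2 * z1 p
        - y1 p ^ 3 * z1 p ^ 2 = 1) ∧
      ∀ p ∈ K, ‖x1 p - x p‖ < e ∧ ‖y1 p - y p‖ < e ∧ ‖z1 p - z p‖ < e := by
  obtain ⟨g, h1, h2, h3⟩ := cap_vmap hK hc (f := fun p => (x p, y p, z p)) (fun p hp =>
    ⟨contDiffAt_of_differentiableOn (hx.prodMk (hy.prodMk hz)) (hU.mem_nhds (hKU hp)), by
      filter_upwards [hU.mem_nhds (hKU hp)] with w hw
      exact h w hw⟩) he
  refine ⟨fun p => (g p).1, fun p => (g p).2.1, fun p => (g p).2.2, h1.fst, h1.snd.fst,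
    h1.snd.snd, h2, fun p hp => ⟨(norm_fst_le _).trans_lt (h3 p hp),
      ((norm_fst_le _).trans (norm_snd_le _)).trans_lt (h3 p hp),
      ((norm_snd_le _).trans (norm_snd_le _)).trans_lt (h3 p hp)⟩⟩

end Pool.Agent.P.MP_eba2d2_an
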