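import Pool.Agent.P.MP_eba2d2_an.OkaChain

set_option autoImplicit false

open Set Filter Topology Metric Complex

namespace Pool.Agent.P.MP_eba2d2_an

theorem exists_path {x u v : ℂ} (h : u - 1 = x * (u ^ 2 - v ^ 3)) :
    ∃ η : ℝ, 0 < η ∧ η ≤ 1 ∧ v.im + η ≠ 0 ∧ ∃ xq : ℝ → ℂ, ∃ B ≥ 0, ∀ s ∈ Icc (0 : ℝ) η,
      ‖xq s‖ ≤ B ∧ u - 1 = xq s * (u ^ 2 - (v + s * I) ^ 3) := by
  have key : ∃ ρ > 0, ∃ xq : ℝ → ℂ, ∃ B ≥ 0, ∀ s ∈ Icc (0 : ℝ) ρ,
      ‖xq s‖ ≤ B ∧ u - 1 = xq s * (u ^ 2 - (v + s * I) ^ 3) := by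
    by_cases hu : u - 1 = 0
    · exact ⟨1, one_pos, fun _ => 0, 0, le_rfl, fun s _ => by simp [hu]⟩
    · have hz : u ^ 2 - v ^ 3 ≠ 0 := fun h0 => hu (by rw [h, h0, mul_zero])
      have hc : ContinuousAt (fun s : ℝ => (u - 1) / (u ^ 2 - (v + s * I) ^ 3)) 0 :=
        ContinuousAt.div continuousAt_const (by fun_prop) (by simpa using hz)
      have hc2 : ContinuousAt (fun s : ℝ => u ^ 2 - (v + s * I) ^ 3) 0 := by fun_prop
      have h1 := hc.norm.eventually (Iic_mem_nhds (lt_add_one _))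
      have h2 := hc2.eventually_ne (show _ ≠ (0 : ℂ) by simpa using hz)
      obtain ⟨ρ, hρ, h3⟩ := Metric.nhds_basis_closedBall.eventually_iff.mp (h1.and h2)
      refine ⟨ρ, hρ, fun s => (u - 1) / (u ^ 2 - (v + s * I) ^ 3), _, ?_, fun s hs => ⟨(h3 (by
        rw [mem_closedBall_zero_iff, Real.norm_of_nonneg hs.1]; exact hs.2)).1, ?_⟩⟩
      · positivity
      · rw [div_mul_cancel₀ _ (h3 (by
          rw [mem_closedBall_zero_iff, Real.norm_of_nonneg hs.1]; exact hs.2)).2]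
  obtain ⟨ρ, hρ, xq, B, hB, hx⟩ := key
  have hm : 0 < min ρ 1 := lt_min hρ one_pos
  by_cases h1 : v.im + min ρ 1 = 0
  · exact ⟨min ρ 1 / 2, by positivity, by linarith [min_le_right ρ 1], by linarith, xq, B, hB,
      fun s hs => hx s ⟨hs.1, by linarith [hs.2, min_le_left ρ 1]⟩⟩
  · exact ⟨min ρ 1, hm, min_le_right _ _, h1, xq, B, hB,
      fun s hs => hx s ⟨hs.1, by linarith [hs.2, min_le_left ρ 1]⟩⟩

variable {E : Type*} [NormedAddCommGroup E] [NormedSpace ℂ E] [FiniteDimensional ℂ E]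

/-- A holomorphic family of entire curves avoiding the ray. -/
theorem exists_curves {A : Set E} (hA : IsCompact A) (hc : Convex ℝ A) (hne : A.Nonempty)
    {F : E → ℂ × ℂ × ℂ} (hF : ∀ y ∈ A, ContDiffAt ℂ 1 F y ∧ ∀ᶠ w in 𝓝 y,
      (F w).2.1 - 1 = (F w).1 * ((F w).2.1 ^ 2 - (F w).2.2 ^ 3)) :
    ∃ p₁ : ℂ × ℂ, p₁.1 ^ 2 - p₁.2 ^ 3 ≠ 0 ∧ p₁.2 ≠ 0 ∧ ∀ η > 0, ∃ G : E × ℂ → ℂ × ℂ,
      ∀ ζ ∈ A, (∀ τ, ContDiffAt ℂ 1 G (ζ, τ)) ∧ G (ζ, 0) = (F ζ).2 ∧ (∀ τ, G (ζ, τ) ∉ Ray) ∧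
        ‖G (ζ, 1) - p₁‖ ≤ η := by
  have : ProperSpace E := FiniteDimensional.proper_rclike ℂ E
  obtain ⟨ζ₀, hζ₀⟩ := hne
  have hO : IsOpen {y | ContDiffAt ℂ 1 F y ∧ ∀ᶠ w in 𝓝 y,
      (F w).2.1 - 1 = (F w).1 * ((F w).2.1 ^ 2 - (F w).2.2 ^ 3)} :=
    (isOpen_hol F).inter isOpen_setOfPred_eventually_nhds
  obtain ⟨r, hr, hrO⟩ := hA.exists_cthickening_subset_open hO hF
  have hA₁ : IsCompact (cthickening r A) := hA.cthickening
  set T := thickening r A with hT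
  have hTo : IsOpen T := isOpen_thickening
  have hTc : Convex ℝ T := hc.thickening r
  have hTA : T ⊆ cthickening r A := thickening_subset_cthickening r A
  have hAT : A ⊆ T := self_subset_thickening hr A
  obtain ⟨M₁, hM₁⟩ := hA₁.exists_bound_of_continuousOn (f := F) fun y hy =>
    (hrO hy).1.continuousAt.continuousWithinAt
  obtain ⟨D, hD⟩ := hA₁.exists_bound_of_continuousOn (f := fderiv ℂ F) fun y hy =>
    ((hrO hy).1.continuousAt_fderiv (by simp)).continuousWithinAt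
  obtain ⟨ρ, hρ⟩ := hA₁.exists_bound_of_continuousOn (f := fun y => y - ζ₀) (by fun_prop)
  have hM₁0 : 0 ≤ M₁ := (norm_nonneg _).trans (hM₁ ζ₀ (hTA (hAT hζ₀)))
  have hD0 : 0 ≤ D := (norm_nonneg _).trans (hD ζ₀ (hTA (hAT hζ₀)))
  have hρ0 : 0 ≤ ρ := (norm_nonneg _).trans (hρ ζ₀ (hTA (hAT hζ₀)))
  have hLip : ∀ a ∈ T, ∀ b ∈ T, ‖F a - F b‖ ≤ D * ‖a - b‖ := fun a ha b hb =>
    Convex.norm_image_sub_le_of_norm_fderiv_le (𝕜 := ℂ) (fun z hz => hol_diff (hrO (hTA hz)).1)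
      (fun z hz => hD z (hTA hz)) hTc hb ha
  obtain ⟨η', hη'0, hη'1, him, xq, B, hB, hxq⟩ := exists_path (hF ζ₀ hζ₀).2.self_of_nhds
  set u₀ := (F ζ₀).2.1 with hu₀
  set v₀ := (F ζ₀).2.2 with hv₀
  set vs := v₀ + η' * I with hvs
  have hvsim : vs.im ≠ 0 := by simpa [hvs] using him
  obtain ⟨W, hW2, hW3⟩ : ∃ W : ℂ, W ^ 2 = vs ∧ (W ^ 3).re ≤ 0 := by
    obtain ⟨W, hW⟩ := IsAlgClosed.exists_pow_nat_eq vs (show 0 < 2 by norm_num)
    by_cases h : (W ^ 3).re ≤ 0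
    · exact ⟨W, hW, h⟩
    · refine ⟨-W, by rw [← hW]; ring, ?_⟩
      rw [show (-W) ^ 3 = -W ^ 3 by ring, neg_re]
      linarith
  have hvs0 : vs ≠ 0 := fun h => hvsim (by rw [h]; rfl)
  have hW0 : W ≠ 0 := fun h => hvs0 (by rw [← hW2, h]; simp)
  have hWn : 0 < ‖W ^ 3‖ := norm_pos_iff.mpr (pow_ne_zero _ hW0)
  obtain ⟨δ, hδ, hchain⟩ := exists_chain (E := E) (M := M₁ + B + 1) (by positivity) hW3
  set δ' := min δ ‖W ^ 3‖ with hδ'
  have hδ'0 : 0 < δ' := lt_min hδ hWn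
  refine ⟨(W ^ 3 + δ', vs), ?_, hvs0, fun η hη => ?_⟩
  · simp only
    rw [← hW2, show (W ^ 3 + δ') ^ 2 - (W ^ 2) ^ 3 = δ' * (2 * W ^ 3 + δ') by ring]
    refine mul_ne_zero (by exact_mod_cast hδ'0.ne') fun h => ?_
    have h1 : ‖(2 : ℂ) * W ^ 3‖ = ‖(δ' : ℂ)‖ := by
      rw [eq_neg_of_add_eq_zero_left h, norm_neg]
    rw [norm_mul, norm_real, Real.norm_of_nonneg hδ'0.le] at h1
    simp only [Complex.norm_ofNat] at h1
    linarith [min_le_right δ ‖W ^ 3‖]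
  set α : ℝ → ℝ := fun t => max (2 * t - 1) 0 with hα
  set β : ℝ → ℝ := fun t => max (1 - 2 * t) 0 with hβ
  set pt : ℝ → E → E := fun t ζ => ζ₀ + (α t : ℂ) • (ζ - ζ₀) with hpt
  have hptT : ∀ t ∈ Icc (0 : ℝ) 1, ∀ ζ ∈ T, pt t ζ ∈ T := by
    intro t ht ζ hζ
    have h1 : 0 ≤ α t := le_max_right _ _
    have h2 : α t ≤ 1 := max_le (by linarith [ht.2]) zero_le_one
    have := hTc.add_smul_sub_mem (hAT hζ₀) hζ ⟨h1, h2⟩
    simpa [hpt] using this
  have hβ1 : ∀ t ∈ Icc (0 : ℝ) 1, η' * β t ∈ Icc (0 : ℝ) η' := by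
    intro t ht
    have h1 : 0 ≤ β t := le_max_right _ _
    have h2 : β t ≤ 1 := max_le (by linarith [ht.1]) zero_le_one
    exact ⟨by positivity, by nlinarith⟩
  set P : ℝ → E → ℂ × ℂ × ℂ := fun t ζ => (if t < 1 / 2 then xq (η' * β t) else (F (pt t ζ)).1,
    (F (pt t ζ)).2 + (0, ((η' * β t : ℝ) : ℂ) * I)) with hP
  obtain ⟨Φ, hΦ1, hΦ2, hΦ3⟩ := hchain (min η (|vs.im| / 2))
    (lt_min hη (by have := abs_pos.mpr hvsim; positivity)) (2 * D * ρ + 2) (by positivity) T P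
    (fun t ht ζ hζ => by
      have hFd : DifferentiableAt ℂ (fun ζ => F (pt t ζ)) ζ :=
        (hol_diff (hrO (hTA (hptT t ht ζ hζ))).1).comp ζ (by simp only [hpt]; fun_prop)
      have hFb := hM₁ _ (hTA (hptT t ht ζ hζ))
      refine ⟨?_, ?_, ?_⟩
      · refine DifferentiableAt.prodMk ?_ (hFd.snd.add_const _)
        split_ifs
        · exact differentiableAt_const _
        · exact hFd.fst
      · rw [Prod.norm_def]
        refine max_le ?_ ?_
        · simp only [hP]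
          split_ifs
          · linarith [(hxq _ (hβ1 t ht)).1]
          · linarith [norm_fst_le (F (pt t ζ))]
        · refine (norm_add_le _ _).trans ?_
          have h1 : ‖((0 : ℂ), ((η' * β t : ℝ) : ℂ) * I)‖ ≤ 1 := by
            rw [Prod.norm_def]
            refine max_le (by simp) ?_
            rw [norm_mul, norm_I, mul_one, norm_real, Real.norm_of_nonneg (hβ1 t ht).1]
            exact (hβ1 t ht).2.trans hη'1
          linarith [norm_snd_le (F (pt t ζ))]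
      · simp only [hP, Prod.fst_add, Prod.snd_add, add_zero]
        split_ifs with h
        · have : pt t ζ = ζ₀ := by
            simp only [hpt, hα]
            rw [max_eq_right (by linarith)]
            simp
          rw [this]
          exact (hxq _ (hβ1 t ht)).2
        · have : β t = 0 := max_eq_right (by linarith)
          rw [this]
          simpa using (hrO (hTA (hptT t ht ζ hζ))).2.self_of_nhds)
    (fun s hs t ht ζ hζ => by
      have h1 : |α s - α t| ≤ 2 * |s - t| := by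
        refine (abs_max_sub_max_le_abs _ _ _).trans (le_of_eq ?_)
        rw [show 2 * s - 1 - (2 * t - 1) = 2 * (s - t) by ring, abs_mul, abs_two]
      have h2 : |β s - β t| ≤ 2 * |s - t| := by
        refine (abs_max_sub_max_le_abs _ _ _).trans (le_of_eq ?_)
        rw [show 1 - 2 * s - (1 - 2 * t) = -(2 * (s - t)) by ring, abs_neg, abs_mul, abs_two]
      have h3 : ‖pt s ζ - pt t ζ‖ ≤ 2 * |s - t| * ρ := by
        rw [show pt s ζ - pt t ζ = ((α s - α t : ℝ) : ℂ) • (ζ - ζ₀) by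
          simp only [hpt]; push_cast; rw [sub_smul]; abel, norm_smul, norm_real]
        exact mul_le_mul h1 (hρ ζ (hTA hζ)) (norm_nonneg _) (by positivity)
      have h4 := (norm_snd_le _).trans (hLip _ (hptT s hs ζ hζ) _ (hptT t ht ζ hζ))
      have h5 : ‖((0 : ℂ), ((η' * (β s - β t) : ℝ) : ℂ) * I)‖ ≤ 2 * |s - t| := by
        rw [Prod.norm_def]
        refine max_le (by simp) ?_
        simp only [norm_mul, norm_I, mul_one, norm_real, Real.norm_eq_abs]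
        rw [abs_of_pos hη'0]
        nlinarith [abs_nonneg (β s - β t)]
      rw [show (P s ζ).2 - (P t ζ).2 = (F (pt s ζ) - F (pt t ζ)).2 +
        ((0 : ℂ), ((η' * (β s - β t) : ℝ) : ℂ) * I) by
          ext
          · simp [hP]
          · simp [hP]; ring]
      refine (norm_add_le _ _).trans ?_
      have h6 := mul_le_mul_of_nonneg_left h3 hD0
      nlinarith)
  have hP0 : ∀ ζ, (P 0 ζ).2 = (u₀, vs) := by
    intro ζ
    ext <;> simp [hP, hpt, hα, hβ, hu₀, hvs, hv₀]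
  have hP1 : ∀ ζ, (P 1 ζ).2 = (F ζ).2 := by
    intro ζ
    have h1 : α 1 = 1 := by norm_num [hα]
    have h2 : β 1 = 0 := by norm_num [hβ]
    ext <;> simp [hP, hpt, h1, h2]
  refine ⟨fun a => Φ a.1 (u₀ + a.2 * (W ^ 3 + δ' - u₀), vs), fun ζ hζ => ⟨fun τ => ?_, ?_,
    fun τ hτ => ?_, ?_⟩⟩
  · refine contDiffAt_of_eventually ?_
    filter_upwards [(hTo.prod isOpen_univ).mem_nhds (show (ζ, τ) ∈ T ×ˢ (univ : Set ℂ) from
      ⟨hAT hζ, trivial⟩)] with a ha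
    exact (hΦ1 a.1 ha.1 _).comp a
      (f := fun a : E × ℂ => (a.1, (u₀ + a.2 * (W ^ 3 + δ' - u₀), vs))) (by fun_prop)
  · simp only [zero_mul, add_zero]
    rw [← hP0 ζ, hΦ2 ζ (hAT hζ), hP1]
  · have h1 := hΦ3 ζ (hAT hζ) (u₀ + τ * (W ^ 3 + δ' - u₀), vs)
      (Or.inr ⟨_, Or.inl hτ, by simpa using hδ.le⟩)
    obtain ⟨s, hs, hs'⟩ := hτ
    simp only at hs'
    rw [hs'] at h1
    have h2 := (abs_im_le_norm _).trans ((norm_snd_le _).trans (h1.trans (min_le_right _ _)))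
    have h3 : ((s : ℂ) ^ 2).im = 0 := by norm_cast
    simp only [Prod.snd_sub, sub_im, h3, zero_sub, abs_neg] at h2
    linarith [abs_pos.mpr hvsim]
  · simp only [one_mul, add_sub_cancel]
    refine (hΦ3 ζ (hAT hζ) _ (Or.inl ⟨_, Or.inr rfl, ?_⟩)).trans (min_le_left _ _)
    rw [hW2, Prod.norm_def]
    simp only [Prod.fst_sub, add_sub_cancel_left, norm_real, Prod.snd_sub, sub_self, norm_zero]
    rw [Real.norm_of_nonneg hδ'0.le]
    exact max_le (min_le_left _ _) hδ.le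

end Pool.Agent.P.MP_eba2d2_an
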