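import Pool.Agent.P.MP_eba2d2_an.OkaBasic

set_option autoImplicit false

open Set Filter Topology Metric Complex

namespace Pool.Agent.P.MP_eba2d2_an

/-- A continuous family of functions that is pointwise holomorphic is holomorphic
as a map into the Banach space of continuous functions. -/
theorem weakHol {X : Type*} [TopologicalSpace X] [CompactSpace X] {Φ : ℂ → X → ℂ} {D : Set ℂ}
    (hD : IsOpen D) (hc : ContinuousOn (Function.uncurry Φ) (D ×ˢ univ))
    (hd : ∀ x, DifferentiableOn ℂ (fun τ => Φ τ x) D) :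
    DifferentiableOn ℂ (fun τ => ContinuousMap.mkD (Φ τ) 0) D := by
  set g : ℂ → C(X, ℂ) := fun τ => ContinuousMap.mkD (Φ τ) 0 with hg
  have hgc : ContinuousOn g D := ContinuousMap.continuousOn_mkD_of_uncurry Φ 0 hc
  have hval : ∀ τ ∈ D, ∀ x, g τ x = Φ τ x := by
    intro τ hτ x
    apply ContinuousMap.mkD_apply_of_continuous
    have : ContinuousOn (fun x => Function.uncurry Φ (τ, x)) univ :=
      hc.comp (by fun_prop) (fun x _ => ⟨hτ, mem_univ _⟩)
    exact continuousOn_univ.mp this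
  refine (isConservativeOn_and_continuousOn_iff_isDifferentiableOn hD).mp ⟨?_, hgc⟩
  intro z w hzw
  have key : ∀ z w : ℂ, Rectangle z w ⊆ D → ∀ x,
      wedgeIntegral z w g x = wedgeIntegral z w (fun τ => Φ τ x) := by
    intro z w hzw x
    have h1 : ∀ t ∈ uIcc z.re w.re, (t : ℂ) + z.im * I ∈ D := fun t ht =>
      hzw (by simpa [Rectangle, mem_reProdIm] using ht)
    have h2 : ∀ t ∈ uIcc z.im w.im, (w.re : ℂ) + t * I ∈ D := fun t ht =>
      hzw (by simpa [Rectangle, mem_reProdIm] using ht)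
    have i1 : IntervalIntegrable (fun t : ℝ => g (t + z.im * I)) MeasureTheory.volume z.re w.re :=
      (hgc.comp (by fun_prop) h1).intervalIntegrable
    have i2 : IntervalIntegrable (fun t : ℝ => g (w.re + t * I)) MeasureTheory.volume z.im w.im :=
      (hgc.comp (by fun_prop) h2).intervalIntegrable
    have e1 := (ContinuousMap.evalCLM ℂ x (M := ℂ)).intervalIntegral_comp_comm i1
    have e2 := (ContinuousMap.evalCLM ℂ x (M := ℂ)).intervalIntegral_comp_comm i2
    simp only [ContinuousMap.evalCLM_apply] at e1 e2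
    simp only [wedgeIntegral, ContinuousMap.add_apply, ContinuousMap.smul_apply]
    rw [← e1, ← e2]
    congr 1
    · exact intervalIntegral.integral_congr fun t ht => hval _ (h1 t ht) x
    · congr 1
      exact intervalIntegral.integral_congr fun t ht => hval _ (h2 t ht) x
  have hwz : Rectangle w z ⊆ D := by
    have : Rectangle w z = Rectangle z w := by
      simp only [Rectangle, uIcc_comm]
    rwa [this]
  ext x
  rw [ContinuousMap.neg_apply, key z w hzw, key w z hwz]
  exact (hd x).isConservativeOn z w hzw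

/-- Pushing membership in a closed subspace along a connected open set. -/
theorem push_mem {B : Type*} [NormedAddCommGroup B] [NormedSpace ℂ B] [CompleteSpace B]
    (S : Submodule ℂ B) (hS : IsClosed (S : Set B)) {g : ℂ → B} {D : Set ℂ} (hD : IsOpen D)
    (hp : IsPreconnected D) (hg : DifferentiableOn ℂ g D) {τ₀ : ℂ} (h₀ : τ₀ ∈ D)
    (h : ∀ᶠ τ in 𝓝 τ₀, g τ ∈ S) : ∀ τ ∈ D, g τ ∈ S := by
  intro τ hτ
  by_contra hcon
  obtain ⟨f, u, hf1, hf2⟩ := geometric_hahn_banach_closed_point (S.restrictScalars ℝ).convex hS hcon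
  have hf0 : ∀ s ∈ S, f s = 0 := by
    intro s hs
    by_contra hne
    have := hf1 (((u + 1) / f s) • s) (S.smul_of_tower_mem _ hs)
    rw [map_smul, smul_eq_mul, div_mul_cancel₀ _ hne] at this
    linarith
  have hu : 0 < u := by simpa using hf1 0 S.zero_mem
  set fc : B →L[ℂ] ℂ := f.extendRCLike with hfc
  have hfc0 : ∀ s ∈ S, fc s = 0 := by
    intro s hs
    rw [hfc, StrongDual.extendRCLike_apply, hf0 s hs, hf0 _ (S.smul_mem _ hs)]
    simp
  have hA : AnalyticOnNhd ℂ (fun τ => fc (g τ)) D :=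
    (fc.differentiable.comp_differentiableOn hg).analyticOnNhd hD
  have hz := hA.eqOn_zero_of_preconnected_of_eventuallyEq_zero hp h₀
    (h.mono fun τ hτ => hfc0 _ hτ) hτ
  have : (fc (g τ)).re = f (g τ) := by
    rw [hfc]
    exact StrongDual.re_extendRCLike_apply (𝕜 := ℂ) f (g τ)
  simp only [Pi.zero_apply] at hz
  rw [hz] at this
  simp at this
  linarith

variable {E : Type*} [NormedAddCommGroup E] [NormedSpace ℂ E]

/-- `φ` is a uniform limit on `K` of entire functions. -/
def Appr (K : Set E) (φ : E → ℂ) : Prop :=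
  ∀ ε > 0, ∃ g : E → ℂ, Differentiable ℂ g ∧ ∀ y ∈ K, ‖g y - φ y‖ < ε

/-- Restrictions of entire functions. -/
def entSub (K : Set E) : Submodule ℂ C(K, ℂ) where
  carrier := {F | ∃ g : E → ℂ, Differentiable ℂ g ∧ ∀ x : K, F x = g x}
  add_mem' := by
    rintro F G ⟨f, hf, hF⟩ ⟨g, hg, hG⟩
    exact ⟨f + g, hf.add hg, fun x => by simp [hF, hG]⟩
  zero_mem' := ⟨0, differentiable_const _, fun x => by simp⟩
  smul_mem' := by
    rintro c F ⟨f, hf, hF⟩
    exact ⟨c • f, hf.const_smul c, fun x => by simp [hF]⟩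

theorem mem_closure_entSub {K : Set E} [CompactSpace K] {φ : E → ℂ} {F : C(K, ℂ)}
    (hF : ∀ x : K, F x = φ x) : F ∈ (entSub K).topologicalClosure ↔ Appr K φ := by
  rw [← SetLike.mem_coe, Submodule.topologicalClosure_coe, Metric.mem_closure_iff]
  constructor
  · intro h ε hε
    obtain ⟨G, ⟨g, hg, hG⟩, hd⟩ := h ε hε
    refine ⟨g, hg, fun y hy => ?_⟩
    have := ContinuousMap.dist_apply_le_dist (f := F) (g := G) ⟨y, hy⟩
    rw [hF, hG, dist_comm, dist_eq_norm] at this
    exact this.trans_lt hd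
  · intro h ε hε
    obtain ⟨g, hg, hd⟩ := h ε hε
    refine ⟨⟨fun x => g x, hg.continuous.comp continuous_subtype_val⟩, ⟨g, hg, fun x => rfl⟩, ?_⟩
    rw [ContinuousMap.dist_lt_iff hε]
    intro x
    rw [hF, dist_comm, dist_eq_norm]
    exact hd x x.2

/-- Oka-Weil approximation on compact convex sets. -/
theorem appr_of_convex [FiniteDimensional ℂ E] {K : Set E} (hK : IsCompact K) (hc : Convex ℝ K)
    {φ : E → ℂ} (hφ : ∀ y ∈ K, ContDiffAt ℂ 1 φ y) : Appr K φ := by
  rcases K.eq_empty_or_nonempty with rfl | ⟨ζ₀, hζ₀⟩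
  · exact fun ε _ => ⟨0, differentiable_const _, by simp⟩
  have : CompactSpace K := isCompact_iff_compactSpace.mp hK
  set l : ℂ × E → E := fun p => ζ₀ + p.1 • (p.2 - ζ₀) with hl
  have hlc : Continuous l := by fun_prop
  have hseg : IsCompact (segment ℝ (0 : ℂ) 1) := by
    rw [segment_eq_image_lineMap]
    exact isCompact_Icc.image (by fun_prop)
  obtain ⟨u, v, hu, hv, hsu, hKv, huv⟩ := generalized_tube_lemma hseg hK
    ((isOpen_hol φ).preimage hlc) (by
      rintro ⟨τ, ζ⟩ ⟨⟨a, b, ha, hb, hab, rfl⟩, hζ⟩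
      apply hφ
      have := hc hζ₀ hζ ha hb hab
      convert this using 1
      have ha' : a = 1 - b := by linarith
      simp only [hl, ha', smul_zero, zero_add, smul_assoc, one_smul, sub_smul, smul_sub]
      abel)
  obtain ⟨r, hr, hru⟩ := hseg.exists_thickening_subset_open hu hsu
  set D := thickening r (segment ℝ (0 : ℂ) 1) with hD
  have hDo : IsOpen D := isOpen_thickening
  have hDc : Convex ℝ D := (convex_segment _ _).thickening r
  have h0D : (0 : ℂ) ∈ D := self_subset_thickening hr _ (left_mem_segment _ _ _)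
  have h1D : (1 : ℂ) ∈ D := self_subset_thickening hr _ (right_mem_segment _ _ _)
  have hall : ∀ τ ∈ D, ∀ ζ ∈ K, ContDiffAt ℂ 1 φ (l (τ, ζ)) := fun τ hτ ζ hζ =>
    huv (show (τ, ζ) ∈ u ×ˢ v from ⟨hru hτ, hKv hζ⟩)
  set Φ : ℂ → K → ℂ := fun τ x => φ (l (τ, x)) with hΦ
  have hΦc : ContinuousOn (Function.uncurry Φ) (D ×ˢ univ) := by
    rintro ⟨τ, x⟩ ⟨hτ, -⟩
    exact ((hall τ hτ x x.2).continuousAt.comp (f := fun p : ℂ × K => l (p.1, p.2))
      (by fun_prop)).continuousWithinAt
  have hΦd : ∀ x, DifferentiableOn ℂ (fun τ => Φ τ x) D := by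
    intro x τ hτ
    exact ((hol_diff (hall τ hτ x x.2)).comp τ (f := fun τ => l (τ, x))
      (by simp only [hl]; fun_prop)).differentiableWithinAt
  have hg := weakHol hDo hΦc hΦd
  set g : ℂ → C(K, ℂ) := fun τ => ContinuousMap.mkD (Φ τ) 0 with hgdef
  have hval : ∀ τ ∈ D, ∀ x, g τ x = Φ τ x := by
    intro τ hτ x
    apply ContinuousMap.mkD_apply_of_continuous
    have : ContinuousOn (fun x => Function.uncurry Φ (τ, x)) univ :=
      hΦc.comp (by fun_prop) (fun x _ => ⟨hτ, mem_univ _⟩)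
    exact continuousOn_univ.mp this
  -- the Taylor coefficients are entire
  have hP : ∀ k : ℕ, Differentiable ℂ
      (fun ζ : E => iteratedDeriv k (fun s : ℂ => φ (l (s, ζ))) 0) := by
    intro k ζ
    have h00 : ContDiffAt ℂ 1 φ (l (0, ζ)) := by simpa [hl] using hφ ζ₀ hζ₀
    have hev : ∀ᶠ p in 𝓝 ((0 : ℂ), ζ), ContDiffAt ℂ 1 φ (l p) :=
      hlc.continuousAt.eventually (hol_eventually h00)
    rw [nhds_prod_eq, eventually_prod_iff] at hev
    obtain ⟨pa, hpa, pb, hpb, hab⟩ := hev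
    obtain ⟨ρ, hρ, hρa⟩ := Metric.nhds_basis_closedBall.eventually_iff.mp hpa
    have hform : ∀ᶠ ξ in 𝓝 ζ, iteratedDeriv k (fun s : ℂ => φ (l (s, ξ))) 0 =
        (2 * Real.pi * I / k.factorial)⁻¹ * ∫ t in (0 : ℝ)..2 * Real.pi,
          (fun p : E × ℂ => (p.2 * I) * ((1 / p.2 ^ (k + 1)) * φ (l (p.2, p.1))))
            (ξ, circleMap 0 ρ t) := by
      filter_upwards [hpb] with ξ hξ
      have hd : DifferentiableOn ℂ (fun s : ℂ => φ (l (s, ξ))) (closedBall 0 ρ) := by
        intro s hs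
        exact ((hol_diff (hab (hρa hs) hξ)).comp s (f := fun τ => l (τ, ξ))
          (by simp only [hl]; fun_prop)).differentiableWithinAt
      have := hd.circleIntegral_one_div_sub_center_pow_smul hρ k
      simp only [circleIntegral, deriv_circleMap, sub_zero, smul_eq_mul] at this
      rw [this, ← mul_assoc, inv_mul_cancel₀, one_mul]
      have : (k.factorial : ℂ) ≠ 0 := by exact_mod_cast k.factorial_ne_zero
      exact div_ne_zero two_pi_I_ne_zero this
    refine DifferentiableAt.congr_of_eventuallyEq ?_ hform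
    refine DifferentiableAt.const_mul (hol_diff ?_) _
    refine contDiffAt_paramInt (E := E)
      (Φ := fun p : E × ℂ => (p.2 * I) * ((1 / p.2 ^ (k + 1)) * φ (l (p.2, p.1))))
      (continuous_circleMap 0 ρ) fun t _ => ?_
    have hne : circleMap 0 ρ t ≠ 0 := circleMap_ne_center hρ.ne'
    have h1 : ContDiffAt ℂ 1 φ (l (circleMap 0 ρ t, ζ)) :=
      hab (hρa (circleMap_mem_closedBall 0 hρ.le t)) hpb.self_of_nhds
    have h2 : ContDiffAt ℂ 1 (fun p : E × ℂ => φ (l (p.2, p.1))) (ζ, circleMap 0 ρ t) :=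
      h1.comp (ζ, circleMap 0 ρ t) (f := fun p : E × ℂ => l (p.2, p.1))
        (by simp only [hl]; fun_prop)
    have h3 : ContDiffAt ℂ 1 (fun p : E × ℂ => 1 / p.2 ^ (k + 1)) (ζ, circleMap 0 ρ t) :=
      contDiffAt_const.div (contDiffAt_snd.pow _) (pow_ne_zero _ hne)
    exact (contDiffAt_snd.mul contDiffAt_const).mul (h3.mul h2)
  have hcoef : ∀ k : ℕ, iteratedDeriv k g 0 ∈ entSub K := by
    intro k
    refine ⟨_, hP k, fun x => ?_⟩
    have hcd : ContDiffAt ℂ k g 0 := (hg.contDiffOn hDo).contDiffAt (hDo.mem_nhds h0D)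
    have e1 := (ContinuousMap.evalCLM ℂ x (M := ℂ)).iteratedFDeriv_comp_left hcd (i := k) le_rfl
    have e2 : ((ContinuousMap.evalCLM ℂ x (M := ℂ)) ∘ g) =ᶠ[𝓝 0] fun s => φ (l (s, x)) := by
      filter_upwards [hDo.mem_nhds h0D] with s hs
      exact hval s hs x
    rw [← e2.iteratedDeriv_eq, iteratedDeriv_eq_iteratedFDeriv, iteratedDeriv_eq_iteratedFDeriv,
      e1]
    rfl
  have hnear : ∀ᶠ τ in 𝓝 (0 : ℂ), g τ ∈ (entSub K).topologicalClosure := by
    obtain ⟨ρ, hρ, hρD⟩ := Metric.isOpen_iff.mp hDo 0 h0D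
    filter_upwards [ball_mem_nhds 0 hρ] with τ hτ
    have hs := hasSum_taylorSeries_on_ball (hg.mono hρD) hτ
    refine (entSub K).isClosed_topologicalClosure.mem_of_tendsto hs
      (Eventually.of_forall fun s => (entSub K).le_topologicalClosure ?_)
    exact Submodule.sum_mem _ fun k _ =>
      Submodule.smul_mem _ _ (Submodule.smul_mem _ _ (hcoef k))
  have := push_mem _ (entSub K).isClosed_topologicalClosure hDo hDc.isPreconnected hg h0D hnear 1
    h1D
  refine (mem_closure_entSub fun x => ?_).mp this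
  rw [hval 1 h1D]
  simp [hΦ, hl]

end Pool.Agent.P.MP_eba2d2_an
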