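import Mathlib

set_option autoImplicit false

open Set Filter Topology Metric

namespace Pool.Agent.P.MP_eba2d2_an

section C1

variable {E F : Type*} [NormedAddCommGroup E] [NormedSpace ℂ E]
  [NormedAddCommGroup F] [NormedSpace ℂ F]

/-- Cauchy estimate. -/
theorem norm_fderiv_le_of_bound {φ : E → F} {y : E} {r B : ℝ} (hr : 0 < r)
    (hd : DifferentiableOn ℂ φ (ball y r)) (hB : ∀ w ∈ ball y r, ‖φ w‖ ≤ B) :
    ‖fderiv ℂ φ y‖ ≤ 2 * B / r := by
  refine Complex.norm_fderiv_le_div_of_mapsTo_ball hd (fun w hw => ?_) hr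
  rw [mem_closedBall, dist_eq_norm]
  have h1 := hB w hw
  have h2 := hB y (mem_ball_self hr)
  calc ‖φ w - φ y‖ ≤ ‖φ w‖ + ‖φ y‖ := norm_sub_le _ _
    _ ≤ 2 * B := by linarith

/-- A complex differentiable map on an open set is continuously differentiable. -/
theorem contDiffAt_of_eventually {φ : E → F} {y : E}
    (h : ∀ᶠ w in 𝓝 y, DifferentiableAt ℂ φ w) : ContDiffAt ℂ 1 φ y := by
  have hc : ContinuousAt φ y := h.self_of_nhds.continuousAt
  have hb : ∀ᶠ w in 𝓝 y, ‖φ w‖ ≤ ‖φ y‖ + 1 := by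
    have := hc.norm.eventually (Iic_mem_nhds (show ‖φ y‖ < ‖φ y‖ + 1 by linarith))
    exact this
  obtain ⟨r0, hr0, hball⟩ := Metric.eventually_nhds_iff_ball.mp (h.and hb)
  set B := ‖φ y‖ + 1 with hB
  have hB0 : 0 < B := by positivity
  set r := r0 / 4 with hr
  have hrpos : 0 < r := by positivity
  have hsub : ∀ w ∈ ball y (2 * r), ball w r ⊆ ball y r0 := by
    intro w hw
    apply ball_subset_ball'
    rw [mem_ball] at hw
    linarith
  have hder : ∀ w ∈ ball y (2 * r), ‖fderiv ℂ φ w‖ ≤ 2 * B / r := by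
    intro w hw
    exact norm_fderiv_le_of_bound hrpos
      (fun z hz => (hball z (hsub w hw hz)).1.differentiableWithinAt)
      (fun z hz => (hball z (hsub w hw hz)).2)
  have hin : ball y (2 * r) ⊆ ball y r0 := ball_subset_ball (by linarith)
  have hlip : ∀ a ∈ ball y (2 * r), ∀ b ∈ ball y (2 * r), ‖φ a - φ b‖ ≤ 2 * B / r * ‖a - b‖ := by
    intro a ha b hb
    exact Convex.norm_image_sub_le_of_norm_fderiv_le (𝕜 := ℂ) (fun z hz => (hball z (hin hz)).1)
      hder (convex_ball _ _) hb ha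
  have hlip2 : ∀ a ∈ ball y r, ∀ b ∈ ball y r,
      ‖fderiv ℂ φ a - fderiv ℂ φ b‖ ≤ 2 * (2 * B / r) / r * ‖a - b‖ := by
    intro a ha b hb
    have hmem : ∀ c ∈ ball y r, ∀ e ∈ ball (0 : E) r, c + e ∈ ball y (2 * r) := by
      intro c hc e he
      rw [mem_ball, dist_eq_norm] at hc ⊢
      rw [mem_ball_zero_iff] at he
      calc ‖c + e - y‖ = ‖(c - y) + e‖ := by congr 1; abel
        _ ≤ ‖c - y‖ + ‖e‖ := norm_add_le _ _
        _ < 2 * r := by linarith
    have hdd : ∀ c ∈ ball y r, ∀ e ∈ ball (0 : E) r, DifferentiableAt ℂ (fun e => φ (c + e)) e := by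
      intro c hc e he
      exact (hball _ (hin (hmem c hc e he))).1.comp e (by fun_prop)
    have hf : ∀ c ∈ ball y r, HasFDerivAt (fun e => φ (c + e)) (fderiv ℂ φ c) 0 := by
      intro c hc
      have h1 : HasFDerivAt φ (fderiv ℂ φ c) (c + 0) := by
        rw [add_zero]
        exact (hball c (ball_subset_ball (by linarith) hc)).1.hasFDerivAt
      have h2 := h1.comp (0 : E) ((hasFDerivAt_id (𝕜 := ℂ) (0 : E)).const_add c)
      simpa [Function.comp_def] using h2
    have key := norm_fderiv_le_of_bound (φ := fun e => φ (a + e) - φ (b + e)) (y := 0)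
      (B := 2 * B / r * ‖a - b‖) hrpos
      (fun e he => ((hdd a ha e he).sub (hdd b hb e he)).differentiableWithinAt)
      (fun e he => by
        have := hlip _ (hmem a ha e he) _ (hmem b hb e he)
        simpa using this)
    rw [((hf a ha).fun_sub (hf b hb)).fderiv] at key
    calc _ ≤ _ := key
      _ = _ := by ring
  rw [contDiffAt_one_iff]
  refine ⟨fderiv ℂ φ, ball y r, ball_mem_nhds _ hrpos, ?_, fun z hz =>
    (hball z (ball_subset_ball (by linarith) hz)).1.hasFDerivAt⟩
  have : LipschitzOnWith (Real.toNNReal (2 * (2 * B / r) / r)) (fderiv ℂ φ) (ball y r) := by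
    refine LipschitzOnWith.of_dist_le' (fun a ha b hb => ?_)
    rw [dist_eq_norm, dist_eq_norm]
    exact hlip2 a ha b hb
  exact this.continuousOn

theorem contDiffAt_of_differentiableOn {φ : E → F} {O : Set E} {y : E}
    (h : DifferentiableOn ℂ φ O) (hO : O ∈ 𝓝 y) : ContDiffAt ℂ 1 φ y := by
  apply contDiffAt_of_eventually
  filter_upwards [interior_mem_nhds.mpr hO] with w hw
  exact h.differentiableAt (mem_interior_iff_mem_nhds.mp hw)

theorem contDiffAt_of_differentiable {φ : E → F} (h : Differentiable ℂ φ) (y : E) :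
    ContDiffAt ℂ 1 φ y :=
  contDiffAt_of_differentiableOn h.differentiableOn univ_mem

theorem hol_eventually {φ : E → F} {y : E} (h : ContDiffAt ℂ 1 φ y) :
    ∀ᶠ w in 𝓝 y, ContDiffAt ℂ 1 φ w := h.eventually (by simp)

theorem isOpen_hol (φ : E → F) : IsOpen {y | ContDiffAt ℂ 1 φ y} :=
  isOpen_iff_mem_nhds.mpr fun _ h => hol_eventually h

theorem hol_diff {φ : E → F} {y : E} (h : ContDiffAt ℂ 1 φ y) : DifferentiableAt ℂ φ y :=
  h.differentiableAt (by simp)

/-- Parametric integrals of holomorphic integrands are holomorphic. -/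
theorem contDiffAt_paramInt [FiniteDimensional ℂ E] {Φ : E × ℂ → ℂ} {γ : ℝ → ℂ}
    (hγ : Continuous γ) {a b : ℝ} {y₀ : E}
    (h : ∀ t ∈ uIcc a b, ContDiffAt ℂ 1 Φ (y₀, γ t)) :
    ContDiffAt ℂ 1 (fun y => ∫ t in a..b, Φ (y, γ t)) y₀ := by
  have : ProperSpace E := FiniteDimensional.proper_rclike ℂ E
  have hW := isOpen_hol Φ
  have hK : IsCompact (γ '' uIcc a b) := isCompact_uIcc.image hγ
  obtain ⟨u, v, hu, hv, hyu, hKv, huv⟩ := generalized_tube_lemma (isCompact_singleton (x := y₀))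
    hK hW (by
      rintro ⟨y, s⟩ ⟨hy, t, ht, rfl⟩
      rw [mem_singleton_iff] at hy
      simp only at hy
      subst hy
      exact h t ht)
  obtain ⟨r, hr, hru⟩ := Metric.nhds_basis_closedBall.mem_iff.mp
    (hu.mem_nhds (hyu (mem_singleton _)))
  have hall : ∀ y ∈ closedBall y₀ r, ∀ t ∈ uIcc a b, ContDiffAt ℂ 1 Φ (y, γ t) :=
    fun y hy t ht => huv ⟨hru hy, hKv ⟨t, ht, rfl⟩⟩
  have hcf : ContinuousOn (fderiv ℂ Φ) {p | ContDiffAt ℂ 1 Φ p} := fun p hp =>
    (ContDiffAt.continuousAt_fderiv (show ContDiffAt ℂ 1 Φ p from hp) (by simp)).continuousWithinAt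
  have hcpt : IsCompact (closedBall y₀ r ×ˢ (γ '' uIcc a b)) :=
    (isCompact_closedBall y₀ r).prod hK
  obtain ⟨C, hC⟩ := hcpt.exists_bound_of_continuousOn (hcf.mono (by
    rintro ⟨y, s⟩ ⟨hy, t, ht, rfl⟩
    exact hall y hy t ht))
  apply contDiffAt_of_eventually
  filter_upwards [ball_mem_nhds y₀ hr] with y hy
  have hcont : ∀ z ∈ closedBall y₀ r, ContinuousOn (fun t => Φ (z, γ t)) (uIcc a b) := by
    intro z hz t ht
    exact ((hall z hz t ht).continuousAt.comp (f := fun t => (z, γ t))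
      (by fun_prop)).continuousWithinAt
  have := intervalIntegral.hasFDerivAt_integral_of_dominated_of_fderiv_le (𝕜 := ℂ)
    (μ := MeasureTheory.volume) (a := a) (b := b) (bound := fun _ => C * 1)
    (F := fun y t => Φ (y, γ t))
    (F' := fun y t => (fderiv ℂ Φ (y, γ t)).comp (ContinuousLinearMap.inl ℂ E ℂ))
    (x₀ := y) (s := ball y₀ r) (isOpen_ball.mem_nhds hy) ?_ ?_ ?_ ?_ ?_ ?_
  · exact this.differentiableAt
  · filter_upwards [isOpen_ball.mem_nhds hy] with z hz
    exact ((hcont z (ball_subset_closedBall hz)).mono uIoc_subset_uIcc).aestronglyMeasurable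
      measurableSet_uIoc
  · exact (hcont y (ball_subset_closedBall hy)).intervalIntegrable
  · refine ContinuousOn.aestronglyMeasurable ?_ measurableSet_uIoc
    refine ContinuousOn.mono ?_ uIoc_subset_uIcc
    intro t ht
    have h1 : ContinuousAt (fun t => fderiv ℂ Φ (y, γ t)) t :=
      ((hall y (ball_subset_closedBall hy) t ht).continuousAt_fderiv (by simp)).comp
        (f := fun t => (y, γ t)) (by fun_prop)
    exact (h1.clm_comp continuousAt_const).continuousWithinAt
  · refine Filter.Eventually.of_forall fun t ht z hz => ?_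
    refine (ContinuousLinearMap.opNorm_comp_le _ _).trans ?_
    have h1 := hC (z, γ t) ⟨ball_subset_closedBall hz, t, uIoc_subset_uIcc ht, rfl⟩
    exact mul_le_mul h1 (ContinuousLinearMap.norm_inl_le_one ℂ E ℂ) (norm_nonneg _)
      ((norm_nonneg _).trans h1)
  · exact intervalIntegrable_const
  · refine Filter.Eventually.of_forall fun t ht z hz => ?_
    have h1 := (hol_diff (hall z (ball_subset_closedBall hz) t (uIoc_subset_uIcc ht))).hasFDerivAt
    exact h1.comp z (hasFDerivAt_prodMk_left z (γ t))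

/-- Identity theorem on a convex open set. -/
theorem dense_ne_zero {O : Set E} (hO : IsOpen O) (hc : Convex ℝ O) {Z : E → ℂ}
    (hZ : DifferentiableOn ℂ Z O) {y₀ : E} (hy₀ : y₀ ∈ O) (h0 : Z y₀ ≠ 0) :
    ∀ y ∈ O, ∃ᶠ w in 𝓝 y, Z w ≠ 0 := by
  intro y hy
  by_contra hcon
  rw [Filter.not_frequently] at hcon
  simp only [ne_eq, not_not] at hcon
  set l : ℂ → E := fun τ => y + τ • (y₀ - y) with hl
  have hlc : Continuous l := by fun_prop
  have hD : IsOpen (l ⁻¹' O) := hO.preimage hlc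
  have hDc : Convex ℝ (l ⁻¹' O) := by
    intro a ha b hb s t hs ht hst
    have := hc ha hb hs ht hst
    simp only [mem_preimage, hl]
    convert this using 1
    have h1 : y = s • y + t • y := by rw [← add_smul, hst, one_smul]
    simp only [hl, smul_add, add_smul, smul_assoc]
    nth_rewrite 1 [h1]
    abel
  have hA : AnalyticOnNhd ℂ (Z ∘ l) (l ⁻¹' O) :=
    (hZ.comp (by fun_prop) (mapsTo_preimage _ _)).analyticOnNhd hD
  have h00 : l 0 = y := by simp [hl]
  have hz : (Z ∘ l) =ᶠ[𝓝 0] 0 := by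
    have : Tendsto l (𝓝 0) (𝓝 y) := by
      rw [← h00]; exact hlc.continuousAt
    exact this.eventually hcon
  have := hA.eqOn_zero_of_preconnected_of_eventuallyEq_zero hDc.isPreconnected
    (show (0 : ℂ) ∈ l ⁻¹' O by simpa [hl] using hy) hz
    (show (1 : ℂ) ∈ l ⁻¹' O by simpa [hl] using hy₀)
  simp [hl] at this
  exact h0 this

end C1

end Pool.Agent.P.MP_eba2d2_an
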