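import Pool.Agent.P.MP_eba2d2_an.OkaField

set_option autoImplicit false

open Set Filter Topology Metric Complex

namespace Pool.Agent.P.MP_eba2d2_an

/-- The list of shears of one block. -/
def blk (l₁ l₂ : List ((ℂ × ℂ × ℂ → ℂ) × ℝ × ℝ)) (w : ℂ × ℂ) (p : ℂ × ℂ × ℂ) :
    List (ℂ × ℝ × ℝ) :=
  l₁.map (fun k => (w.1 * k.1 p, k.2)) ++ l₂.map (fun k => (w.2 * k.1 p, k.2))

theorem sum_scl (l : List ((ℂ × ℂ × ℂ → ℂ) × ℝ × ℝ)) (c : ℂ) (p : ℂ × ℂ × ℂ) (q : ℂ × ℂ) :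
    ((l.map (fun k => (c * k.1 p, k.2))).map fun k => vf k q).sum = c • fld l p q := by
  rw [fld, List.smul_sum, List.map_map, List.map_map]
  congr 1
  exact List.map_congr_left fun k _ => vf_scl c (k.1 p, k.2) q

theorem blk_sum (l₁ l₂ : List ((ℂ × ℂ × ℂ → ℂ) × ℝ × ℝ)) (w : ℂ × ℂ) (p : ℂ × ℂ × ℂ) (q : ℂ × ℂ) :
    ((blk l₁ l₂ w p).map fun k => vf k q).sum = w.1 • fld l₁ p q + w.2 • fld l₂ p q := by
  rw [blk, List.map_append, List.sum_append, sum_scl, sum_scl]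

theorem inv_sum (l : List (ℂ × ℝ × ℝ)) (q : ℂ × ℂ) :
    (((l.map (scl (-1))).reverse).map fun k => vf k q).sum = -(l.map fun k => vf k q).sum := by
  rw [List.map_reverse, List.sum_reverse, List.map_map]
  induction l with
  | nil => simp
  | cons k l ih =>
    simp only [List.map_cons, List.sum_cons, ih, Function.comp, vf_scl]
    simp [add_comm]

theorem blk_est {l₁ l₂ : List ((ℂ × ℂ × ℂ → ℂ) × ℝ × ℝ)} {w : ℂ × ℂ} {p : ℂ × ℂ × ℂ} {q : ℂ × ℂ}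
    {C κ n : ℝ} (hC : 0 ≤ C) (hn : ((l₁ ++ l₂).length : ℝ) ≤ n) (hw : ‖w‖ ≤ κ)
    (hκ : C * (3 * n * (κ * C)) ≤ 1)
    (h : ∀ k ∈ l₁ ++ l₂, |k.2.1| + |k.2.2| ≤ C ∧ ‖vf (k.1 p, k.2) q‖ ≤ C) :
    ‖run (blk l₁ l₂ w p) q - q - (w.1 • fld l₁ p q + w.2 • fld l₂ p q)‖
        ≤ 6 * n ^ 2 * C * (κ * C) ^ 2 ∧
      ‖run (((blk l₁ l₂ w p).map (scl (-1))).reverse) q - q
        + (w.1 • fld l₁ p q + w.2 • fld l₂ p q)‖ ≤ 6 * n ^ 2 * C * (κ * C) ^ 2 := by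
  have hκ0 : 0 ≤ κ := (norm_nonneg _).trans hw
  have hl : ∀ k ∈ blk l₁ l₂ w p, ‖vf k q‖ ≤ κ * C ∧ |k.2.1| + |k.2.2| ≤ C := by
    intro k hk
    rcases List.mem_append.mp hk with hk | hk
    · obtain ⟨k', hk', rfl⟩ := List.mem_map.mp hk
      obtain ⟨h1, h2⟩ := h k' (List.mem_append_left _ hk')
      refine ⟨?_, h1⟩
      rw [show vf (w.1 * k'.1 p, k'.2) q = _ from vf_scl w.1 (k'.1 p, k'.2) q, norm_smul]
      exact mul_le_mul ((norm_fst_le w).trans hw) h2 (norm_nonneg _) hκ0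
    · obtain ⟨k', hk', rfl⟩ := List.mem_map.mp hk
      obtain ⟨h1, h2⟩ := h k' (List.mem_append_right _ hk')
      refine ⟨?_, h1⟩
      rw [show vf (w.2 * k'.1 p, k'.2) q = _ from vf_scl w.2 (k'.1 p, k'.2) q, norm_smul]
      exact mul_le_mul ((norm_snd_le w).trans hw) h2 (norm_nonneg _) hκ0
  have hlen : ((blk l₁ l₂ w p).length : ℝ) ≤ n := by simpa [blk] using hn
  constructor
  · rw [← blk_sum]
    exact trotter (by positivity) hC _ hlen hκ hl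
  · rw [← blk_sum, ← sub_neg_eq_add, ← inv_sum]
    refine trotter (by positivity) hC _ (by simpa using hlen) hκ fun k hk => ?_
    obtain ⟨k', hk', rfl⟩ := List.mem_map.mp (List.mem_reverse.mp hk)
    rw [vf_scl, norm_smul]
    simpa [scl] using hl k' hk'

variable {E : Type*} [NormedAddCommGroup E] [NormedSpace ℂ E]

/-- Holomorphic families of self maps of the plane. -/
def Fam (T : Set E) (Φ : E → ℂ × ℂ → ℂ × ℂ) : Prop :=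
  ∀ ζ ∈ T, ∀ q, DifferentiableAt ℂ (fun a : E × (ℂ × ℂ) => Φ a.1 a.2) (ζ, q)

/-- Two sided closeness to the identity on the tube. -/
def Near (T : Set E) (W : ℂ) (δ ν : ℝ) (Φ : E → ℂ × ℂ → ℂ × ℂ) : Prop :=
  ∀ ζ ∈ T, ∀ q, (q ∈ Tube W δ ∨ Φ ζ q ∈ Tube W δ) → ‖Φ ζ q - q‖ ≤ ν

theorem Fam.comp {T : Set E} {Φ₁ Φ₂ : E → ℂ × ℂ → ℂ × ℂ} (h₁ : Fam T Φ₁) (h₂ : Fam T Φ₂) :
    Fam T fun ζ q => Φ₂ ζ (Φ₁ ζ q) := fun ζ hζ q =>
  (h₂ ζ hζ (Φ₁ ζ q)).comp (ζ, q) (f := fun a : E × (ℂ × ℂ) => (a.1, Φ₁ a.1 a.2))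
    (differentiableAt_fst.prodMk (h₁ ζ hζ q))

omit [NormedAddCommGroup E] [NormedSpace ℂ E] in
theorem Near.comp {T : Set E} {W : ℂ} {δ δ₁ δ₂ ν₁ ν₂ : ℝ} {Φ₁ Φ₂ : E → ℂ × ℂ → ℂ × ℂ}
    (h₁ : Near T W δ₁ ν₁ Φ₁) (h₂ : Near T W δ₂ ν₂ Φ₂) (a1 : δ ≤ δ₁) (a2 : δ + ν₁ ≤ δ₂)
    (a3 : δ ≤ δ₂) (a4 : δ + ν₂ ≤ δ₁) : Near T W δ (ν₁ + ν₂) fun ζ q => Φ₂ ζ (Φ₁ ζ q) := by
  intro ζ hζ q hq
  have key : ‖Φ₁ ζ q - q‖ ≤ ν₁ ∧ ‖Φ₂ ζ (Φ₁ ζ q) - Φ₁ ζ q‖ ≤ ν₂ := by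
    rcases hq with hq | hq
    · have b1 := h₁ ζ hζ q (Or.inl (Tube.mono hq a1))
      exact ⟨b1, h₂ ζ hζ _ (Or.inl (Tube.mono (Tube.add hq b1) a2))⟩
    · have b2 := h₂ ζ hζ _ (Or.inr (Tube.mono hq a3))
      exact ⟨h₁ ζ hζ q (Or.inr (Tube.mono (Tube.add hq (by rwa [norm_sub_rev])) a4)), b2⟩
  have := norm_add_le (Φ₂ ζ (Φ₁ ζ q) - Φ₁ ζ q) (Φ₁ ζ q - q)
  rw [sub_add_sub_cancel] at this
  linarith [key.1, key.2]

theorem exists_block {M : ℝ} (hM : 0 ≤ M) {W : ℂ} (hW : (W ^ 3).re ≤ 0) :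
    ∃ δ > 0, ∀ η₀ > 0, ∃ C ≥ 0, ∃ κ₀ > 0, ∀ κ : ℝ, κ ≤ κ₀ → ∀ (T : Set E) (P : E → ℂ × ℂ × ℂ)
      (q' : E → ℂ × ℂ), (∀ ζ ∈ T, DifferentiableAt ℂ P ζ ∧ DifferentiableAt ℂ q' ζ ∧ ‖P ζ‖ ≤ M ∧
        (P ζ).2.1 - 1 = (P ζ).1 * ((P ζ).2.1 ^ 2 - (P ζ).2.2 ^ 3) ∧ ‖q' ζ - (P ζ).2‖ ≤ κ) →
      ∃ Φ, Fam T Φ ∧ (∀ ζ ∈ T, Φ ζ (P ζ).2 = q' ζ) ∧
        Near T W δ (2 * κ * η₀ + 2 * C * κ ^ 2) Φ := by
  obtain ⟨δ, hδ, hδ1, hfield⟩ := exists_field hM hW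
  refine ⟨δ / 2, by positivity, fun η₀ hη₀ => ?_⟩
  obtain ⟨l₁, l₂, hl, hf⟩ := hfield η₀ hη₀
  obtain ⟨C₀, hC₀, hb⟩ := list_bdd W M (l₁ ++ l₂) hl
  set n : ℝ := ((l₁ ++ l₂).length : ℝ) with hn
  have hn0 : 0 ≤ n := Nat.cast_nonneg _
  set C := 6 * n ^ 2 * C₀ ^ 3 with hC
  have hC0 : 0 ≤ C := by positivity
  refine ⟨C, hC0, min 1 (min (1 / (3 * n * C₀ ^ 2 + 1)) (δ / (2 * (C + 1)))), by positivity,
    fun κ hκ T P q' hP => ?_⟩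
  have hκ1 : κ ≤ 1 := hκ.trans (min_le_left _ _)
  have hκ2 : κ * (3 * n * C₀ ^ 2 + 1) ≤ 1 := by
    have := hκ.trans ((min_le_right _ _).trans (min_le_left _ _))
    rwa [le_div_iff₀ (by positivity)] at this
  have hκ3 : κ * (2 * (C + 1)) ≤ δ := by
    have := hκ.trans ((min_le_right _ _).trans (min_le_right _ _))
    rwa [le_div_iff₀ (by positivity)] at this
  set w : E → ℂ × ℂ := fun ζ => q' ζ - (P ζ).2 with hw
  refine ⟨fun ζ q => run (blk l₁ l₂ (w ζ) (P ζ)) q + (q' ζ - run (blk l₁ l₂ (w ζ) (P ζ)) (P ζ).2),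
    fun ζ hζ q => ?_, fun ζ _ => by simp, fun ζ hζ q hq => ?_⟩
  · obtain ⟨h1, h2, -⟩ := hP ζ hζ
    have h1' : DifferentiableAt ℂ (fun a : E × (ℂ × ℂ) => P a.1) (ζ, q) :=
      h1.comp (ζ, q) differentiableAt_fst
    have h2' : DifferentiableAt ℂ (fun a : E × (ℂ × ℂ) => q' a.1) (ζ, q) :=
      h2.comp (ζ, q) differentiableAt_fst
    set L : List ((E × (ℂ × ℂ) → ℂ) × ℝ × ℝ) :=
      l₁.map (fun k => (fun a => (w a.1).1 * k.1 (P a.1), k.2)) ++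
        l₂.map (fun k => (fun a => (w a.1).2 * k.1 (P a.1), k.2)) with hL
    have hLe : ∀ a : E × (ℂ × ℂ), blk l₁ l₂ (w a.1) (P a.1) = L.map fun k => (k.1 a, k.2) := by
      intro a
      simp [blk, hL, Function.comp_def]
    have hLd : ∀ k ∈ L, DifferentiableAt ℂ k.1 (ζ, q) := by
      intro k hk
      rcases List.mem_append.mp hk with hk | hk
      · obtain ⟨k', hk', rfl⟩ := List.mem_map.mp hk
        exact (h2'.sub h1'.snd).fst.mul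
          (((hl k' (List.mem_append_left _ hk')).1 _).comp (ζ, q) h1')
      · obtain ⟨k', hk', rfl⟩ := List.mem_map.mp hk
        exact (h2'.sub h1'.snd).snd.mul
          (((hl k' (List.mem_append_right _ hk')).1 _).comp (ζ, q) h1')
    simp only [hLe]
    exact (run_diff L hLd differentiableAt_snd).add (h2'.sub (run_diff L hLd h1'.snd))
  · obtain ⟨-, -, h3, h4, h5⟩ := hP ζ hζ
    have hκ0 : 0 ≤ κ := (norm_nonneg _).trans h5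
    have hest : ∀ q, (q ∈ Tube W 1 ∨ ‖q‖ ≤ M) → _ := fun q hq =>
      blk_est (l₁ := l₁) (l₂ := l₂) (w := w ζ) (p := P ζ) (q := q) hC₀ le_rfl h5 (by nlinarith)
        fun k hk => ⟨(hb k hk).1, (hb k hk).2 _ h3 q hq⟩
    have eC : 6 * n ^ 2 * C₀ * (κ * C₀) ^ 2 = C * κ ^ 2 := by rw [hC]; ring
    simp only [← hn, eC] at hest
    obtain ⟨hf1, hf2⟩ := hf (P ζ) h3
    have hS : ∀ q ∈ Tube W δ, ‖(w ζ).1 • fld l₁ (P ζ) q + (w ζ).2 • fld l₂ (P ζ) q‖ ≤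
        2 * κ * η₀ := by
      intro q hq
      refine (norm_add_le _ _).trans ?_
      rw [norm_smul, norm_smul]
      have b1 := mul_le_mul ((norm_fst_le _).trans h5) (hf2 q hq).1 (norm_nonneg _) hκ0
      have b2 := mul_le_mul ((norm_snd_le _).trans h5) (hf2 q hq).2 (norm_nonneg _) hκ0
      linarith
    have he : ‖q' ζ - run (blk l₁ l₂ (w ζ) (P ζ)) (P ζ).2‖ ≤ C * κ ^ 2 := by
      have := (hest (P ζ).2 (Or.inr ((norm_snd_le _).trans h3))).1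
      rw [(hf1 h4).1, (hf1 h4).2] at this
      have e : (w ζ).1 • ((1 : ℂ), (0 : ℂ)) + (w ζ).2 • ((0 : ℂ), (1 : ℂ)) = w ζ := by
        ext <;> simp
      rw [e, hw, sub_sub, add_sub_cancel] at this
      rw [norm_sub_rev]
      exact this
    have hCκ : C * κ ^ 2 ≤ δ / 2 := by
      have : κ ^ 2 ≤ κ := by nlinarith
      nlinarith
    set e := q' ζ - run (blk l₁ l₂ (w ζ) (P ζ)) (P ζ).2 with hedef
    set q₁ := run (blk l₁ l₂ (w ζ) (P ζ)) q with hq₁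
    have key : ‖q₁ - q‖ ≤ 2 * κ * η₀ + C * κ ^ 2 := by
      rcases hq with hq | hq
      · have b1 := (hest q (Or.inl (Tube.mono hq (by linarith)))).1
        have b2 := hS q (Tube.mono hq (by linarith))
        have := norm_add_le (q₁ - q - ((w ζ).1 • fld l₁ (P ζ) q + (w ζ).2 • fld l₂ (P ζ) q))
          ((w ζ).1 • fld l₁ (P ζ) q + (w ζ).2 • fld l₂ (P ζ) q)
        rw [sub_add_cancel] at this
        linarith
      · have hq1 : q₁ ∈ Tube W δ := Tube.mono (Tube.add (ν := C * κ ^ 2) hq (by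
          rw [show q₁ - (run (blk l₁ l₂ (w ζ) (P ζ)) q +
            (q' ζ - run (blk l₁ l₂ (w ζ) (P ζ)) (P ζ).2)) = -e by rw [hq₁, hedef]; abel, norm_neg]
          exact he)) (by linarith)
        have b1 := (hest q₁ (Or.inl (Tube.mono hq1 (by linarith)))).2
        have b2 := hS q₁ hq1
        rw [hq₁, run_inv, ← hq₁] at b1
        have := norm_sub_le (q - q₁ + ((w ζ).1 • fld l₁ (P ζ) q₁ + (w ζ).2 • fld l₂ (P ζ) q₁))
          ((w ζ).1 • fld l₁ (P ζ) q₁ + (w ζ).2 • fld l₂ (P ζ) q₁)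
        rw [add_sub_cancel_right, norm_sub_rev] at this
        linarith
    have := norm_add_le (q₁ - q) e
    rw [show q₁ + e - q = q₁ - q + e by abel]
    linarith

theorem exists_chain {M : ℝ} (hM : 0 ≤ M) {W : ℂ} (hW : (W ^ 3).re ≤ 0) :
    ∃ δ > 0, ∀ η > 0, ∀ Λ : ℝ, 0 ≤ Λ → ∀ (T : Set E) (P : ℝ → E → ℂ × ℂ × ℂ),
      (∀ t ∈ Icc (0 : ℝ) 1, ∀ ζ ∈ T, DifferentiableAt ℂ (P t) ζ ∧ ‖P t ζ‖ ≤ M ∧
        (P t ζ).2.1 - 1 = (P t ζ).1 * ((P t ζ).2.1 ^ 2 - (P t ζ).2.2 ^ 3)) →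
      (∀ s ∈ Icc (0 : ℝ) 1, ∀ t ∈ Icc (0 : ℝ) 1, ∀ ζ ∈ T,
        ‖(P s ζ).2 - (P t ζ).2‖ ≤ Λ * |s - t|) →
      ∃ Φ, Fam T Φ ∧ (∀ ζ ∈ T, Φ ζ (P 0 ζ).2 = (P 1 ζ).2) ∧ Near T W δ η Φ := by
  obtain ⟨δ, hδ, hblock⟩ := exists_block (E := E) hM hW
  refine ⟨δ / 2, by positivity, fun η hη Λ hΛ T P hP hLip => ?_⟩
  set η' := min η (δ / 2) with hη'
  have hη'0 : 0 < η' := lt_min hη (by positivity)
  obtain ⟨C, hC, κ₀, hκ₀, hb⟩ := hblock (η' / (4 * (Λ + 1))) (by positivity)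
  obtain ⟨J, hJ⟩ := exists_nat_ge (max 1 (max (Λ / κ₀) (4 * C * Λ ^ 2 / η')))
  have hJ1 : (1 : ℝ) ≤ J := (le_max_left _ _).trans hJ
  have hJ0 : (0 : ℝ) < J := by linarith
  have hJ2 : Λ / J ≤ κ₀ := by
    have := (le_max_left _ _).trans ((le_max_right _ _).trans hJ)
    rw [div_le_iff₀ hκ₀] at this
    rw [div_le_iff₀ hJ0]
    linarith
  have hJ3 : 4 * C * Λ ^ 2 ≤ J * η' := by
    have := (le_max_right _ _).trans ((le_max_right _ _).trans hJ)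
    rwa [div_le_iff₀ hη'0] at this
  set ν := 2 * (Λ / J) * (η' / (4 * (Λ + 1))) + 2 * C * (Λ / J) ^ 2 with hν
  have hν0 : 0 ≤ ν := by positivity
  have hJν : J * ν ≤ η' := by
    have e : J * ν = Λ / (Λ + 1) * (η' / 2) + 2 * C * Λ ^ 2 / J := by
      rw [hν]; field_simp; ring
    have h1 : Λ / (Λ + 1) ≤ 1 := by rw [div_le_one (by positivity)]; linarith
    have h2 : 2 * C * Λ ^ 2 / J ≤ η' / 2 := by rw [div_le_iff₀ hJ0]; linarith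
    have h3 := mul_le_mul_of_nonneg_right h1 (show 0 ≤ η' / 2 by positivity)
    linarith
  have main : ∀ j : ℕ, j ≤ J → ∃ Φ, Fam T Φ ∧ (∀ ζ ∈ T, Φ ζ (P 0 ζ).2 = (P (j / J) ζ).2) ∧
      Near T W (δ - j * ν) (j * ν) Φ := by
    intro j
    induction j with
    | zero =>
      intro _
      exact ⟨fun _ q => q, fun _ _ _ => differentiableAt_snd, fun ζ _ => by simp,
        fun ζ _ q _ => by simp⟩
    | succ j ih =>
      intro hj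
      obtain ⟨Φ₁, a1, a2, a3⟩ := ih (by omega)
      have hj' : (j : ℝ) + 1 ≤ J := by exact_mod_cast hj
      have hj0 : (0 : ℝ) ≤ j := Nat.cast_nonneg _
      have m1 : (j : ℝ) / J ∈ Icc (0 : ℝ) 1 :=
        ⟨by positivity, by rw [div_le_one hJ0]; linarith⟩
      have m2 : ((j : ℝ) + 1) / J ∈ Icc (0 : ℝ) 1 :=
        ⟨by positivity, by rw [div_le_one hJ0]; linarith⟩
      obtain ⟨Φ₂, b1, b2, b3⟩ := hb (Λ / J) hJ2 T (P (j / J)) (fun ζ => (P ((j + 1) / J) ζ).2)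
        fun ζ hζ => ⟨(hP _ m1 ζ hζ).1, (hP _ m2 ζ hζ).1.snd, (hP _ m1 ζ hζ).2.1,
          (hP _ m1 ζ hζ).2.2, (hLip _ m2 _ m1 ζ hζ).trans (le_of_eq (by
            rw [← sub_div, add_sub_cancel_left, abs_of_pos (by positivity)]
            ring))⟩
      have hjν : 0 ≤ j * ν := by positivity
      refine ⟨fun ζ q => Φ₂ ζ (Φ₁ ζ q), a1.comp b1, fun ζ hζ => ?_, ?_⟩
      · simp only [a2 ζ hζ, b2 ζ hζ, Nat.cast_add, Nat.cast_one]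
      · push_cast
        rw [add_mul (j : ℝ) 1 ν, one_mul]
        exact a3.comp b3 (by linarith) (by linarith) (by linarith) (by linarith)
  obtain ⟨Φ, a1, a2, a3⟩ := main J le_rfl
  rw [div_self hJ0.ne'] at a2
  refine ⟨Φ, a1, a2, fun ζ hζ q hq => (a3 ζ hζ q ?_).trans (hJν.trans (min_le_left _ _))⟩
  have : δ / 2 ≤ δ - J * ν := by linarith [min_le_right η (δ / 2)]
  exact hq.imp (fun h => Tube.mono h this) (fun h => Tube.mono h this)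

end Pool.Agent.P.MP_eba2d2_an
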