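import Pool.Agent.P.MP_eba2d2_an.OkaGlue

set_option autoImplicit false

open Set Filter Topology Metric Complex

namespace Pool.Agent.P.MP_eba2d2_an

/-- Real coordinates on `ι → ℂ`. -/
def co {ι : Type} (k : ι × Bool) (w : ι → ℂ) : ℝ := if k.2 then (w k.1).re else (w k.1).im

@[simp] theorem co_true {ι : Type} (i : ι) (w : ι → ℂ) : co (i, true) w = (w i).re := rfl
@[simp] theorem co_false {ι : Type} (i : ι) (w : ι → ℂ) : co (i, false) w = (w i).im := rfl

theorem continuous_co {ι : Type} (k : ι × Bool) : Continuous (co k) := by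
  obtain ⟨i, b⟩ := k
  cases b
  · exact continuous_im.comp (continuous_apply i)
  · exact continuous_re.comp (continuous_apply i)

section

variable {E : Type} [NormedAddCommGroup E] [NormedSpace ℂ E] {ι : Type}

/-- Real coordinates attached to a linear map. -/
noncomputable def XL (Λ : E →L[ℂ] (ι → ℂ)) (k : ι × Bool) (y : E) : ℝ := co k (Λ y)

theorem continuous_XL (Λ : E →L[ℂ] (ι → ℂ)) (k : ι × Bool) : Continuous (XL Λ k) :=
  (continuous_co k).comp Λ.continuous

theorem XL_inj {Λ : E →L[ℂ] (ι → ℂ)} (hΛ : Function.Injective Λ) (y y' : E)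
    (h : ∀ k, XL Λ k y = XL Λ k y') : y = y' := by
  apply hΛ
  funext i
  exact Complex.ext (h (i, true)) (h (i, false))

theorem isCompact_Pol [Fintype ι] [FiniteDimensional ℂ E] {Λ : E →L[ℂ] (ι → ℂ)}
    (hΛ : Function.Injective Λ) (lo hi : ι × Bool → ℝ) : IsCompact (Pol (XL Λ) lo hi) := by
  have h1 : IsClosedEmbedding Λ :=
    LinearMap.isClosedEmbedding_of_injective (f := (Λ : E →ₗ[ℂ] (ι → ℂ)))
      (LinearMap.ker_eq_bot.mpr hΛ)
  have h2 : IsCompact (Set.pi univ fun i : ι =>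
      Icc (lo (i, true)) (hi (i, true)) ×ℂ Icc (lo (i, false)) (hi (i, false))) :=
    isCompact_univ_pi fun i => isCompact_Icc.reProdIm isCompact_Icc
  convert h1.isCompact_preimage h2 using 1
  ext y
  constructor
  · intro h i _
    exact ⟨h (i, true), h (i, false)⟩
  · rintro h ⟨i, b⟩
    cases b
    · exact (h i trivial).2
    · exact (h i trivial).1

theorem split_base [Fintype ι] [DecidableEq ι] [FiniteDimensional ℂ E] {Λ : E →L[ℂ] (ι → ℂ)}
    (hΛ : Function.Injective Λ) (hs : Function.Surjective Λ) (lo hi : ι × Bool → ℝ)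
    (k : ι × Bool) (c : ℝ) : SplitAt (Pol (XL Λ) lo hi) (XL Λ k) c := by
  intro φ hφ
  by_cases hne : ∃ y₀ ∈ Pol (XL Λ) lo hi, XL Λ k y₀ = c
  swap
  · refine ⟨0, 0, fun _ _ _ => contDiffAt_const, fun _ _ _ => contDiffAt_const,
      fun y hy hc => (hne ⟨y, hy, hc⟩).elim⟩
  obtain ⟨y₀, hy₀, hc₀⟩ := hne
  obtain ⟨j, b⟩ := k
  obtain ⟨e, he⟩ := hs (Pi.single j 1)
  set lam : E →L[ℂ] ℂ := (ContinuousLinearMap.proj j).comp Λ with hlam
  have hlam' : ∀ y, lam y = Λ y j := fun y => rfl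
  have hmove : ∀ y (s : ℂ), Λ (y + (s - lam y) • e) = Function.update (Λ y) j s := by
    intro y s
    funext i
    rw [map_add, map_smul, he]
    by_cases hi : i = j
    · subst hi; simp [hlam']
    · simp [hi]
  have hmem : ∀ y ∈ Pol (XL Λ) lo hi, ∀ s : ℂ, s.re ∈ Icc (lo (j, true)) (hi (j, true)) →
      s.im ∈ Icc (lo (j, false)) (hi (j, false)) → y + (s - lam y) • e ∈ Pol (XL Λ) lo hi := by
    rintro y hy s h1 h2 ⟨i, b'⟩
    by_cases hi : i = j
    · subst hi
      cases b'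
      · simpa [XL, hmove] using h2
      · simpa [XL, hmove] using h1
    · have := hy (i, b')
      cases b'
      · simpa [XL, hmove, hi] using this
      · simpa [XL, hmove, hi] using this
  have hP := isCompact_Pol hΛ lo hi
  cases b
  · have hc : c ∈ Icc (lo (j, false)) (hi (j, false)) := hc₀ ▸ hy₀ (j, false)
    obtain ⟨B, T, R, L, hB, hT, hR, hL, hsum⟩ := four_split (φ := φ) (lam := lam) (e := e) hP
      (α := lo (j, true)) (β := hi (j, true)) (γ := c) (δ := c)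
      ((hy₀ (j, true)).1.trans (hy₀ (j, true)).2) le_rfl (fun y hy s h1 h2 => by
        have h3 : s.im = c := le_antisymm h2.2 h2.1
        exact hφ _ (hmem y hy s h1 (h3 ▸ hc)) (by simpa [XL, hmove] using h3))
    refine ⟨fun w => T w - R w + L w, B, fun y hy h => ?_, fun y hy h => hB y hy h,
      fun y hy h => ?_⟩
    · exact ((hT y hy h).sub (hR y hy (hy (j, true)).2)).add (hL y hy (hy (j, true)).1)
    · filter_upwards [hsum y hy (hy (j, true)) ⟨h.ge, h.le⟩] with w hw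
      rw [hw]; ring
  · have hc : c ∈ Icc (lo (j, true)) (hi (j, true)) := hc₀ ▸ hy₀ (j, true)
    obtain ⟨B, T, R, L, hB, hT, hR, hL, hsum⟩ := four_split (φ := φ) (lam := lam) (e := e) hP
      (α := c) (β := c) (γ := lo (j, false)) (δ := hi (j, false))
      le_rfl ((hy₀ (j, false)).1.trans (hy₀ (j, false)).2) (fun y hy s h1 h2 => by
        have h3 : s.re = c := le_antisymm h1.2 h1.1
        exact hφ _ (hmem y hy s (h3 ▸ hc) h2) (by simpa [XL, hmove] using h3))
    refine ⟨fun w => -(B w - T w + R w), fun w => -L w, fun y hy h => ?_,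
      fun y hy h => (hL y hy h).neg, fun y hy h => ?_⟩
    · exact (((hB y hy (hy (j, false)).1).sub (hT y hy (hy (j, false)).2)).add (hR y hy h)).neg
    · filter_upwards [hsum y hy ⟨h.ge, h.le⟩ (hy (j, false))] with w hw
      rw [hw]; ring

theorem split_step [Fintype ι] [DecidableEq ι] [FiniteDimensional ℂ E] {Λ : E →L[ℂ] (ι → ℂ)}
    {Λ' : E × ℂ →L[ℂ] (ι → ℂ)} (hΛ' : Function.Injective Λ') (h0 : ∀ y, Λ' (y, 0) = Λ y)
    (hs : ∀ lo hi k c, SplitAt (Pol (XL Λ') lo hi) (XL Λ' k) c) (lo hi : ι × Bool → ℝ)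
    (k : ι × Bool) (c : ℝ) : SplitAt (Pol (XL Λ) lo hi) (XL Λ k) c := by
  intro φ hφ
  have hX : ∀ k y, XL Λ' k (y, 0) = XL Λ k y := fun k y => by simp only [XL, h0]
  have hPol : ∀ y, (y, 0) ∈ Pol (XL Λ') lo hi ↔ y ∈ Pol (XL Λ) lo hi := fun y => by
    simp only [Pol, mem_ofPred_eq, hX]
  set U : Bool → Set (E × ℂ) := fun b =>
    if b then {p | ContDiffAt ℂ 1 φ p.1} else {p | p.2 ≠ 0} with hU
  set h : Bool → E × ℂ → ℂ := fun b => if b then fun p => φ p.1 else fun _ => 0 with hh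
  have hhol : ∀ b, ∀ p ∈ U b, ContDiffAt ℂ 1 (h b) p := by
    intro b p hp
    cases b
    · exact contDiffAt_const
    · exact ContDiffAt.comp p (g := φ) hp contDiffAt_fst
  have hd : CData (fun p : E × ℂ => p.2) U h := by
    refine ⟨fun b => ?_, fun b p _ => ?_, fun b b' p hp hp' => ?_⟩
    · cases b
      · exact isOpen_ne.preimage continuous_snd
      · exact (isOpen_hol φ).preimage continuous_fst
    · exact dense_ne_zero isOpen_univ convex_univ (Z := fun p : E × ℂ => p.2) (by fun_prop)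
        (mem_univ ((0 : E), (1 : ℂ))) one_ne_zero p (mem_univ _)
    · by_cases hp2 : p.2 = 0
      · cases b
        · exact (hp hp2).elim
        · cases b'
          · exact (hp' hp2).elim
          · exact ZD.zero.congr' fun w => by ring
      · exact ZD.of_ne contDiffAt_snd hp2 ((hhol b p hp).sub (hhol b' p hp'))
  obtain ⟨H, hH⟩ := sol_pol hd (continuous_XL Λ') (XL_inj hΛ') (isCompact_Pol hΛ') hs
    (Function.update lo k (max (lo k) c)) (Function.update hi k (min (hi k) c)) (by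
      rw [Pol_inter]
      rintro ⟨y, w⟩ ⟨hp, h1, h2⟩
      by_cases hw : w = 0
      · subst hw
        exact ⟨true, hφ y ((hPol y).mp hp) (by rw [← hX]; exact le_antisymm h2 h1)⟩
      · exact ⟨false, hw⟩)
  rw [Pol_inter] at hH
  obtain ⟨a, b, ha, hb, hab⟩ := hs lo hi k c H fun p hp hc => by
    obtain ⟨j, hj, h1⟩ := hH p ⟨hp, hc.ge, hc.le⟩
    have := (h1.hol contDiffAt_snd).add (hhol j p hj)
    simpa using this
  have hin : ∀ y : E, ContDiffAt ℂ 1 (fun y : E => ((y, 0) : E × ℂ)) y := fun y => by fun_prop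
  refine ⟨fun y => a (y, 0), fun y => b (y, 0), fun y hy hc => ?_, fun y hy hc => ?_,
    fun y hy hc => ?_⟩
  · exact (ha (y, 0) ((hPol y).mpr hy) (by rwa [hX])).comp y (hin y)
  · exact (hb (y, 0) ((hPol y).mpr hy) (by rwa [hX])).comp y (hin y)
  · have hc' : XL Λ' k (y, 0) = c := by rwa [hX]
    obtain ⟨j, hj, g, -, hg⟩ := hH (y, 0) ⟨(hPol y).mpr hy, hc'.ge, hc'.le⟩
    cases j
    · exact (hj rfl).elim
    · filter_upwards [(hin y).continuousAt.eventually hg,
        (hin y).continuousAt.eventually (hab (y, 0) ((hPol y).mpr hy) hc')] with w h1 h2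
      simp only [hh, if_true, zero_mul] at h1
      rw [← h2]
      linear_combination (-1 : ℂ) * h1

end

theorem split_pol_aux {ι : Type} [Fintype ι] [DecidableEq ι] (d : ℕ) :
    ∀ (E : Type) [NormedAddCommGroup E] [NormedSpace ℂ E] [FiniteDimensional ℂ E]
      (Λ : E →L[ℂ] (ι → ℂ)), Function.Injective Λ → Module.finrank ℂ E + d = Fintype.card ι →
      ∀ lo hi k c, SplitAt (Pol (XL Λ) lo hi) (XL Λ k) c := by
  induction d with
  | zero =>
    intro E _ _ _ Λ hΛ hd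
    refine split_base hΛ ?_
    exact (LinearMap.injective_iff_surjective_of_finrank_eq_finrank (f := (Λ : E →ₗ[ℂ] (ι → ℂ)))
      (by simpa using hd)).mp hΛ
  | succ d ih =>
    intro E _ _ _ Λ hΛ hd
    have hns : ¬ Function.Surjective Λ := by
      intro hs
      have := LinearMap.finrank_le_finrank_of_surjective (f := (Λ : E →ₗ[ℂ] (ι → ℂ))) hs
      simp at this
      omega
    obtain ⟨w₀, hw₀⟩ : ∃ w₀, ∀ y, Λ y ≠ w₀ := by
      simpa [Function.Surjective] using hns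
    set Λ' : E × ℂ →L[ℂ] (ι → ℂ) := Λ.coprod (ContinuousLinearMap.toSpanSingleton ℂ w₀) with hΛ'
    have hap : ∀ y (w : ℂ), Λ' (y, w) = Λ y + w • w₀ := fun y w => rfl
    have hinj : Function.Injective Λ' := by
      rw [injective_iff_map_eq_zero]
      rintro ⟨y, w⟩ h
      rw [hap] at h
      by_cases hw : w = 0
      · subst hw
        simp only [zero_smul, add_zero] at h
        rw [hΛ (h.trans (map_zero Λ).symm)]
        rfl
      · exfalso
        apply hw₀ ((-w⁻¹) • y)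
        rw [map_smul, eq_neg_of_add_eq_zero_left h, smul_neg, neg_smul, neg_neg, smul_smul,
          inv_mul_cancel₀ hw, one_smul]
    refine split_step hinj (fun y => by simp [hap]) (ih (E × ℂ) Λ' hinj ?_)
    simp only [Module.finrank_prod, Module.finrank_self]
    omega

variable {E : Type} [NormedAddCommGroup E] [NormedSpace ℂ E] [FiniteDimensional ℂ E]

theorem split_pol {ι : Type} [Fintype ι] [DecidableEq ι] {Λ : E →L[ℂ] (ι → ℂ)}
    (hΛ : Function.Injective Λ) : ∀ lo hi k c, SplitAt (Pol (XL Λ) lo hi) (XL Λ k) c := by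
  have := LinearMap.finrank_le_finrank_of_injective (f := (Λ : E →ₗ[ℂ] (ι → ℂ))) hΛ
  simp only [Module.finrank_fintype_fun_eq_card] at this
  obtain ⟨d, hd⟩ := Nat.exists_eq_add_of_le this
  exact split_pol_aux d E Λ hΛ hd.symm

omit [FiniteDimensional ℂ E] in
/-- Finitely many half spaces cut a compact set down to a neighbourhood of a convex set. -/
theorem exists_halfspaces {L B O : Set E} (hL : IsClosed L) (hc : Convex ℝ L) (hB : IsCompact B)
    (hO : IsOpen O) (hLO : L ⊆ O) : ∃ t : Finset ((E →L[ℂ] ℂ) × ℝ),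
      (∀ p ∈ t, ∀ y ∈ L, (p.1 y).re ≤ p.2) ∧ ∀ y ∈ B, (∀ p ∈ t, (p.1 y).re ≤ p.2) → y ∈ O := by
  classical
  have key : ∀ y ∈ B \ O, ∃ p : (E →L[ℂ] ℂ) × ℝ, (∀ w ∈ L, (p.1 w).re ≤ p.2) ∧ p.2 < (p.1 y).re := by
    intro y hy
    obtain ⟨f, u, h1, h2⟩ := geometric_hahn_banach_closed_point hc hL fun h => hy.2 (hLO h)
    have hre : ∀ w, ((f.extendRCLike : E →L[ℂ] ℂ) w).re = f w := fun w =>
      StrongDual.re_extendRCLike_apply (𝕜 := ℂ) f w
    exact ⟨(f.extendRCLike, u), fun w hw => by rw [hre]; exact (h1 w hw).le, by rw [hre]; exact h2⟩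
  choose! p hp1 hp2 using key
  obtain ⟨s, hs1, hs2, hs3⟩ := (hB.diff hO).elim_finite_subcover_image
    (b := B \ O) (c := fun y => {w | (p y).2 < ((p y).1 w).re})
    (fun y _ => isOpen_lt continuous_const (by fun_prop))
    (fun y hy => mem_biUnion hy (hp2 y hy))
  refine ⟨hs2.toFinset.image p, ?_, fun y hy h => ?_⟩
  · intro q hq
    obtain ⟨y, hy, rfl⟩ := Finset.mem_image.mp hq
    exact hp1 y (hs1 (hs2.mem_toFinset.mp hy))
  · by_contra hyO
    obtain ⟨w, hw, hlt⟩ := mem_iUnion₂.mp (hs3 ⟨hy, hyO⟩)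
    exact absurd (h (p w) (Finset.mem_image_of_mem p (hs2.mem_toFinset.mpr hw))) (not_le.mpr hlt)

theorem exists_pol {L O : Set E} (hL : IsCompact L) (hc : Convex ℝ L) (hO : IsOpen O)
    (hLO : L ⊆ O) (lam : E →L[ℂ] ℂ) : ∃ (ι : Type) (_ : Fintype ι) (_ : DecidableEq ι)
      (Λ : E →L[ℂ] (ι → ℂ)) (j : ι) (lo hi : ι × Bool → ℝ), Function.Injective Λ ∧
      (∀ y, Λ y j = lam y) ∧ L ⊆ Pol (XL Λ) lo hi ∧ Pol (XL Λ) lo hi ⊆ O := by
  classical
  set n := Module.finrank ℂ E with hn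
  set e : E ≃L[ℂ] (Fin n → ℂ) := (Module.finBasis ℂ E).equivFunL with he
  obtain ⟨R, hR⟩ := hL.isBounded.subset_closedBall 0
  have hbd : ∀ μ : E →L[ℂ] ℂ, ∀ y ∈ L, ‖μ y‖ ≤ ‖μ‖ * R := fun μ y hy =>
    (μ.le_opNorm y).trans (mul_le_mul_of_nonneg_left (mem_closedBall_zero_iff.mp (hR hy))
      (norm_nonneg _))
  set μ₀ : Fin n → E →L[ℂ] ℂ := fun i =>
    (ContinuousLinearMap.proj i).comp (e : E →L[ℂ] (Fin n → ℂ)) with hμ₀
  obtain ⟨t, ht1, ht2⟩ := exists_halfspaces hL.isClosed hc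
    (isCompact_Pol (Λ := (e : E →L[ℂ] (Fin n → ℂ))) e.injective
      (fun k => -(‖μ₀ k.1‖ * R)) (fun k => ‖μ₀ k.1‖ * R)) hO hLO
  set μ : Fin n ⊕ (Unit ⊕ t) → E →L[ℂ] ℂ :=
    Sum.elim μ₀ (Sum.elim (fun _ => lam) fun q => q.1.1) with hμ
  set cut : Fin n ⊕ (Unit ⊕ t) → ℝ :=
    Sum.elim (fun i => ‖μ₀ i‖ * R) (Sum.elim (fun _ => ‖lam‖ * R) fun q => q.1.2) with hcut
  refine ⟨Fin n ⊕ (Unit ⊕ t), inferInstance, inferInstance, ContinuousLinearMap.pi μ,
    Sum.inr (Sum.inl ()), fun k => -(‖μ k.1‖ * R), fun k => if k.2 then cut k.1 else ‖μ k.1‖ * R,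
    ?_, fun y => rfl, ?_, ?_⟩
  · intro y y' h
    apply e.injective
    funext i
    exact congrFun h (Sum.inl i)
  · rintro y hy ⟨i, b⟩
    have h1 := abs_le.mp ((abs_re_le_norm _).trans (hbd (μ i) y hy))
    have h2 := abs_le.mp ((abs_im_le_norm _).trans (hbd (μ i) y hy))
    cases b
    · exact h2
    · refine ⟨h1.1, ?_⟩
      rcases i with i | i | q
      · exact h1.2
      · exact h1.2
      · exact ht1 q.1 q.2 y hy
  · intro y hy
    refine ht2 y ?_ fun p hp => (hy (Sum.inr (Sum.inr ⟨p, hp⟩), true)).2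
    rintro ⟨i, b⟩
    cases b
    · exact hy (Sum.inl i, false)
    · exact hy (Sum.inl i, true)

/-- Additive splitting on compact convex sets. -/
theorem split_convex {L : Set E} (hL : IsCompact L) (hc : Convex ℝ L) (lam : E →L[ℂ] ℂ) (c : ℝ) :
    SplitAt L (fun y => (lam y).re) c := by
  intro φ hφ
  obtain ⟨ι, _, _, Λ, j, lo, hi, hΛ, hj, h1, h2⟩ := exists_pol hL hc
    (O := {y | ContDiffAt ℂ 1 φ y} ∪ {y | (lam y).re ≠ c})
    ((isOpen_hol φ).union (isOpen_ne.preimage (f := fun y => (lam y).re) (by fun_prop)))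
    (fun y hy => by
      by_cases h : (lam y).re = c
      · exact Or.inl (hφ y hy h)
      · exact Or.inr h) lam
  have hX : ∀ y, XL Λ (j, true) y = (lam y).re := fun y => by simp [XL, hj]
  obtain ⟨a, b, ha, hb, hab⟩ := split_pol hΛ lo hi (j, true) c φ fun y hy h =>
    (h2 hy).elim id fun h' => (h' (by rwa [hX] at h)).elim
  exact ⟨a, b, fun y hy h => ha y (h1 hy) (by rwa [hX]), fun y hy h => hb y (h1 hy) (by rwa [hX]),
    fun y hy h => hab y (h1 hy) (by rwa [hX])⟩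

/-- The Cousin problem modulo `Z` is solvable on compact convex sets. -/
theorem cousin_convex {L : Set E} (hL : IsCompact L) (hc : Convex ℝ L) {Z : E → ℂ} {J : Type}
    {U : J → Set E} {h : J → E → ℂ} (hd : CData Z U h) (hU : ∀ y ∈ L, ∃ j, y ∈ U j) :
    ∃ H : E → ℂ, ∀ y ∈ L, ∀ j, y ∈ U j → ZD Z (fun w => H w - h j w) y := by
  obtain ⟨ι, _, _, Λ, j, lo, hi, hΛ, -, h1, h2⟩ := exists_pol hL hc (O := ⋃ j, U j)
    (isOpen_iUnion hd.isOpen) (fun y hy => mem_iUnion.mpr (hU y hy)) 0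
  obtain ⟨H, hH⟩ := sol_pol hd (continuous_XL Λ) (XL_inj hΛ) (isCompact_Pol hΛ) (split_pol hΛ)
    lo hi fun y hy => mem_iUnion.mp (h2 hy)
  refine ⟨H, fun y hy j hj => ?_⟩
  obtain ⟨j', hj', h3⟩ := hH y (h1 hy)
  exact (h3.add (hd.compat j' j y hj' hj)).congr' fun w => by ring

end Pool.Agent.P.MP_eba2d2_an
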