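import Pool.Agent.P.MP_eba2d2_an.OkaSep

set_option autoImplicit false

open Set Filter Topology Metric Complex

namespace Pool.Agent.P.MP_eba2d2_an

theorem ES.diff {a₀ : ℝ} {H : ℂ × ℂ × ℂ → ℂ × ℂ → ℂ} (h : ES a₀ H) (p : ℂ × ℂ × ℂ) :
    Differentiable ℂ (H p) := by
  obtain ⟨l, h1, h2⟩ := h
  have : H p = fun q => (l.map fun k => k.1 p * cexp (lin k.2.1 k.2.2 q)).sum := funext (h2 p)
  rw [this]
  clear h1 h2 this
  induction l with
  | nil => simp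
  | cons k l ih =>
    simp only [List.map_cons, List.sum_cons]
    refine Differentiable.fun_add ?_ ih
    simp only [lin]
    fun_prop

/-- The total field of a list. -/
noncomputable def fld (l : List ((ℂ × ℂ × ℂ → ℂ) × ℝ × ℝ)) (p : ℂ × ℂ × ℂ) (q : ℂ × ℂ) : ℂ × ℂ :=
  (l.map fun k => vf (k.1 p, k.2) q).sum

theorem ES.field {a₀ : ℝ} {H : ℂ × ℂ × ℂ → ℂ × ℂ → ℂ} (h : ES a₀ H) :
    ∃ l : List ((ℂ × ℂ × ℂ → ℂ) × ℝ × ℝ), (∀ k ∈ l, Differentiable ℂ k.1 ∧ a₀ ≤ k.2.1) ∧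
      ∀ p q, HasDerivAt (fun τ : ℂ => H p (q + (τ, 0))) (-(fld l p q).2) 0 ∧
        HasDerivAt (fun τ : ℂ => H p (q + (0, τ))) (fld l p q).1 0 := by
  obtain ⟨l, h1, h2⟩ := h
  refine ⟨l, h1, fun p q => ?_⟩
  have := hasDerivAt_list (l.map fun k => (k.1 p, k.2)) q
  simp only [List.map_map, Function.comp_def] at this
  simp only [h2, fld]
  exact this

theorem field_small {H : ℂ × ℂ → ℂ} (hH : Differentiable ℂ H) {F q : ℂ × ℂ} {W : ℂ} {δ β : ℝ}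
    (hδ : 0 < δ) (hq : q ∈ Tube W δ) (hβ : ∀ q ∈ Tube W (2 * δ), ‖H q‖ ≤ β)
    (h1 : HasDerivAt (fun τ : ℂ => H (q + (τ, 0))) (-F.2) 0)
    (h2 : HasDerivAt (fun τ : ℂ => H (q + (0, τ))) F.1 0) : ‖F‖ ≤ 2 * β / δ := by
  rw [Prod.norm_def]
  refine max_le ?_ ?_
  · rw [← h2.deriv, norm_deriv_eq_norm_fderiv]
    refine norm_fderiv_le_of_bound hδ (by fun_prop) fun τ hτ => hβ _ ?_
    rw [two_mul]
    exact Tube.add hq (by simpa [Prod.norm_def] using (mem_ball_zero_iff.mp hτ).le)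
  · rw [← norm_neg, ← h1.deriv, norm_deriv_eq_norm_fderiv]
    refine norm_fderiv_le_of_bound hδ (by fun_prop) fun τ hτ => hβ _ ?_
    rw [two_mul]
    exact Tube.add hq (by simpa [Prod.norm_def] using (mem_ball_zero_iff.mp hτ).le)

theorem ES_exp1 (a : ℝ) : ES a fun p q => cexp (a * (q.1 - p.2.1)) :=
  (ES.term (c := fun p => cexp (-(a * p.2.1))) (by fun_prop) a 0).congr fun p q => by
    rw [← exp_add]; congr 1; simp only [lin]; push_cast; ring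

theorem ES_exp2 (b : ℝ) : ES 0 fun p q => cexp (b * (q.2 - p.2.2)) :=
  (ES.term (c := fun p => cexp (-(b * p.2.2))) (by fun_prop) 0 b).congr fun p q => by
    rw [← exp_add]; congr 1; simp only [lin]; push_cast; ring

theorem dc_eq {σ : ℝ} (hσ : σ ≠ 0) (u q : ℂ) :
    dc σ u q = u + (σ : ℂ)⁻¹ * (cexp (σ * (q - u)) - 1) := by
  have : (σ : ℂ) ≠ 0 := by exact_mod_cast hσ
  rw [dc, ← mul_E1]
  field_simp

theorem ES_one : ES 0 fun _ _ => 1 := ES.const (c := fun _ => 1) (differentiable_const _)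

theorem ES_Th {ε σ : ℝ} (hσ : 0 < σ) : ES ε (Th ε σ) := by
  have h1 : ES 0 fun p q => dc σ p.2.1 q.1 :=
    ((ES.const (c := fun p => p.2.1) (by fun_prop)).add
      ((ES.const (c := fun _ => (σ : ℂ)⁻¹) (differentiable_const _)).mul0
        (((ES_exp1 σ).mono hσ.le).sub ES_one))).congr fun p q => dc_eq hσ.ne' _ _
  have h2 : ES 0 fun p q => dc σ p.2.2 q.2 :=
    ((ES.const (c := fun p => p.2.2) (by fun_prop)).add
      ((ES.const (c := fun _ => (σ : ℂ)⁻¹) (differentiable_const _)).mul0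
        ((ES_exp2 σ).sub ES_one))).congr fun p q => dc_eq hσ.ne' _ _
  exact ((h1.sub ((ES.const (c := fun p => p.1) (by fun_prop)).mul0
    ((h1.pow 2).sub (h2.pow 3)))).mul0 (ES_exp1 ε)).congr fun p q => rfl

theorem norm_base_le {Q : ℂ} {N : ℝ} (hN : 1 ≤ N) (h1 : Q.re ≤ -(1 / 2)) (h2 : ‖Q‖ ≤ N) :
    ‖1 + ((2 * N ^ 2 : ℝ) : ℂ)⁻¹ * Q‖ ≤ 1 - 1 / (8 * N ^ 2) := by
  set t : ℝ := (2 * N ^ 2)⁻¹ with ht
  have hN2 : 1 ≤ N ^ 2 := one_le_pow₀ hN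
  have ht0 : 0 < t := by positivity
  have ht1 : t * (2 * N ^ 2) = 1 := by rw [ht]; field_simp
  have e : 1 / (8 * N ^ 2) = t / 4 := by rw [ht]; field_simp; norm_num
  have ht2 : t ≤ 1 := by nlinarith
  rw [e, ← ofReal_inv, ← ht]
  have h3 : Q.re ^ 2 + Q.im ^ 2 ≤ N ^ 2 := by
    have := pow_le_pow_left₀ (norm_nonneg _) h2 2
    rw [Complex.sq_norm, normSq_apply] at this
    linarith
  refine le_of_sq_le_sq ?_ (by linarith)
  rw [Complex.sq_norm, normSq_apply]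
  simp only [add_re, one_re, re_ofReal_mul, add_im, one_im, im_ofReal_mul, zero_add]
  have h4 := mul_le_mul_of_nonneg_left h3 (sq_nonneg t)
  have h5 := mul_le_mul_of_nonneg_left h1 ht0.le
  nlinarith

theorem exists_field {M : ℝ} (hM : 0 ≤ M) {W : ℂ} (hW : (W ^ 3).re ≤ 0) :
    ∃ δ > 0, 2 * δ ≤ 1 ∧ ∀ η₀ > 0, ∃ l₁ l₂ : List ((ℂ × ℂ × ℂ → ℂ) × ℝ × ℝ),
      (∀ k ∈ l₁ ++ l₂, Differentiable ℂ k.1 ∧ 0 < k.2.1) ∧ ∀ p : ℂ × ℂ × ℂ, ‖p‖ ≤ M →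
        (p.2.1 - 1 = p.1 * (p.2.1 ^ 2 - p.2.2 ^ 3) →
          fld l₁ p p.2 = (1, 0) ∧ fld l₂ p p.2 = (0, 1)) ∧
        ∀ q ∈ Tube W δ, ‖fld l₁ p q‖ ≤ η₀ ∧ ‖fld l₂ p q‖ ≤ η₀ := by
  obtain ⟨ε, hε, σ, hσ, δ, hδ, hδ1, hsep⟩ := exists_sep hM hW
  refine ⟨δ, hδ, hδ1, fun η₀ hη₀ => ?_⟩
  obtain ⟨M', hM'0, hM'⟩ := (ES_Th (ε := ε) hσ).bdd W M hε
  set N := M' + 1 with hN
  have hN1 : 1 ≤ N := by linarith
  set b : ℂ × ℂ × ℂ → ℂ × ℂ → ℂ := fun p q => 1 + ((2 * N ^ 2 : ℝ) : ℂ)⁻¹ * (Th ε σ p q - 1)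
    with hb
  have hbES : ES 0 b := ES_one.add ((ES.const (c := fun _ => ((2 * N ^ 2 : ℝ) : ℂ)⁻¹)
    (differentiable_const _)).mul0 (((ES_Th hσ).mono hε.le).sub ES_one))
  set θ := 1 - 1 / (8 * N ^ 2) with hθ
  have hθ1 : θ < 1 := by
    have : 0 < 1 / (8 * N ^ 2) := by positivity
    linarith
  have hbθ : ∀ p, ‖p‖ ≤ M → ∀ q ∈ Tube W (2 * δ), ‖b p q‖ ≤ θ := by
    intro p hp q hq
    refine norm_base_le hN1 ?_ ?_
    · rw [sub_re, one_re]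
      linarith [hsep p hp q hq]
    · refine (norm_sub_le _ _).trans ?_
      rw [norm_one]
      linarith [hM' p hp q (Tube.mono hq hδ1)]
  have hA1 : ES ε fun p q => (cexp ((1 : ℝ) * (q.2 - p.2.2)) - 1) * cexp (ε * (q.1 - p.2.1)) :=
    ((ES_exp2 1).sub ES_one).mul0 (ES_exp1 ε)
  have hA2 : ES ε fun p q => (1 - cexp ((1 : ℝ) * (q.1 - p.2.1))) * cexp (ε * (q.1 - p.2.1)) :=
    (ES_one.sub ((ES_exp1 1).mono zero_le_one)).mul0 (ES_exp1 ε)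
  obtain ⟨C₁, hC₁0, hC₁⟩ := hA1.bdd W M hε
  obtain ⟨C₂, hC₂0, hC₂⟩ := hA2.bdd W M hε
  obtain ⟨m, hm⟩ := exists_pow_lt_of_lt_one
    (show 0 < η₀ * δ / (2 * (C₁ + C₂ + 1)) by positivity) hθ1
  have hm' : 2 * (θ ^ m * (C₁ + C₂ + 1)) / δ ≤ η₀ := by
    rw [lt_div_iff₀ (by positivity)] at hm
    rw [div_le_iff₀ hδ]
    linarith
  have hH1 := (hbES.pow m).mul0 hA1
  have hH2 := (hbES.pow m).mul0 hA2
  obtain ⟨l₁, hl₁, hd₁⟩ := hH1.field
  obtain ⟨l₂, hl₂, hd₂⟩ := hH2.field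
  refine ⟨l₁, l₂, fun k hk => ?_, fun p hp => ⟨fun hrel => ?_, fun q hq => ⟨?_, ?_⟩⟩⟩
  · rcases List.mem_append.mp hk with hk | hk
    · exact ⟨(hl₁ k hk).1, hε.trans_le (hl₁ k hk).2⟩
    · exact ⟨(hl₂ k hk).1, hε.trans_le (hl₂ k hk).2⟩
  · have hb1 : b p p.2 = 1 := by
      simp only [hb, Th, dc, sub_self, mul_zero, zero_mul, add_zero, exp_zero, mul_one]
      rw [← hrel]
      ring
    have hbd := (hbES.pow m).diff p
    have hc1 : HasDerivAt (fun τ : ℂ => b p (p.2 + (τ, 0)) ^ m)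
        (deriv (fun τ : ℂ => b p (p.2 + (τ, 0)) ^ m) 0) 0 :=
      DifferentiableAt.hasDerivAt (hbd.differentiableAt.comp (0 : ℂ)
        (f := fun τ : ℂ => p.2 + (τ, 0)) (by fun_prop))
    have hc2 : HasDerivAt (fun τ : ℂ => b p (p.2 + (0, τ)) ^ m)
        (deriv (fun τ : ℂ => b p (p.2 + (0, τ)) ^ m) 0) 0 :=
      DifferentiableAt.hasDerivAt (hbd.differentiableAt.comp (0 : ℂ)
        (f := fun τ : ℂ => p.2 + (0, τ)) (by fun_prop))
    have he : HasDerivAt (fun τ : ℂ => cexp (ε * τ)) ε 0 := by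
      simpa using ((hasDerivAt_id (0 : ℂ)).const_mul (ε : ℂ)).cexp
    have he1 : HasDerivAt (fun τ : ℂ => cexp τ - 1) 1 0 := by
      simpa using (hasDerivAt_exp (0 : ℂ)).sub_const 1
    have he2 : HasDerivAt (fun τ : ℂ => 1 - cexp τ) (-1) 0 := by
      simpa using (hasDerivAt_exp (0 : ℂ)).const_sub 1
    obtain ⟨a1, a2⟩ := hd₁ p p.2
    obtain ⟨a3, a4⟩ := hd₂ p p.2
    simp only [Prod.fst_add, Prod.snd_add, add_sub_cancel_left, add_zero, sub_self, mul_zero,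
      exp_zero, zero_mul, mul_one, ofReal_one, one_mul] at a1 a2 a3 a4
    constructor
    · ext
      · have := a2.unique (hc2.fun_mul he1)
        simpa [Prod.mk_zero_zero, hb1] using this
      · simpa using a1.unique (hasDerivAt_const _ _)
    · ext
      · simpa using a4.unique (hasDerivAt_const _ _)
      · have := a3.unique (hc1.fun_mul (he2.fun_mul he))
        simpa [Prod.mk_zero_zero, hb1] using this
  · refine (field_small (hH1.diff p) hδ hq (β := θ ^ m * (C₁ + C₂ + 1)) (fun q' hq' => ?_)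
      (hd₁ p q).1 (hd₁ p q).2).trans hm'
    rw [norm_mul, norm_pow]
    exact mul_le_mul (pow_le_pow_left₀ (norm_nonneg _) (hbθ p hp q' hq') m)
      ((hC₁ p hp q' (Tube.mono hq' hδ1)).trans (by linarith)) (norm_nonneg _)
      (pow_nonneg ((norm_nonneg _).trans (hbθ p hp q' hq')) m)
  · refine (field_small (hH2.diff p) hδ hq (β := θ ^ m * (C₁ + C₂ + 1)) (fun q' hq' => ?_)
      (hd₂ p q).1 (hd₂ p q).2).trans hm'
    rw [norm_mul, norm_pow]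
    exact mul_le_mul (pow_le_pow_left₀ (norm_nonneg _) (hbθ p hp q' hq') m)
      ((hC₂ p hp q' (Tube.mono hq' hδ1)).trans (by linarith)) (norm_nonneg _)
      (pow_nonneg ((norm_nonneg _).trans (hbθ p hp q' hq')) m)

end Pool.Agent.P.MP_eba2d2_an
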