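import Pool.Agent.P.MP_eba2d2_an.OkaRect

set_option autoImplicit false

open Set Filter Topology Metric Complex

namespace Pool.Agent.P.MP_eba2d2_an

variable {E : Type*} [NormedAddCommGroup E] [NormedSpace ℂ E]

/-- The germ of `φ` at `y` is a holomorphic multiple of `Z`. -/
def ZD (Z φ : E → ℂ) (y : E) : Prop :=
  ∃ g : E → ℂ, ContDiffAt ℂ 1 g y ∧ ∀ᶠ w in 𝓝 y, φ w = Z w * g w

namespace ZD

variable {Z φ ψ : E → ℂ} {y : E}

theorem eventually (h : ZD Z φ y) : ∀ᶠ w in 𝓝 y, ZD Z φ w := by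
  obtain ⟨g, hg, h⟩ := h
  filter_upwards [hol_eventually hg, h.eventually_nhds] with w h1 h2
  exact ⟨g, h1, h2⟩

theorem congr (h : ZD Z φ y) (e : ∀ᶠ w in 𝓝 y, ψ w = φ w) : ZD Z ψ y := by
  obtain ⟨g, hg, h⟩ := h
  refine ⟨g, hg, ?_⟩
  filter_upwards [h, e] with w h1 h2
  rw [h2, h1]

theorem congr' (h : ZD Z φ y) (e : ∀ w, ψ w = φ w) : ZD Z ψ y :=
  h.congr (Eventually.of_forall e)

theorem add (h : ZD Z φ y) (h' : ZD Z ψ y) : ZD Z (fun w => φ w + ψ w) y := by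
  obtain ⟨g, hg, h⟩ := h
  obtain ⟨g', hg', h'⟩ := h'
  refine ⟨fun w => g w + g' w, hg.add hg', ?_⟩
  filter_upwards [h, h'] with w h1 h2
  rw [h1, h2, mul_add]

theorem mul_left (h : ZD Z φ y) (hψ : ContDiffAt ℂ 1 ψ y) : ZD Z (fun w => ψ w * φ w) y := by
  obtain ⟨g, hg, h⟩ := h
  refine ⟨fun w => ψ w * g w, hψ.mul hg, ?_⟩
  filter_upwards [h] with w h1
  rw [h1]; ring

theorem neg (h : ZD Z φ y) : ZD Z (fun w => -φ w) y :=
  (h.mul_left (ψ := fun _ => -1) contDiffAt_const).congr' fun w => by ring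

theorem sub (h : ZD Z φ y) (h' : ZD Z ψ y) : ZD Z (fun w => φ w - ψ w) y :=
  (h.add h'.neg).congr' fun w => by ring

theorem mul_self (hψ : ContDiffAt ℂ 1 ψ y) : ZD Z (fun w => Z w * ψ w) y :=
  ⟨ψ, hψ, Eventually.of_forall fun _ => rfl⟩

theorem zero : ZD Z (fun _ => 0) y :=
  (mul_self (ψ := fun _ => 0) contDiffAt_const).congr' fun w => by ring

theorem of_ne (hZ : ContDiffAt ℂ 1 Z y) (h0 : Z y ≠ 0) (hφ : ContDiffAt ℂ 1 φ y) : ZD Z φ y := by
  refine ⟨fun w => φ w / Z w, hφ.div hZ h0, ?_⟩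
  filter_upwards [hZ.continuousAt.eventually_ne h0] with w hw
  field_simp

theorem hol (h : ZD Z φ y) (hZ : ContDiffAt ℂ 1 Z y) : ContDiffAt ℂ 1 φ y := by
  obtain ⟨g, hg, h⟩ := h
  exact (hZ.mul hg).congr_of_eventuallyEq h

theorem cancel (h : ZD Z (fun w => ψ w * φ w) y) (hψ : ContDiffAt ℂ 1 ψ y) (h0 : ψ y ≠ 0) :
    ZD Z φ y := by
  refine (h.mul_left (ψ := fun w => (ψ w)⁻¹) (hψ.inv h0)).congr ?_
  filter_upwards [hψ.continuousAt.eventually_ne h0] with w hw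
  field_simp

end ZD

omit [NormedSpace ℂ E] in
theorem eq_of_mul_eq {Z g g' : E → ℂ} {y : E} (hN : ∃ᶠ w in 𝓝 y, Z w ≠ 0)
    (hg : ContinuousAt g y) (hg' : ContinuousAt g' y) (h : ∀ᶠ w in 𝓝 y, Z w * g w = Z w * g' w) :
    g y = g' y :=
  tendsto_nhds_unique_of_frequently_eq hg hg'
    ((hN.and_eventually h).mono fun _ hw => mul_left_cancel₀ hw.1 hw.2)

/-- A global quotient. -/
theorem exists_quot (Z φ : E → ℂ) : ∃ g : E → ℂ, ∀ y, (∀ᶠ w in 𝓝 y, ∃ᶠ v in 𝓝 w, Z v ≠ 0) →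
    ZD Z φ y → ContDiffAt ℂ 1 g y ∧ ∀ᶠ w in 𝓝 y, φ w = Z w * g w := by
  classical
  refine ⟨fun w => if h : ZD Z φ w then h.choose w else 0, fun y hN h => ?_⟩
  obtain ⟨g, hg, hφ⟩ := h
  have key : ∀ᶠ w in 𝓝 y, (if h : ZD Z φ w then h.choose w else 0) = g w := by
    filter_upwards [hN, hol_eventually hg, hφ.eventually_nhds] with w h1 h2 h3
    have h4 : ZD Z φ w := ⟨g, h2, h3⟩
    rw [dif_pos h4]
    refine eq_of_mul_eq h1 h4.choose_spec.1.continuousAt h2.continuousAt ?_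
    filter_upwards [h4.choose_spec.2, h3] with v h5 h6
    rw [← h5, h6]
  refine ⟨hg.congr_of_eventuallyEq key, ?_⟩
  filter_upwards [key, hφ] with w h1 h2
  rw [h1, h2]

/-- Additive splitting along the cut `x = c` of `S`. -/
def SplitAt (S : Set E) (x : E → ℝ) (c : ℝ) : Prop :=
  ∀ φ : E → ℂ, (∀ y ∈ S, x y = c → ContDiffAt ℂ 1 φ y) → ∃ a b : E → ℂ,
    (∀ y ∈ S, x y ≤ c → ContDiffAt ℂ 1 a y) ∧ (∀ y ∈ S, c ≤ x y → ContDiffAt ℂ 1 b y) ∧
    ∀ y ∈ S, x y = c → ∀ᶠ w in 𝓝 y, φ w = b w - a w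

/-- Cousin data modulo `Z`. -/
structure CData (Z : E → ℂ) {J : Type} (U : J → Set E) (h : J → E → ℂ) : Prop where
  isOpen : ∀ j, IsOpen (U j)
  nzd : ∀ j, ∀ y ∈ U j, ∃ᶠ v in 𝓝 y, Z v ≠ 0
  compat : ∀ j j', ∀ y ∈ U j, y ∈ U j' → ZD Z (fun w => h j w - h j' w) y

/-- The Cousin problem is solvable near `S`. -/
def Sol (Z : E → ℂ) {J : Type} (U : J → Set E) (h : J → E → ℂ) (S : Set E) : Prop :=
  ∃ H : E → ℂ, ∀ y ∈ S, ∃ j, y ∈ U j ∧ ZD Z (fun w => H w - h j w) y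

variable {Z : E → ℂ} {J : Type} {U : J → Set E} {h : J → E → ℂ}

theorem Sol.mono {S T : Set E} (hS : Sol Z U h S) (hT : T ⊆ S) : Sol Z U h T := by
  obtain ⟨H, hH⟩ := hS
  exact ⟨H, fun y hy => hH y (hT hy)⟩

theorem Sol.glue (hd : CData Z U h) {S : Set E} {x : E → ℝ} (hx : Continuous x) {c : ℝ}
    (hs : SplitAt S x c) (hA : Sol Z U h (S ∩ {y | x y ≤ c})) (hB : Sol Z U h (S ∩ {y | c ≤ x y})) :
    Sol Z U h S := by
  classical
  obtain ⟨HA, hA⟩ := hA
  obtain ⟨HB, hB⟩ := hB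
  obtain ⟨g, hg⟩ := exists_quot Z (fun w => HA w - HB w)
  have hC : ∀ y ∈ S, x y = c → ContDiffAt ℂ 1 g y ∧ ∀ᶠ w in 𝓝 y, HA w - HB w = Z w * g w := by
    intro y hy hc
    obtain ⟨j, hj, h1⟩ := hA y ⟨hy, hc.le⟩
    obtain ⟨j', hj', h2⟩ := hB y ⟨hy, hc.ge⟩
    refine hg y ?_ (((h1.sub h2).add (hd.compat j j' y hj hj')).congr' fun w => by ring)
    filter_upwards [(hd.isOpen j).mem_nhds hj] with w hw
    exact hd.nzd j w hw
  obtain ⟨a, b, ha, hb, hab⟩ := hs g fun y hy hc => (hC y hy hc).1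
  refine ⟨fun w => if x w ≤ c then HA w + Z w * a w else HB w + Z w * b w, fun y hy => ?_⟩
  by_cases hc : x y ≤ c
  · obtain ⟨j, hj, h1⟩ := hA y ⟨hy, hc⟩
    refine ⟨j, hj, (h1.add (ZD.mul_self (ha y hy hc))).congr ?_⟩
    rcases hc.eq_or_lt with hc | hc
    · filter_upwards [(hC y hy hc).2, hab y hy hc] with w h2 h3
      split_ifs
      · ring
      · linear_combination (-1 : ℂ) * h2 - Z w * h3
    · filter_upwards [hx.continuousAt.eventually (Iio_mem_nhds hc)] with w hw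
      rw [if_pos (le_of_lt hw)]
      ring
  · push Not at hc
    obtain ⟨j, hj, h1⟩ := hB y ⟨hy, hc.le⟩
    refine ⟨j, hj, (h1.add (ZD.mul_self (hb y hy hc.le))).congr ?_⟩
    filter_upwards [hx.continuousAt.eventually (Ioi_mem_nhds hc)] with w hw
    rw [if_neg (not_le.mpr hw)]
    ring

theorem exists_slab {X : Type*} [TopologicalSpace X] {S W : Set X} (hS : IsCompact S)
    (hW : IsOpen W) {x : X → ℝ} (hx : Continuous x) {c : ℝ} (h : ∀ y ∈ S, x y ≤ c → y ∈ W) :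
    ∃ ε > 0, ∀ y ∈ S, x y ≤ c + ε → y ∈ W := by
  have hc : IsCompact (S \ W) := hS.diff hW
  rcases (S \ W).eq_empty_or_nonempty with he | hne
  · refine ⟨1, one_pos, fun y hy _ => ?_⟩
    by_contra hy'
    exact (he ▸ (show y ∈ S \ W from ⟨hy, hy'⟩) : y ∈ (∅ : Set X))
  · obtain ⟨y₀, hy₀, hmin⟩ := hc.exists_isMinOn hne hx.continuousOn
    have h0 : c < x y₀ := lt_of_not_ge fun h' => hy₀.2 (h y₀ hy₀.1 h')
    refine ⟨(x y₀ - c) / 2, by linarith, fun y hy hy' => ?_⟩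
    by_contra hyW
    have : x y₀ ≤ x y := hmin ⟨hy, hyW⟩
    linarith

theorem Sol.of_slices (hd : CData Z U h) {S : Set E} (hS : IsCompact S) {x : E → ℝ}
    (hx : Continuous x) (hs : ∀ t c, SplitAt (S ∩ {y | x y ≤ t}) x c)
    (hsl : ∀ c, Sol Z U h (S ∩ {y | x y = c})) : Sol Z U h S := by
  set G : Set ℝ := {t | Sol Z U h (S ∩ {y | x y ≤ t})} with hG
  have hlow : ∀ t ∈ G, ∀ s ≤ t, s ∈ G := fun t ht s hs =>
    Sol.mono ht fun y hy => ⟨hy.1, le_trans hy.2 hs⟩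
  have key : ∀ c, ∃ ε > 0, ∀ t ∈ G, |t - c| < ε → c + ε ∈ G := by
    intro c
    obtain ⟨H, hH⟩ := hsl c
    have hWo : IsOpen {y | ∃ j, y ∈ U j ∧ ZD Z (fun w => H w - h j w) y} := by
      rw [isOpen_iff_mem_nhds]
      rintro y ⟨j, hj, h1⟩
      filter_upwards [(hd.isOpen j).mem_nhds hj, h1.eventually] with w h2 h3
      exact ⟨j, h2, h3⟩
    obtain ⟨ε, hε, hεW⟩ := exists_slab hS hWo (x := fun y => |x y - c|) (by fun_prop) (c := 0)
      fun y hy h0 => hH y ⟨hy, sub_eq_zero.mp (abs_nonpos_iff.mp h0)⟩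
    refine ⟨ε, hε, fun t ht htc => ?_⟩
    refine Sol.glue hd hx (hs (c + ε) t) (Sol.mono ht fun y hy => ⟨hy.1.1, hy.2⟩)
      ⟨H, fun y hy => hεW y hy.1.1 ?_⟩
    have h1 : x y ≤ c + ε := hy.1.2
    have h2 : t ≤ x y := hy.2
    rw [abs_lt] at htc
    rw [zero_add, abs_le]
    constructor <;> linarith
  obtain ⟨M, hM⟩ := hS.exists_bound_of_continuousOn hx.continuousOn
  have hclopen : IsClopen G := by
    constructor
    · rw [← closure_subset_iff_isClosed]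
      intro c hc
      obtain ⟨ε, hε, hk⟩ := key c
      obtain ⟨t, ht, htc⟩ := Metric.mem_closure_iff.mp hc ε hε
      exact hlow _ (hk t ht (by rwa [dist_comm, Real.dist_eq] at htc)) c (by linarith)
    · rw [isOpen_iff_mem_nhds]
      intro c hc
      obtain ⟨ε, hε, hk⟩ := key c
      filter_upwards [Iic_mem_nhds (show c < c + ε by linarith)] with s hs
      exact hlow _ (hk c hc (by simpa using hε)) s hs
  have hne : G.Nonempty := by
    refine ⟨-M - 1, 0, fun y hy => ?_⟩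
    have h1 := abs_le.mp (hM y hy.1)
    have h2 : x y ≤ -M - 1 := hy.2
    linarith
  have : M ∈ G := by rw [hclopen.eq_univ hne]; trivial
  exact Sol.mono this fun y hy => ⟨hy, (abs_le.mp (hM y hy)).2⟩

/-- Boxes with respect to real coordinate functions. -/
def Pol {κ : Type} (X : κ → E → ℝ) (lo hi : κ → ℝ) : Set E :=
  {y | ∀ k, lo k ≤ X k y ∧ X k y ≤ hi k}

omit [NormedAddCommGroup E] [NormedSpace ℂ E] in
theorem Pol_inter {κ : Type} [DecidableEq κ] (X : κ → E → ℝ) (lo hi : κ → ℝ) (k : κ) (s t : ℝ) :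
    Pol X (Function.update lo k (max (lo k) s)) (Function.update hi k (min (hi k) t)) =
      Pol X lo hi ∩ {y | s ≤ X k y ∧ X k y ≤ t} := by
  ext y
  simp only [Pol, mem_ofPred_eq, mem_inter_iff]
  constructor
  · intro h
    have hk := h k
    simp only [Function.update_self, max_le_iff, le_min_iff] at hk
    refine ⟨fun k' => ?_, hk.1.2, hk.2.2⟩
    by_cases hk' : k' = k
    · subst hk'; exact ⟨hk.1.1, hk.2.1⟩
    · simpa [Function.update_of_ne hk'] using h k'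
  · rintro ⟨h, h1, h2⟩ k'
    by_cases hk' : k' = k
    · subst hk'
      simp only [Function.update_self, max_le_iff, le_min_iff]
      exact ⟨⟨(h k').1, h1⟩, (h k').2, h2⟩
    · simpa [Function.update_of_ne hk'] using h k'

theorem sol_pol (hd : CData Z U h) {κ : Type} [Fintype κ] [DecidableEq κ] {X : κ → E → ℝ}
    (hX : ∀ k, Continuous (X k)) (hinj : ∀ y y', (∀ k, X k y = X k y') → y = y')
    (hcpt : ∀ lo hi, IsCompact (Pol X lo hi))
    (hs : ∀ lo hi k c, SplitAt (Pol X lo hi) (X k) c) (lo hi : κ → ℝ)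
    (hU : ∀ y ∈ Pol X lo hi, ∃ j, y ∈ U j) : Sol Z U h (Pol X lo hi) := by
  suffices H : ∀ T : Finset κ, ∀ lo hi : κ → ℝ, (∀ k, k ∉ T → hi k ≤ lo k) →
      (∀ y ∈ Pol X lo hi, ∃ j, y ∈ U j) → Sol Z U h (Pol X lo hi) from
    H Finset.univ lo hi (by simp) hU
  intro T
  induction T using Finset.induction_on with
  | empty =>
    intro lo hi hT hU
    rcases (Pol X lo hi).eq_empty_or_nonempty with he | ⟨y₀, hy₀⟩
    · exact ⟨0, by simp [he]⟩
    · obtain ⟨j, hj⟩ := hU y₀ hy₀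
      refine ⟨h j, fun y hy => ⟨j, ?_, ZD.zero.congr' fun w => by ring⟩⟩
      rw [hinj y y₀ fun k => ?_]
      · exact hj
      · have := hT k (by simp)
        linarith [(hy k).1, (hy k).2, (hy₀ k).1, (hy₀ k).2]
  | insert k T hk ih =>
    intro lo hi hT hU
    refine Sol.of_slices hd (hcpt lo hi) (hX k) (fun t c => ?_) (fun c => ?_)
    · have := hs (Function.update lo k (max (lo k) (lo k))) (Function.update hi k (min (hi k) t)) k c
      rw [Pol_inter] at this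
      convert this using 1
      ext y
      exact ⟨fun hy => ⟨hy.1, (hy.1 k).1, hy.2⟩, fun hy => ⟨hy.1, hy.2.2⟩⟩
    · have := ih (Function.update lo k (max (lo k) c)) (Function.update hi k (min (hi k) c))
        (fun k' hk' => ?_) (fun y hy => ?_)
      · rw [Pol_inter] at this
        exact Sol.mono this fun y hy => ⟨hy.1, hy.2.ge, hy.2.le⟩
      · by_cases hkk : k' = k
        · subst hkk
          simp
        · rw [Function.update_of_ne hkk, Function.update_of_ne hkk]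
          exact hT k' (by simp [hkk, hk'])
      · rw [Pol_inter] at hy
        exact hU y hy.1

end Pool.Agent.P.MP_eba2d2_an
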