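import Pool.Agent.P.MP_eba2d2_an.OkaCousin
import Pool.Agent.P.MP_eba2d2_an.OkaAL

set_option autoImplicit false

open Set Filter Topology Metric Complex

namespace Pool.Agent.P.MP_eba2d2_an

/-- The equation of the surface. -/
def OnV (p : ℂ × ℂ × ℂ) : Prop :=
  2 * p.1 + p.1 ^ 2 * p.2.2 - 3 * p.2.1 - 3 * p.2.1 ^ 2 * p.2.2 - p.2.1 ^ 3 * p.2.2 ^ 2 = 1

theorem OnV.z_eq {p : ℂ × ℂ × ℂ} (h : OnV p) :
    (1 + p.1 * p.2.2) ^ 2 - (1 + p.2.1 * p.2.2) ^ 3 = p.2.2 := by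
  unfold OnV at h
  linear_combination p.2.2 * h

/-- Closed description of the ray. -/
def Ray' : Set (ℂ × ℂ) :=
  {q | q.1.im = 0 ∧ q.1.re ≤ 0 ∧ q.2.im = 0 ∧ 0 ≤ q.2.re ∧ q.1 ^ 2 = q.2 ^ 3}

theorem isClosed_Ray' : IsClosed Ray' := by
  have h1 : IsClosed {q : ℂ × ℂ | q.1.im = 0} := isClosed_eq (by fun_prop) continuous_const
  have h2 : IsClosed {q : ℂ × ℂ | q.1.re ≤ 0} := isClosed_le (by fun_prop) continuous_const
  have h3 : IsClosed {q : ℂ × ℂ | q.2.im = 0} := isClosed_eq (by fun_prop) continuous_const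
  have h4 : IsClosed {q : ℂ × ℂ | 0 ≤ q.2.re} := isClosed_le continuous_const (by fun_prop)
  have h5 : IsClosed {q : ℂ × ℂ | q.1 ^ 2 = q.2 ^ 3} := isClosed_eq (by fun_prop) (by fun_prop)
  exact h1.inter (h2.inter (h3.inter (h4.inter h5)))

theorem Ray'_subset : Ray' ⊆ Ray := by
  rintro ⟨a, b⟩ ⟨h1, h2, h3, h4, h5⟩
  simp only at h1 h2 h3 h4 h5
  lift a to ℝ using h1
  lift b to ℝ using h3
  simp only [ofReal_re] at h2 h4
  have h6 : a ^ 2 = b ^ 3 := by exact_mod_cast h5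
  have h7 : Real.sqrt b ^ 2 = b := Real.sq_sqrt h4
  have h8 : -a = Real.sqrt b ^ 3 := by
    refine (pow_left_inj₀ (by linarith) (by positivity) two_ne_zero).mp ?_
    rw [neg_sq, h6]
    nth_rewrite 1 [← h7]
    ring
  refine ⟨Real.sqrt b, Real.sqrt_nonneg b, ?_⟩
  ext
  · simp only
    exact_mod_cast (by linarith : a = -Real.sqrt b ^ 3)
  · simp only
    exact_mod_cast h7.symm

theorem not_Ray' {U V : ℂ} (h : (U, V) ∉ Ray') (hz : U ^ 2 - V ^ 3 = 0) :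
    V ≠ 0 ∧ U / V ∈ slitPlane := by
  have hV : V ≠ 0 := by
    rintro rfl
    have : U = 0 := by simpa using hz
    subst this
    exact h (by simp [Ray'])
  refine ⟨hV, ?_⟩
  by_contra hW
  rw [mem_slitPlane_iff] at hW
  push Not at hW
  obtain ⟨w, hw⟩ : ∃ w : ℝ, (w : ℂ) = U / V := ⟨(U / V).re, Complex.ext (by simp) (by simp [hW.2])⟩
  have hw0 : w ≤ 0 := by rw [← hw] at hW; simpa using hW.1
  have e2 : V = ((w ^ 2 : ℝ) : ℂ) := by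
    push_cast
    rw [hw]
    field_simp
    linear_combination -hz
  have e1 : U = ((w ^ 3 : ℝ) : ℂ) := by
    have : U = w * V := by rw [hw]; field_simp
    rw [this, e2]
    push_cast
    ring
  refine h ⟨by rw [e1]; exact ofReal_im _, ?_, by rw [e2]; exact ofReal_im _, ?_, by
    linear_combination hz⟩
  · rw [e1, ofReal_re]
    exact Odd.pow_nonpos (by decide) hw0
  · rw [e2, ofReal_re]
    positivity

/-- First auxiliary unit. -/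
def nn (x U V : ℂ) : ℂ := U - x * (U ^ 2 - V ^ 3)

/-- Second auxiliary unit. -/
def nm (y U V : ℂ) : ℂ := V - y * (U ^ 2 - V ^ 3)

/-- Defect. -/
def kap (x y U V : ℂ) : ℂ := 1 - 2 * nn x U V * x - x ^ 2 * (U ^ 2 - V ^ 3)
  + 3 * nm y U V ^ 2 * y + 3 * nm y U V * y ^ 2 * (U ^ 2 - V ^ 3) + y ^ 3 * (U ^ 2 - V ^ 3) ^ 2

/-- Scaling factor. -/
noncomputable def sc (x y U V θ : ℂ) : ℂ := nm y U V / nn x U V * cexp ((U ^ 2 - V ^ 3) * θ)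

/-- Numerator of the first coordinate. -/
noncomputable def ph1 (x y U V θ : ℂ) : ℂ :=
  cexp ((U ^ 2 - V ^ 3) * θ) ^ 3 * (nm y U V ^ 3 * x - nn x U V * kap x y U V) / nn x U V ^ 3
    + 3 * θ * E1 (3 * ((U ^ 2 - V ^ 3) * θ))

/-- Numerator of the second coordinate. -/
noncomputable def ph2 (x y U V θ : ℂ) : ℂ :=
  cexp ((U ^ 2 - V ^ 3) * θ) ^ 2 * (nm y U V ^ 2 * y - kap x y U V) / nn x U V ^ 2
    + 2 * θ * E1 (2 * ((U ^ 2 - V ^ 3) * θ))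

theorem ph1_eq {x y U V θ : ℂ} (h : nn x U V ≠ 0) :
    (U ^ 2 - V ^ 3) * ph1 x y U V θ = sc x y U V θ ^ 3 * U - 1 := by
  have e := mul_E1 (3 * ((U ^ 2 - V ^ 3) * θ))
  rw [show (3 : ℂ) * ((U ^ 2 - V ^ 3) * θ) = (3 : ℕ) * ((U ^ 2 - V ^ 3) * θ) by norm_num,
    exp_nat_mul] at e
  have k : (U ^ 2 - V ^ 3) * (nm y U V ^ 3 * x - nn x U V * kap x y U V) =
      nm y U V ^ 3 * U - nn x U V ^ 3 := by
    simp only [kap, nn, nm]; ring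
  rw [ph1, sc, mul_add, mul_pow, div_pow]
  rw [show (U ^ 2 - V ^ 3) * (cexp ((U ^ 2 - V ^ 3) * θ) ^ 3 *
    (nm y U V ^ 3 * x - nn x U V * kap x y U V) / nn x U V ^ 3) = cexp ((U ^ 2 - V ^ 3) * θ) ^ 3 *
    ((U ^ 2 - V ^ 3) * (nm y U V ^ 3 * x - nn x U V * kap x y U V)) / nn x U V ^ 3 by ring, k]
  push_cast at e
  generalize E1 (3 * ((U ^ 2 - V ^ 3) * θ)) = T at e ⊢
  generalize cexp ((U ^ 2 - V ^ 3) * θ) = S at e ⊢
  field_simp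
  linear_combination nn x U V ^ 3 * e

theorem ph2_eq {x y U V θ : ℂ} (h : nn x U V ≠ 0) :
    (U ^ 2 - V ^ 3) * ph2 x y U V θ = sc x y U V θ ^ 2 * V - 1 := by
  have e := mul_E1 (2 * ((U ^ 2 - V ^ 3) * θ))
  rw [show (2 : ℂ) * ((U ^ 2 - V ^ 3) * θ) = (2 : ℕ) * ((U ^ 2 - V ^ 3) * θ) by norm_num,
    exp_nat_mul] at e
  have k : (U ^ 2 - V ^ 3) * (nm y U V ^ 2 * y - kap x y U V) =
      nm y U V ^ 2 * V - nn x U V ^ 2 := by
    simp only [kap, nn, nm]; ring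
  rw [ph2, sc, mul_add, mul_pow, div_pow]
  rw [show (U ^ 2 - V ^ 3) * (cexp ((U ^ 2 - V ^ 3) * θ) ^ 2 *
    (nm y U V ^ 2 * y - kap x y U V) / nn x U V ^ 2) = cexp ((U ^ 2 - V ^ 3) * θ) ^ 2 *
    ((U ^ 2 - V ^ 3) * (nm y U V ^ 2 * y - kap x y U V)) / nn x U V ^ 2 by ring, k]
  push_cast at e
  generalize E1 (2 * ((U ^ 2 - V ^ 3) * θ)) = T at e ⊢
  generalize cexp ((U ^ 2 - V ^ 3) * θ) = S at e ⊢
  field_simp
  linear_combination nn x U V ^ 2 * e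

/-- The explicit local lift. -/
noncomputable def Phi (x y U V θ : ℂ) : ℂ × ℂ × ℂ :=
  (ph1 x y U V θ / sc x y U V θ ^ 6, ph2 x y U V θ / sc x y U V θ ^ 6,
    sc x y U V θ ^ 6 * (U ^ 2 - V ^ 3))

section cont

variable {X : Type*} [TopologicalSpace X] {x y U V θ : X → ℂ} {a : X}

theorem cont_sc (hx : ContinuousAt x a) (hy : ContinuousAt y a) (hU : ContinuousAt U a)
    (hV : ContinuousAt V a) (hθ : ContinuousAt θ a) (h : nn (x a) (U a) (V a) ≠ 0) :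
    ContinuousAt (fun w => sc (x w) (y w) (U w) (V w) (θ w)) a := by
  simp only [sc]
  refine ContinuousAt.mul (ContinuousAt.div ?_ ?_ h) ?_
  all_goals (try simp only [nn, nm]); fun_prop

theorem cont_ph1 (hx : ContinuousAt x a) (hy : ContinuousAt y a) (hU : ContinuousAt U a)
    (hV : ContinuousAt V a) (hθ : ContinuousAt θ a) (h : nn (x a) (U a) (V a) ≠ 0) :
    ContinuousAt (fun w => ph1 (x w) (y w) (U w) (V w) (θ w)) a := by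
  have := E1_cont
  simp only [ph1]
  refine ContinuousAt.add (ContinuousAt.div ?_ ?_ (pow_ne_zero _ h)) ?_
  all_goals (try simp only [kap, nn, nm]); fun_prop

theorem cont_ph2 (hx : ContinuousAt x a) (hy : ContinuousAt y a) (hU : ContinuousAt U a)
    (hV : ContinuousAt V a) (hθ : ContinuousAt θ a) (h : nn (x a) (U a) (V a) ≠ 0) :
    ContinuousAt (fun w => ph2 (x w) (y w) (U w) (V w) (θ w)) a := by
  have := E1_cont
  simp only [ph2]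
  refine ContinuousAt.add (ContinuousAt.div ?_ ?_ (pow_ne_zero _ h)) ?_
  all_goals (try simp only [kap, nn, nm]); fun_prop

end cont

theorem exists_close {Kv : Set (ℂ × ℂ × ℂ)} (hK : IsCompact Kv) (hV : ∀ p ∈ Kv, OnV p) {ε : ℝ}
    (hε : 0 < ε) : ∃ ε₂ > 0, ∀ p ∈ Kv, ∀ U V θ : ℂ, ‖U - (1 + p.1 * p.2.2)‖ ≤ ε₂ →
      ‖V - (1 + p.2.1 * p.2.2)‖ ≤ ε₂ → ‖θ‖ ≤ ε₂ → nn p.1 U V ≠ 0 ∧
        0 < (nm p.2.1 U V / nn p.1 U V).re ∧ ‖Phi p.1 p.2.1 U V θ - p‖ < ε := by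
  have key := hK.eventually_forall_of_forall_eventually (x₀ := (0 : ℂ × ℂ × ℂ))
    (P := fun d p => nn p.1 (1 + p.1 * p.2.2 + d.1) (1 + p.2.1 * p.2.2 + d.2.1) ≠ 0 ∧
      0 < (nm p.2.1 (1 + p.1 * p.2.2 + d.1) (1 + p.2.1 * p.2.2 + d.2.1) /
        nn p.1 (1 + p.1 * p.2.2 + d.1) (1 + p.2.1 * p.2.2 + d.2.1)).re ∧
      ‖Phi p.1 p.2.1 (1 + p.1 * p.2.2 + d.1) (1 + p.2.1 * p.2.2 + d.2.1) d.2.2 - p‖ < ε) (by
    intro p hp
    have hz := (hV p hp).z_eq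
    have h1 : nn p.1 (1 + p.1 * p.2.2) (1 + p.2.1 * p.2.2) = 1 := by rw [nn, hz]; ring
    have h2 : nm p.2.1 (1 + p.1 * p.2.2) (1 + p.2.1 * p.2.2) = 1 := by rw [nm, hz]; ring
    have h3 : kap p.1 p.2.1 (1 + p.1 * p.2.2) (1 + p.2.1 * p.2.2) = 0 := by
      have := hV p hp
      unfold OnV at this
      rw [kap, h1, h2, hz]
      linear_combination -this
    have h4 : sc p.1 p.2.1 (1 + p.1 * p.2.2) (1 + p.2.1 * p.2.2) 0 = 1 := by simp [sc, h1, h2]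
    have h5 : Phi p.1 p.2.1 (1 + p.1 * p.2.2) (1 + p.2.1 * p.2.2) 0 = p := by
      simp [Phi, ph1, ph2, h1, h2, h3, h4, hz]
    set X := (ℂ × ℂ × ℂ) × ℂ × ℂ × ℂ
    have cx : ContinuousAt (fun a : X => a.2.1) (0, p) := by fun_prop
    have cy : ContinuousAt (fun a : X => a.2.2.1) (0, p) := by fun_prop
    have cU : ContinuousAt (fun a : X => 1 + a.2.1 * a.2.2.2 + a.1.1) (0, p) := by fun_prop
    have cV : ContinuousAt (fun a : X => 1 + a.2.2.1 * a.2.2.2 + a.1.2.1) (0, p) := by fun_prop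
    have cθ : ContinuousAt (fun a : X => a.1.2.2) (0, p) := by fun_prop
    have hn : nn ((0 : ℂ × ℂ × ℂ), p).2.1 (1 + ((0 : ℂ × ℂ × ℂ), p).2.1 * ((0 : ℂ × ℂ × ℂ), p).2.2.2
        + ((0 : ℂ × ℂ × ℂ), p).1.1) (1 + ((0 : ℂ × ℂ × ℂ), p).2.2.1 * ((0 : ℂ × ℂ × ℂ), p).2.2.2
        + ((0 : ℂ × ℂ × ℂ), p).1.2.1) ≠ 0 := by simp [h1]
    have cn : ContinuousAt (fun a : X => nn a.2.1 (1 + a.2.1 * a.2.2.2 + a.1.1)
        (1 + a.2.2.1 * a.2.2.2 + a.1.2.1)) (0, p) := by simp only [nn]; fun_prop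
    have cm : ContinuousAt (fun a : X => nm a.2.2.1 (1 + a.2.1 * a.2.2.2 + a.1.1)
        (1 + a.2.2.1 * a.2.2.2 + a.1.2.1)) (0, p) := by simp only [nm]; fun_prop
    have cs := cont_sc cx cy cU cV cθ hn
    have hs : sc ((0 : ℂ × ℂ × ℂ), p).2.1 ((0 : ℂ × ℂ × ℂ), p).2.2.1
        (1 + ((0 : ℂ × ℂ × ℂ), p).2.1 * ((0 : ℂ × ℂ × ℂ), p).2.2.2
        + ((0 : ℂ × ℂ × ℂ), p).1.1) (1 + ((0 : ℂ × ℂ × ℂ), p).2.2.1 * ((0 : ℂ × ℂ × ℂ), p).2.2.2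
        + ((0 : ℂ × ℂ × ℂ), p).1.2.1) ((0 : ℂ × ℂ × ℂ), p).1.2.2 ^ 6 ≠ 0 := by simp [h4]
    have cP : ContinuousAt (fun a : X => ‖Phi a.2.1 a.2.2.1 (1 + a.2.1 * a.2.2.2 + a.1.1)
        (1 + a.2.2.1 * a.2.2.2 + a.1.2.1) a.1.2.2 - a.2‖) (0, p) :=
      (ContinuousAt.sub (((cont_ph1 cx cy cU cV cθ hn).div (cs.pow 6) hs).prodMk
        (((cont_ph2 cx cy cU cV cθ hn).div (cs.pow 6) hs).prodMk
          ((cs.pow 6).mul ((cU.pow 2).sub (cV.pow 3))))) continuousAt_snd).norm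
    refine (cn.eventually_ne hn).and (Eventually.and ?_ ?_)
    · exact (continuous_re.continuousAt.comp (cm.div cn hn)).eventually
        (Ioi_mem_nhds (by simp [h1, h2]))
    · exact cP.eventually (Iio_mem_nhds (by simpa [h5] using hε)))
  obtain ⟨ε₂, hε₂, h⟩ := Metric.nhds_basis_closedBall.eventually_iff.mp key
  refine ⟨ε₂, hε₂, fun p hp U V θ h1 h2 h3 => ?_⟩
  have := h (x := (U - (1 + p.1 * p.2.2), V - (1 + p.2.1 * p.2.2), θ)) (by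
    rw [mem_closedBall_zero_iff, Prod.norm_def, Prod.norm_def]
    exact max_le h1 (max_le h2 h3)) p hp
  simpa using this

variable {E : Type*} [NormedAddCommGroup E] [NormedSpace ℂ E]

/-- Holomorphic maps into the surface near a set. -/
def VMap (S : Set E) (f : E → ℂ × ℂ × ℂ) : Prop :=
  ∀ y ∈ S, ContDiffAt ℂ 1 f y ∧ ∀ᶠ w in 𝓝 y, OnV (f w)

theorem ZD.val {Z φ : E → ℂ} {y : E} (h : ZD Z φ y) (h0 : Z y = 0) : φ y = 0 := by
  obtain ⟨g, -, hg⟩ := h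
  rw [hg.self_of_nhds, h0, zero_mul]

theorem hol_E1 {φ : E → ℂ} {y : E} (h : ContDiffAt ℂ 1 φ y) :
    ContDiffAt ℂ 1 (fun w => E1 (φ w)) y :=
  (contDiffAt_of_differentiable E1_diff _).comp y h

theorem ZD.exp_sub_one {Z φ : E → ℂ} {y : E} (h : ZD Z φ y) (hφ : ContDiffAt ℂ 1 φ y) :
    ZD Z (fun w => cexp (φ w) - 1) y :=
  (h.mul_left (hol_E1 hφ)).congr' fun w => by rw [← mul_E1]; ring

/-- Lifting to the surface. -/
theorem exists_lift {L : Set E} {U V h : E → ℂ} (hU : ∀ y ∈ L, ContDiffAt ℂ 1 U y)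
    (hV : ∀ y ∈ L, ContDiffAt ℂ 1 V y) (hh : ∀ y ∈ L, ContDiffAt ℂ 1 h y)
    (hN : ∀ y ∈ L, ∀ᶠ w in 𝓝 y, ∃ᶠ v in 𝓝 w, U v ^ 2 - V v ^ 3 ≠ 0)
    (hc : ∀ y ∈ L, ZD (fun w => U w ^ 2 - V w ^ 3) (fun w => cexp (h w) * U w - V w) y)
    (h0 : ∀ y ∈ L, U y ^ 2 - V y ^ 3 = 0 → V y ≠ 0) :
    ∃ f : E → ℂ × ℂ × ℂ, VMap L f ∧ ∀ y ∈ L, ∀ᶠ w in 𝓝 y,
      (f w).2.2 = cexp (h w) ^ 6 * (U w ^ 2 - V w ^ 3) ∧
      (U w ^ 2 - V w ^ 3) * (cexp (h w) ^ 6 * (f w).1) = cexp (h w) ^ 3 * U w - 1 ∧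
      (U w ^ 2 - V w ^ 3) * (cexp (h w) ^ 6 * (f w).2.1) = cexp (h w) ^ 2 * V w - 1 := by
  set Z : E → ℂ := fun w => U w ^ 2 - V w ^ 3 with hZ
  have hZh : ∀ y ∈ L, ContDiffAt ℂ 1 Z y := fun y hy => ((hU y hy).pow 2).sub ((hV y hy).pow 3)
  have he : ∀ y ∈ L, ContDiffAt ℂ 1 (fun w => cexp (h w)) y := fun y hy => (hh y hy).cexp
  have d2 : ∀ y ∈ L, ZD Z (fun w => cexp (h w) ^ 2 * V w - 1) y := by
    intro y hy
    by_cases hz : Z y = 0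
    · refine ZD.cancel (ψ := fun w => V w ^ 2) ?_ ((hV y hy).pow 2) (pow_ne_zero _ (h0 y hy hz))
      refine (((hc y hy).mul_left (ψ := fun w => cexp (h w) * U w + V w)
        (((he y hy).mul (hU y hy)).add (hV y hy))).sub
        (ZD.mul_self (ψ := fun w => cexp (h w) ^ 2) ((he y hy).pow 2))).congr' fun w => ?_
      simp only [hZ]; ring
    · exact ZD.of_ne (hZh y hy) hz ((((he y hy).pow 2).mul (hV y hy)).sub contDiffAt_const)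
  have d1 : ∀ y ∈ L, ZD Z (fun w => cexp (h w) ^ 3 * U w - 1) y := fun y hy =>
    (((hc y hy).mul_left (ψ := fun w => cexp (h w) ^ 2) ((he y hy).pow 2)).add
      (d2 y hy)).congr' fun w => by ring
  obtain ⟨g1, hg1⟩ := exists_quot Z fun w => cexp (h w) ^ 3 * U w - 1
  obtain ⟨g2, hg2⟩ := exists_quot Z fun w => cexp (h w) ^ 2 * V w - 1
  set f : E → ℂ × ℂ × ℂ := fun w => (g1 w / cexp (h w) ^ 6, g2 w / cexp (h w) ^ 6,
    cexp (h w) ^ 6 * Z w) with hf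
  have hne : ∀ w, cexp (h w) ^ 6 ≠ 0 := fun w => pow_ne_zero _ (exp_ne_zero _)
  have hform : ∀ y ∈ L, ∀ᶠ w in 𝓝 y, (f w).2.2 = cexp (h w) ^ 6 * Z w ∧
      Z w * (cexp (h w) ^ 6 * (f w).1) = cexp (h w) ^ 3 * U w - 1 ∧
      Z w * (cexp (h w) ^ 6 * (f w).2.1) = cexp (h w) ^ 2 * V w - 1 := by
    intro y hy
    filter_upwards [(hg1 y (hN y hy) (d1 y hy)).2, (hg2 y (hN y hy) (d2 y hy)).2] with w h1 h2
    refine ⟨rfl, ?_, ?_⟩
    · rw [h1]; simp only [hf]; rw [mul_div_cancel₀ _ (hne w)]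
    · rw [h2]; simp only [hf]; rw [mul_div_cancel₀ _ (hne w)]
  refine ⟨f, fun y hy => ?_, hform⟩
  have hfh : ContDiffAt ℂ 1 f y :=
    ((hg1 y (hN y hy) (d1 y hy)).1.div ((he y hy).pow 6) (hne y)).prodMk
      (((hg2 y (hN y hy) (d2 y hy)).1.div ((he y hy).pow 6) (hne y)).prodMk
        (((he y hy).pow 6).mul (hZh y hy)))
  refine ⟨hfh, ?_⟩
  filter_upwards [hN y hy, hol_eventually hfh, (hform y hy).eventually_nhds] with w h1 h2 h3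
  have hc := h2.continuousAt
  refine eq_of_mul_eq (Z := Z) (g := fun v => 2 * (f v).1 + (f v).1 ^ 2 * (f v).2.2
    - 3 * (f v).2.1 - 3 * (f v).2.1 ^ 2 * (f v).2.2 - (f v).2.1 ^ 3 * (f v).2.2 ^ 2)
    (g' := fun _ => 1) h1 (by fun_prop) continuousAt_const ?_
  filter_upwards [h3] with v hv
  obtain ⟨a1, a2, a3⟩ := hv
  refine mul_left_cancel₀ (hne v) ?_
  have b1 : 1 + (f v).1 * (f v).2.2 = cexp (h v) ^ 3 * U v := by rw [a1]; linear_combination a2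
  have b2 : 1 + (f v).2.1 * (f v).2.2 = cexp (h v) ^ 2 * V v := by rw [a1]; linear_combination a3
  have b3 : (1 + (f v).1 * (f v).2.2) ^ 2 - (1 + (f v).2.1 * (f v).2.2) ^ 3 = (f v).2.2 := by
    rw [b1, b2, a1]; simp only [hZ]; ring
  rw [← mul_assoc, ← mul_assoc, ← a1]
  linear_combination b3

end Pool.Agent.P.MP_eba2d2_an
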