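import Pool.Agent.P.MP_eba2d2_an.OkaRunge

set_option autoImplicit false

open Set Filter Topology Metric Complex

namespace Pool.Agent.P.MP_eba2d2_an

theorem int_log {a b k : ℂ} {α β : ℝ} (h : ∀ t ∈ uIcc α β, 0 < (k * (a + t * b)).re) :
    ∫ t in α..β, b * (a + t * b)⁻¹ = log (k * (a + β * b)) - log (k * (a + α * b)) := by
  have hne : ∀ t ∈ uIcc α β, k * (a + t * b) ≠ 0 := fun t ht h0 => by
    have := h t ht
    rw [h0] at this
    simp at this
  refine intervalIntegral.integral_eq_sub_of_hasDerivAt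
    (f := fun t : ℝ => log (k * (a + t * b))) (fun t ht => ?_) ?_
  · have h1 : HasDerivAt (fun s : ℂ => log (k * (a + s * b))) ((k * b) / (k * (a + t * b)))
        (t : ℂ) := by
      refine HasDerivAt.clog ?_ (Or.inl (h t ht))
      simpa using (((hasDerivAt_id (t : ℂ)).mul_const b).const_add a).const_mul k
    have h2 := h1.comp_ofReal
    have h3 := left_ne_zero_of_mul (hne t ht)
    rw [mul_div_mul_left _ _ h3, div_eq_mul_inv] at h2
    exact h2
  · refine ContinuousOn.intervalIntegrable ?_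
    exact continuousOn_const.mul (ContinuousOn.inv₀ (by fun_prop)
      fun t ht => right_ne_zero_of_mul (hne t ht))

theorem rect_const {α β γ δ : ℝ} {w : ℂ} (h1 : α < w.re) (h2 : w.re < β) (h3 : γ < w.im)
    (h4 : w.im < δ) :
    (∫ t in α..β, 1 * ((γ * I - w) + t * 1)⁻¹) - (∫ t in α..β, 1 * ((δ * I - w) + t * 1)⁻¹)
      + (∫ t in γ..δ, I * ((β - w) + t * I)⁻¹) - (∫ t in γ..δ, I * ((α - w) + t * I)⁻¹)
      = 2 * Real.pi * I := by
  rw [int_log (k := -1 * -I) (fun t _ => by simp; linarith),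
    int_log (k := 1 * -I) (fun t _ => by simp; linarith),
    int_log (k := 1) (fun t _ => by simp; linarith),
    int_log (k := -1) (fun t _ => by simp; linarith)]
  have e1 := log_rot (w := β + γ * I - w) (σ := 1) (ω := -1) (Or.inl rfl) (Or.inr rfl)
    (by simp; linarith)
  have e2 := log_rot (w := β + δ * I - w) (σ := 1) (ω := 1) (Or.inl rfl) (Or.inl rfl)
    (by simp; linarith)
  have e3 := log_rot (w := α + δ * I - w) (σ := -1) (ω := 1) (Or.inr rfl) (Or.inl rfl)
    (by simp; linarith)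
  have e4 := log_rot (w := α + γ * I - w) (σ := -1) (ω := -1) (Or.inr rfl) (Or.inr rfl)
    (by simp; linarith)
  rw [show (-1 * -I) * (γ * I - w + β * 1) = -1 * (-I * (β + γ * I - w)) by ring,
    show (-1 * -I) * (γ * I - w + α * 1) = -1 * (-I * (α + γ * I - w)) by ring,
    show (1 * -I) * (δ * I - w + β * 1) = 1 * (-I * (β + δ * I - w)) by ring,
    show (1 * -I) * (δ * I - w + α * 1) = 1 * (-I * (α + δ * I - w)) by ring,
    show 1 * (β - w + δ * I) = 1 * (β + δ * I - w) by ring,
    show 1 * (β - w + γ * I) = 1 * (β + γ * I - w) by ring,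
    show -1 * (α - w + δ * I) = -1 * (α + δ * I - w) by ring,
    show -1 * (α - w + γ * I) = -1 * (α + γ * I - w) by ring, e1, e2, e3, e4]
  ring

/-- Integral of the Cauchy kernel along one side. -/
noncomputable def side1 (ψ : ℂ → ℂ) (w p d : ℂ) (a b : ℝ) : ℂ :=
  ∫ t in a..b, d * ((p + t * d - w)⁻¹ * ψ (p + t * d))

theorem side1_eq {ψ : ℂ → ℂ} {w p d : ℂ} {a b : ℝ} (hne : ∀ t ∈ uIcc a b, p + t * d ≠ w)
    (hψ : ∀ t ∈ uIcc a b, ContinuousAt ψ (p + t * d)) :
    side1 ψ w p d a b = (∫ t in a..b, d * dslope ψ w (p + t * d))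
      + (∫ t in a..b, d * ((p - w) + t * d)⁻¹) * ψ w := by
  have hc : ContinuousOn (fun t : ℝ => ψ (p + t * d)) (uIcc a b) := fun t ht =>
    ((hψ t ht).comp (f := fun t : ℝ => p + t * d) (by fun_prop)).continuousWithinAt
  have hi : ContinuousOn (fun t : ℝ => (p + t * d - w)⁻¹) (uIcc a b) :=
    ContinuousOn.inv₀ (by fun_prop) fun t ht => sub_ne_zero.mpr (hne t ht)
  have e1 : (∫ t in a..b, d * dslope ψ w (p + t * d)) =
      ∫ t in a..b, d * ((p + t * d - w)⁻¹ * (ψ (p + t * d) - ψ w)) := by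
    refine intervalIntegral.integral_congr fun t ht => ?_
    simp only [dslope_of_ne _ (hne t ht), slope_def_field]
    rw [div_eq_inv_mul]
  have e2 : (∫ t in a..b, d * ((p - w) + t * d)⁻¹) * ψ w =
      ∫ t in a..b, d * ((p + t * d - w)⁻¹ * ψ w) := by
    rw [← intervalIntegral.integral_mul_const]
    refine intervalIntegral.integral_congr fun t _ => ?_
    rw [show p - w + t * d = p + t * d - w by ring, mul_assoc]
  rw [e1, e2, ← intervalIntegral.integral_add]
  · unfold side1
    refine intervalIntegral.integral_congr fun t _ => ?_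
    ring
  · exact (continuousOn_const.mul (hi.mul (hc.sub continuousOn_const))).intervalIntegrable
  · exact (continuousOn_const.mul (hi.mul continuousOn_const)).intervalIntegrable

/-- Cauchy integral formula for a rectangle. -/
theorem rect_cauchy {ψ : ℂ → ℂ} {α β γ δ : ℝ} {w : ℂ} (h1 : α < w.re) (h2 : w.re < β)
    (h3 : γ < w.im) (h4 : w.im < δ)
    (hψ : ∀ s : ℂ, s.re ∈ Icc α β → s.im ∈ Icc γ δ → DifferentiableAt ℂ ψ s) :
    side1 ψ w (γ * I) 1 α β - side1 ψ w (δ * I) 1 α β + side1 ψ w β I γ δ - side1 ψ w α I γ δ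
      = 2 * Real.pi * I * ψ w := by
  have hab : α ≤ β := by linarith
  have hcd : γ ≤ δ := by linarith
  have hQ : Icc α β ×ℂ Icc γ δ ∈ 𝓝 w := by
    refine mem_of_superset ((isOpen_Ioo.reProdIm isOpen_Ioo).mem_nhds
      (show w ∈ Ioo α β ×ℂ Ioo γ δ from ⟨⟨h1, h2⟩, ⟨h3, h4⟩⟩)) ?_
    exact fun s hs => ⟨Ioo_subset_Icc_self hs.1, Ioo_subset_Icc_self hs.2⟩
  have hd : DifferentiableOn ℂ (dslope ψ w) (Icc α β ×ℂ Icc γ δ) :=
    (differentiableOn_dslope hQ).mpr fun s hs => (hψ s hs.1 hs.2).differentiableWithinAt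
  have hz := integral_boundary_rect_eq_zero_of_differentiableOn (dslope ψ w) (α + γ * I)
    (β + δ * I) (by simpa [uIcc_of_le hab, uIcc_of_le hcd] using hd)
  simp only [add_re, ofReal_re, mul_re, I_re, mul_zero, ofReal_im, I_im, mul_one, sub_self,
    add_zero, add_im, mul_im, zero_add, smul_eq_mul] at hz
  rw [side1_eq, side1_eq, side1_eq, side1_eq]
  · have := rect_const h1 h2 h3 h4
    simp only [one_mul, mul_one, intervalIntegral.integral_const_mul] at this hz ⊢
    simp only [add_comm ((γ : ℂ) * I), add_comm ((δ : ℂ) * I)]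
    linear_combination hz + ψ w * this
  all_goals intro t ht
  all_goals first
    | rw [uIcc_of_le hab] at ht
    | rw [uIcc_of_le hcd] at ht
  · intro h; have := congrArg re h; simp at this; linarith
  · exact (hψ _ (by simpa using hab) (by simpa using ht)).continuousAt
  · intro h; have := congrArg re h; simp at this; linarith
  · exact (hψ _ (by simpa using hab) (by simpa using ht)).continuousAt
  · intro h; have := congrArg im h; simp at this; linarith
  · exact (hψ _ (by simpa using ht) (by simpa using hcd)).continuousAt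
  · intro h; have := congrArg im h; simp at this; linarith
  · exact (hψ _ (by simpa using ht) (by simpa using hcd)).continuousAt

variable {E : Type*} [NormedAddCommGroup E] [NormedSpace ℂ E] [FiniteDimensional ℂ E]

/-- Side integral with parameters. -/
noncomputable def sideInt (φ : E → ℂ) (lam : E →L[ℂ] ℂ) (e : E) (p d : ℂ) (a b : ℝ) (y : E) : ℂ :=
  (2 * Real.pi * I)⁻¹ * side1 (fun s => φ (y + (s - lam y) • e)) (lam y) p d a b

theorem sideInt_hol {φ : E → ℂ} {lam : E →L[ℂ] ℂ} {e : E} {p d : ℂ} {a b : ℝ} {y : E}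
    (hne : ∀ t ∈ uIcc a b, p + t * d ≠ lam y)
    (hφ : ∀ t ∈ uIcc a b, ContDiffAt ℂ 1 φ (y + (p + t * d - lam y) • e)) :
    ContDiffAt ℂ 1 (sideInt φ lam e p d a b) y := by
  refine contDiffAt_const.mul ?_
  refine contDiffAt_paramInt (E := E)
    (Φ := fun q : E × ℂ => d * ((q.2 - lam q.1)⁻¹ * φ (q.1 + (q.2 - lam q.1) • e)))
    (γ := fun t : ℝ => p + t * d) (by fun_prop) fun t ht => ?_
  refine contDiffAt_const.mul (ContDiffAt.mul (ContDiffAt.inv (by fun_prop)
    (sub_ne_zero.mpr (hne t ht))) ?_)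
  exact (hφ t ht).comp (y, p + t * d) (f := fun q : E × ℂ => q.1 + (q.2 - lam q.1) • e)
    (by fun_prop)

/-- Splitting a function into four Cauchy integrals. -/
theorem four_split {φ : E → ℂ} {lam : E →L[ℂ] ℂ} {e : E} {P : Set E} (hP : IsCompact P)
    {α β γ δ : ℝ} (hab : α ≤ β) (hcd : γ ≤ δ)
    (hφ : ∀ y ∈ P, ∀ s : ℂ, s.re ∈ Icc α β → s.im ∈ Icc γ δ →
      ContDiffAt ℂ 1 φ (y + (s - lam y) • e)) :
    ∃ B T R L : E → ℂ, (∀ y ∈ P, γ ≤ (lam y).im → ContDiffAt ℂ 1 B y) ∧
      (∀ y ∈ P, (lam y).im ≤ δ → ContDiffAt ℂ 1 T y) ∧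
      (∀ y ∈ P, (lam y).re ≤ β → ContDiffAt ℂ 1 R y) ∧
      (∀ y ∈ P, α ≤ (lam y).re → ContDiffAt ℂ 1 L y) ∧
      ∀ y ∈ P, (lam y).re ∈ Icc α β → (lam y).im ∈ Icc γ δ →
        ∀ᶠ w in 𝓝 y, φ w = B w - T w + R w - L w := by
  have hQ : IsCompact (Icc α β ×ℂ Icc γ δ) := isCompact_Icc.reProdIm isCompact_Icc
  obtain ⟨u, v, hu, hv, hPu, hQv, huv⟩ := generalized_tube_lemma hP hQ
    ((isOpen_hol φ).preimage (f := fun q : E × ℂ => q.1 + (q.2 - lam q.1) • e) (by fun_prop)) (by
      rintro ⟨y, s⟩ ⟨hy, hs⟩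
      exact hφ y hy s hs.1 hs.2)
  obtain ⟨r, hr, hrv⟩ := hQ.exists_cthickening_subset_open hv hQv
  set ε := r / 2 with hε
  have hε0 : 0 < ε := by positivity
  have hbig : ∀ s : ℂ, s.re ∈ Icc (α - ε) (β + ε) → s.im ∈ Icc (γ - ε) (δ + ε) → s ∈ v := by
    intro s h1 h2
    apply hrv
    refine mem_cthickening_of_dist_le s (⟨max α (min β s.re), max γ (min δ s.im)⟩ : ℂ) r _
      ⟨⟨le_max_left _ _, max_le hab (min_le_left _ _)⟩,
        ⟨le_max_left _ _, max_le hcd (min_le_left _ _)⟩⟩ ?_
    rw [dist_eq_norm]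
    refine (norm_le_abs_re_add_abs_im _).trans ?_
    have a1 : |s.re - max α (min β s.re)| ≤ ε := by
      rw [abs_le]
      obtain ⟨h11, h12⟩ := h1
      constructor
      · have : max α (min β s.re) ≤ s.re + ε := max_le (by linarith)
          ((min_le_right _ _).trans (by linarith))
        linarith
      · have : s.re - ε ≤ max α (min β s.re) := le_max_of_le_right (le_min (by linarith)
          (by linarith))
        linarith
    have a2 : |s.im - max γ (min δ s.im)| ≤ ε := by
      rw [abs_le]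
      obtain ⟨h11, h12⟩ := h2
      constructor
      · have : max γ (min δ s.im) ≤ s.im + ε := max_le (by linarith)
          ((min_le_right _ _).trans (by linarith))
        linarith
      · have : s.im - ε ≤ max γ (min δ s.im) := le_max_of_le_right (le_min (by linarith)
          (by linarith))
        linarith
    simp only [sub_re, sub_im]
    linarith
  have hall : ∀ y ∈ u, ∀ s : ℂ, s.re ∈ Icc (α - ε) (β + ε) → s.im ∈ Icc (γ - ε) (δ + ε) →
      ContDiffAt ℂ 1 φ (y + (s - lam y) • e) := fun y hy s h1 h2 =>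
    huv (show (y, s) ∈ u ×ˢ v from ⟨hy, hbig s h1 h2⟩)
  have hab' : α - ε ≤ β + ε := by linarith
  have hcd' : γ - ε ≤ δ + ε := by linarith
  refine ⟨sideInt φ lam e (((γ - ε : ℝ) : ℂ) * I) 1 (α - ε) (β + ε),
    sideInt φ lam e (((δ + ε : ℝ) : ℂ) * I) 1 (α - ε) (β + ε),
    sideInt φ lam e ((β + ε : ℝ) : ℂ) I (γ - ε) (δ + ε),
    sideInt φ lam e ((α - ε : ℝ) : ℂ) I (γ - ε) (δ + ε), ?_, ?_, ?_, ?_, ?_⟩
  · intro y hy h
    refine sideInt_hol (fun t _ h' => ?_) (fun t ht => hall y (hPu hy) _ ?_ ?_)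
    · have := congrArg im h'; simp at this; linarith
    · simpa [uIcc_of_le hab'] using ht
    · simpa using hcd'
  · intro y hy h
    refine sideInt_hol (fun t _ h' => ?_) (fun t ht => hall y (hPu hy) _ ?_ ?_)
    · have := congrArg im h'; simp at this; linarith
    · simpa [uIcc_of_le hab'] using ht
    · simpa using hcd'
  · intro y hy h
    refine sideInt_hol (fun t _ h' => ?_) (fun t ht => hall y (hPu hy) _ ?_ ?_)
    · have := congrArg re h'; simp at this; linarith
    · simpa using hab'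
    · simpa [uIcc_of_le hcd'] using ht
  · intro y hy h
    refine sideInt_hol (fun t _ h' => ?_) (fun t ht => hall y (hPu hy) _ ?_ ?_)
    · have := congrArg re h'; simp at this; linarith
    · simpa using hab'
    · simpa [uIcc_of_le hcd'] using ht
  · intro y hy h1 h2
    have hc1 : Continuous fun w => (lam w).re := by fun_prop
    have hc2 : Continuous fun w => (lam w).im := by fun_prop
    filter_upwards [hu.mem_nhds (hPu hy),
      hc1.continuousAt.eventually (Ioo_mem_nhds (show α - ε < (lam y).re by linarith [h1.1])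
        (show (lam y).re < β + ε by linarith [h1.2])),
      hc2.continuousAt.eventually (Ioo_mem_nhds (show γ - ε < (lam y).im by linarith [h2.1])
        (show (lam y).im < δ + ε by linarith [h2.2]))] with w hw hw1 hw2
    have := rect_cauchy (ψ := fun s => φ (w + (s - lam w) • e)) hw1.1 hw1.2 hw2.1 hw2.2
      (fun s hs1 hs2 => (hol_diff (hall w hw s hs1 hs2)).comp s
        (f := fun s => w + (s - lam w) • e) (by fun_prop))
    simp only [sub_self, zero_smul, add_zero] at this
    simp only [sideInt]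
    rw [← mul_sub, ← mul_add, ← mul_sub, this, ← mul_assoc, inv_mul_cancel₀ two_pi_I_ne_zero,
      one_mul]

end Pool.Agent.P.MP_eba2d2_an
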