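import Pool.Agent.P.MP_eba2d2_an.OkaApprox

set_option autoImplicit false

open Set Filter Topology Metric Complex

namespace Pool.Agent.P.MP_eba2d2_an

theorem log_rot {w σ ω : ℂ} (hσ : σ = 1 ∨ σ = -1) (hω : ω = 1 ∨ ω = -1)
    (hw : 0 < (ω * (-I * w)).re) :
    log (σ * w) = log (ω * (-I * w)) + (Real.pi / 2 * I) * (ω * σ) := by
  set x := log (ω * (-I * w)) with hx
  have hne : ω * (-I * w) ≠ 0 := fun h => by rw [h] at hw; simp at hw
  have harg : |x.im| < Real.pi / 2 := by
    rw [hx, log_im]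
    exact abs_arg_lt_pi_div_two_iff.mpr (Or.inl hw)
  rw [abs_lt] at harg
  have hpi := Real.pi_pos
  have e1 : cexp (Real.pi / 2 * I) = I := exp_pi_div_two_mul_I
  have e2 : cexp (-(Real.pi / 2 * I)) = -I := by
    rw [exp_neg, e1, inv_I]
  have hexp : cexp (x + (Real.pi / 2 * I) * (ω * σ)) = σ * w := by
    rw [exp_add, hx, exp_log hne]
    rcases hσ with rfl | rfl <;> rcases hω with rfl | rfl
    · rw [mul_one, mul_one, e1]; linear_combination (-w) * I_mul_I
    · rw [mul_one, mul_neg_one, e2]; linear_combination (-w) * I_mul_I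
    · rw [one_mul (-1 : ℂ), mul_neg_one, e2]; linear_combination w * I_mul_I
    · rw [neg_mul_neg, mul_one, mul_one, e1]; linear_combination w * I_mul_I
  rw [← hexp, log_exp]
  · rcases hσ with rfl | rfl <;> rcases hω with rfl | rfl <;> simp <;> linarith
  · rcases hσ with rfl | rfl <;> rcases hω with rfl | rfl <;> simp <;> linarith

/-- Runge's theorem for two bounded sets separated by a vertical strip. -/
theorem exists_cutoff {c c' ρ η : ℝ} (hc : c < c') (hη : 0 < η) :
    ∃ χ : ℂ → ℂ, Differentiable ℂ χ ∧ (∀ s, ‖s‖ ≤ ρ → s.re ≤ c → ‖χ s‖ < η) ∧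
      (∀ s, ‖s‖ ≤ ρ → c' ≤ s.re → ‖χ s - 1‖ < η) := by
  set X : Set ℂ := closedBall 0 ρ ∩ ({s | s.re ≤ c} ∪ {s | c' ≤ s.re}) with hX
  have hXc : IsCompact X := (isCompact_closedBall 0 ρ).inter_right
    ((isClosed_le continuous_re continuous_const).union (isClosed_le continuous_const continuous_re))
  have : CompactSpace X := isCompact_iff_compactSpace.mp hXc
  set σ : ℂ → ℂ := fun s => ((max (-1) (min 1 (1 - 2 * (s.re - c) / (c' - c))) : ℝ) : ℂ) with hσ
  have hσc : Continuous σ := by fun_prop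
  have hcc : 0 < c' - c := by linarith
  have hσ1 : ∀ s : ℂ, s.re ≤ c → σ s = 1 := by
    intro s hs
    have : 2 * (s.re - c) / (c' - c) ≤ 0 := div_nonpos_of_nonpos_of_nonneg (by linarith) hcc.le
    simp only [hσ]
    rw [min_eq_left (by linarith), max_eq_right (by linarith)]
    simp
  have hσ2 : ∀ s : ℂ, c' ≤ s.re → σ s = -1 := by
    intro s hs
    have : 2 ≤ 2 * (s.re - c) / (c' - c) := by
      rw [le_div_iff₀ hcc]; linarith
    simp only [hσ]
    rw [max_eq_left (min_le_of_right_le (by linarith))]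
    simp
  have hσpm : ∀ x : X, σ x = 1 ∨ σ x = -1 := fun x =>
    x.2.2.elim (fun h => Or.inl (hσ1 _ h)) (fun h => Or.inr (hσ2 _ h))
  clear_value σ
  set D : Set ℂ := {t | c < t.re} ∩ {t | t.re < c'} with hD
  have hDo : IsOpen D :=
    (isOpen_lt continuous_const continuous_re).inter (isOpen_lt continuous_re continuous_const)
  have hDc : Convex ℝ D := (convex_halfSpace_re_gt c).inter (convex_halfSpace_re_lt c')
  have hpos : ∀ t ∈ D, ∀ x : X, σ x * (t - x) ∈ slitPlane := by
    intro t ht x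
    left
    rcases x.2.2 with h | h
    · rw [hσ1 _ h]
      have h1 : c < t.re := ht.1
      have h2 : (x : ℂ).re ≤ c := h
      simp; linarith
    · rw [hσ2 _ h]
      have h1 : t.re < c' := ht.2
      have h2 : c' ≤ (x : ℂ).re := h
      simp; linarith
  set Φ : ℂ → X → ℂ := fun t x => log (σ x * (t - x)) with hΦ
  have hΦc : ContinuousOn (Function.uncurry Φ) (D ×ˢ univ) := by
    rintro ⟨t, x⟩ ⟨ht, -⟩
    have h1 : Continuous (fun p : ℂ × X => σ p.2 * (p.1 - p.2)) :=
      (hσc.comp (continuous_subtype_val.comp continuous_snd)).mul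
        (continuous_fst.sub (continuous_subtype_val.comp continuous_snd))
    exact (ContinuousAt.clog (f := fun p : ℂ × X => σ p.2 * (p.1 - p.2)) h1.continuousAt
      (hpos t ht x)).continuousWithinAt
  have hΦd : ∀ x, DifferentiableOn ℂ (fun t => Φ t x) D := by
    intro x t ht
    exact (DifferentiableAt.clog (f := fun t => σ x * (t - x)) (by fun_prop)
      (hpos t ht x)).differentiableWithinAt
  have hg := weakHol hDo hΦc hΦd
  set g : ℂ → C(X, ℂ) := fun τ => ContinuousMap.mkD (Φ τ) 0 with hgdef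
  have hval : ∀ τ ∈ D, ∀ x, g τ x = Φ τ x := by
    intro τ hτ x
    apply ContinuousMap.mkD_apply_of_continuous
    have : ContinuousOn (fun x => Function.uncurry Φ (τ, x)) univ :=
      hΦc.comp (by fun_prop) (fun x _ => ⟨hτ, mem_univ _⟩)
    exact continuousOn_univ.mp this
  set sg : C(X, ℂ) := ⟨fun x => σ x, hσc.comp continuous_subtype_val⟩ with hsg
  set S := (entSub X).topologicalClosure with hS
  have key : ∀ ω : ℂ, (ω = 1 ∨ ω = -1) → ∀ t ∈ D, ρ < (ω * t).im →
      g t - (Real.pi / 2 * I * ω) • sg ∈ S := by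
    intro ω hω t ht hρ
    have hre : ∀ s ∈ closedBall (0 : ℂ) ρ, 0 < (ω * (-I * (t - s))).re := by
      intro s hs
      have h1 := abs_le.mp ((abs_im_le_norm s).trans (mem_closedBall_zero_iff.mp hs))
      rcases hω with rfl | rfl
      · simp at hρ ⊢; linarith
      · simp at hρ ⊢; linarith
    have hA : Appr (closedBall (0 : ℂ) ρ) (fun s => log (ω * (-I * (t - s)))) := by
      refine appr_of_convex (isCompact_closedBall 0 ρ) (convex_closedBall 0 ρ) fun s hs => ?_
      exact (contDiffAt_log (Or.inl (hre s hs))).comp s (f := fun s => ω * (-I * (t - s)))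
        (by fun_prop)
    refine (mem_closure_entSub (φ := fun s => log (ω * (-I * (t - s)))) fun x => ?_).mpr ?_
    · rw [ContinuousMap.sub_apply, hval t ht, ContinuousMap.smul_apply]
      simp only [hΦ, hsg, ContinuousMap.coe_mk, smul_eq_mul]
      rw [log_rot (hσpm x) hω (hre x x.2.1)]
      ring
    · intro ε hε
      obtain ⟨k, hk, hk'⟩ := hA ε hε
      exact ⟨k, hk, fun y hy => hk' y hy.1⟩
  set m : ℝ := (c + c') / 2 with hm
  have hmD : ∀ y : ℝ, (m : ℂ) + y * I ∈ D := fun y => by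
    constructor
    · simp [hm]; linarith
    · simp [hm]; linarith
  have h1 := push_mem S (entSub X).isClosed_topologicalClosure
    (g := fun t => g t - (Real.pi / 2 * I * 1) • sg) hDo hDc.isPreconnected
    (hg.sub_const _) (hmD (ρ + 1)) (by
      have ho : IsOpen (D ∩ {t : ℂ | ρ < t.im}) := hDo.inter (isOpen_lt continuous_const continuous_im)
      filter_upwards [ho.mem_nhds (show (m : ℂ) + ((ρ + 1 : ℝ) : ℂ) * I ∈ D ∩ {t : ℂ | ρ < t.im}
        from ⟨hmD _, by simp⟩)] with t ht
      exact key 1 (Or.inl rfl) t ht.1 (by simpa using ht.2)) _ (hmD (-(ρ + 1)))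
  have h2 := key (-1) (Or.inr rfl) _ (hmD (-(ρ + 1))) (by simp)
  have h3 := S.smul_mem (Real.pi * I)⁻¹ (S.sub_mem h2 h1)
  have h4 : sg ∈ S := by
    convert h3 using 1
    have hne : (Real.pi * I : ℂ) ≠ 0 := mul_ne_zero (by exact_mod_cast Real.pi_ne_zero) I_ne_zero
    rw [sub_sub_sub_cancel_left, ← sub_smul, smul_smul]
    have : (Real.pi * I : ℂ)⁻¹ * (Real.pi / 2 * I * 1 - Real.pi / 2 * I * -1) = 1 := by
      field_simp
      ring
    rw [this, one_smul]
  obtain ⟨k, hk, hk'⟩ := (mem_closure_entSub (φ := σ) fun x => rfl).mp h4 (2 * η) (by positivity)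
  refine ⟨fun s => (1 - k s) / 2, by fun_prop, fun s hs hsc => ?_, fun s hs hsc => ?_⟩
  · have := hk' s ⟨mem_closedBall_zero_iff.mpr hs, Or.inl hsc⟩
    rw [hσ1 s hsc, norm_sub_rev] at this
    rw [norm_div]
    simp only [Complex.norm_ofNat]
    linarith
  · have := hk' s ⟨mem_closedBall_zero_iff.mpr hs, Or.inr hsc⟩
    rw [hσ2 s hsc, norm_sub_rev] at this
    rw [show (1 - k s) / 2 - 1 = (-1 - k s) / 2 by ring, norm_div]
    simp only [Complex.norm_ofNat]
    linarith

end Pool.Agent.P.MP_eba2d2_an
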