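import Pool.Agent.P.MP_eba2d2_an.OkaShear

set_option autoImplicit false

open Set Filter Topology Metric Complex

namespace Pool.Agent.P.MP_eba2d2_an

/-- The entire function `(e^a - 1)/a`. -/
noncomputable def E1 : ℂ → ℂ := dslope cexp 0

theorem E1_diff : Differentiable ℂ E1 :=
  differentiableOn_univ.mp ((differentiableOn_dslope univ_mem).mpr
    differentiable_exp.differentiableOn)

theorem E1_cont : Continuous E1 := E1_diff.continuous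

theorem E1_zero : E1 0 = 1 := by simp [E1]

theorem mul_E1 (a : ℂ) : a * E1 a = cexp a - 1 := by
  simpa [E1] using sub_smul_dslope cexp 0 a

theorem norm_E1_le {a : ℂ} {c : ℝ} (hc : 0 ≤ c) (ha : a.re ≤ c) : ‖E1 a‖ ≤ Real.exp c := by
  by_cases h0 : a = 0
  · rw [h0, E1_zero, norm_one]; exact Real.one_le_exp hc
  have := Convex.norm_image_sub_le_of_norm_deriv_le (f := cexp) (s := {z : ℂ | z.re ≤ c})
    (C := Real.exp c) (x := 0) (y := a) (fun z _ => differentiable_exp z)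
    (fun z hz => by rw [Complex.deriv_exp, norm_exp]; exact Real.exp_le_exp.mpr hz)
    (convex_halfSpace_re_le c) (by simpa using hc) ha
  rw [exp_zero, ← mul_E1, norm_mul, sub_zero, mul_comm] at this
  exact le_of_mul_le_mul_right this (norm_pos_iff.mpr h0)

/-- The ray on the cuspidal curve. -/
def Ray : Set (ℂ × ℂ) := {q | ∃ r : ℝ, 0 ≤ r ∧ q = (-(r : ℂ) ^ 3, (r : ℂ) ^ 2)}

/-- Tube around the ray and one more point. -/
def Tube (W : ℂ) (δ : ℝ) : Set (ℂ × ℂ) :=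
  {q | ∃ s, (s ∈ Ray ∨ s = (W ^ 3, W ^ 2)) ∧ ‖q - s‖ ≤ δ}

theorem Tube.add {W : ℂ} {δ ν : ℝ} {q q' : ℂ × ℂ} (h : q ∈ Tube W δ) (h' : ‖q' - q‖ ≤ ν) :
    q' ∈ Tube W (δ + ν) := by
  obtain ⟨s, hs, h⟩ := h
  refine ⟨s, hs, ?_⟩
  have := norm_add_le (q' - q) (q - s)
  rw [sub_add_sub_cancel] at this
  linarith

theorem Tube.mono {W : ℂ} {δ δ' : ℝ} {q : ℂ × ℂ} (h : q ∈ Tube W δ) (h' : δ ≤ δ') :
    q ∈ Tube W δ' := by
  obtain ⟨s, hs, h⟩ := h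
  exact ⟨s, hs, h.trans h'⟩

theorem lin_bdd (W : ℂ) (M : ℝ) {a : ℝ} (ha : 0 < a) (b : ℝ) :
    ∃ C, ∀ q, (q ∈ Tube W 1 ∨ ‖q‖ ≤ M) → (lin a b q).re ≤ C := by
  refine ⟨|b| ^ 3 / a ^ 2 + (|a| + |b|) * (1 + ‖(W ^ 3, W ^ 2)‖ + |M|), ?_⟩
  have hab : 0 ≤ |a| + |b| := by positivity
  have h0 : 0 ≤ |b| ^ 3 / a ^ 2 := by positivity
  have hW := norm_nonneg (W ^ 3, W ^ 2)
  have hM := abs_nonneg M
  have hre : ∀ q, (lin a b q).re ≤ (|a| + |b|) * ‖q‖ := fun q =>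
    (re_le_norm _).trans (norm_lin_le a b q)
  rintro q (⟨s, hs, hq⟩ | hq)
  · have e : lin a b q = lin a b s + lin a b (q - s) := by rw [← lin_add, add_sub_cancel]
    have h1 : (lin a b (q - s)).re ≤ (|a| + |b|) * 1 :=
      (hre _).trans (mul_le_mul_of_nonneg_left hq hab)
    rw [e, add_re]
    rcases hs with ⟨r, hr, rfl⟩ | rfl
    · have h2 : (lin a b (-(r : ℂ) ^ 3, (r : ℂ) ^ 2)).re = -a * r ^ 3 + b * r ^ 2 := by
        simp only [lin]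
        norm_cast
        simp
      have h3 : -a * r ^ 3 + b * r ^ 2 ≤ |b| ^ 3 / a ^ 2 := by
        have hb := le_abs_self b
        by_cases h : a * r ≤ |b|
        · have h4 : r ≤ |b| / a := by rw [le_div_iff₀ ha]; linarith
          have h5 : r ^ 2 ≤ (|b| / a) ^ 2 := by gcongr
          have h6 : |b| * (|b| / a) ^ 2 = |b| ^ 3 / a ^ 2 := by field_simp
          have h7 : 0 ≤ a * r ^ 3 := by positivity
          have h8 : b * r ^ 2 ≤ |b| * (|b| / a) ^ 2 :=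
            mul_le_mul hb h5 (by positivity) (abs_nonneg _)
          linarith
        · have : 0 ≤ r ^ 2 * (a * r - b) := mul_nonneg (by positivity) (by linarith)
          nlinarith
      rw [h2]
      nlinarith
    · have := hre (W ^ 3, W ^ 2)
      nlinarith
  · have := hre q
    have h2 : ‖q‖ ≤ |M| := hq.trans (le_abs_self M)
    nlinarith

theorem term_bdd (W : ℂ) (M : ℝ) {c : ℂ × ℂ × ℂ → ℂ} (hc : Continuous c) {a : ℝ} (ha : 0 < a)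
    (b : ℝ) : ∃ C, 0 ≤ C ∧ ∀ p, ‖p‖ ≤ M → ∀ q, (q ∈ Tube W 1 ∨ ‖q‖ ≤ M) →
      ‖c p * cexp (lin a b q)‖ ≤ C := by
  obtain ⟨C, hC⟩ := lin_bdd W M ha b
  obtain ⟨C', hC'⟩ := (isCompact_closedBall (0 : ℂ × ℂ × ℂ) M).exists_bound_of_continuousOn
    hc.continuousOn
  refine ⟨|C'| * Real.exp C, by positivity, fun p hp q hq => ?_⟩
  rw [norm_mul, norm_exp]
  exact mul_le_mul ((hC' p (mem_closedBall_zero_iff.mpr hp)).trans (le_abs_self _))
    (Real.exp_le_exp.mpr (hC q hq)) (by positivity) (abs_nonneg _)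

theorem ES.bdd (W : ℂ) (M : ℝ) {a₀ : ℝ} (ha : 0 < a₀) {H : ℂ × ℂ × ℂ → ℂ × ℂ → ℂ} (h : ES a₀ H) :
    ∃ C, 0 ≤ C ∧ ∀ p, ‖p‖ ≤ M → ∀ q ∈ Tube W 1, ‖H p q‖ ≤ C := by
  obtain ⟨l, h1, h2⟩ := h
  simp only [h2]
  clear h2
  induction l with
  | nil => exact ⟨0, le_rfl, by simp⟩
  | cons k l ih =>
    obtain ⟨C, hC0, hC⟩ := ih fun k' hk' => h1 k' (List.mem_cons_of_mem _ hk')
    obtain ⟨h3, h4⟩ := h1 k List.mem_cons_self
    obtain ⟨C', hC0', hC'⟩ := term_bdd W M h3.continuous (ha.trans_le h4) k.2.2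
    refine ⟨C' + C, by positivity, fun p hp q hq => ?_⟩
    simp only [List.map_cons, List.sum_cons]
    exact (norm_add_le _ _).trans (add_le_add (hC' p hp q (Or.inl hq)) (hC p hp q hq))

theorem list_bdd (W : ℂ) (M : ℝ) (l : List ((ℂ × ℂ × ℂ → ℂ) × ℝ × ℝ))
    (hl : ∀ k ∈ l, Differentiable ℂ k.1 ∧ 0 < k.2.1) :
    ∃ C, 0 ≤ C ∧ ∀ k ∈ l, |k.2.1| + |k.2.2| ≤ C ∧ ∀ p, ‖p‖ ≤ M → ∀ q,
      (q ∈ Tube W 1 ∨ ‖q‖ ≤ M) → ‖vf (k.1 p, k.2) q‖ ≤ C := by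
  induction l with
  | nil => exact ⟨0, le_rfl, by simp⟩
  | cons k l ih =>
    obtain ⟨C, hC0, hC⟩ := ih fun k' hk' => hl k' (List.mem_cons_of_mem _ hk')
    obtain ⟨h3, h4⟩ := hl k List.mem_cons_self
    obtain ⟨C', hC0', hC'⟩ := term_bdd W M h3.continuous h4 k.2.2
    set n := ‖(((k.2.2 : ℝ) : ℂ), -((k.2.1 : ℝ) : ℂ))‖ with hn
    have hn0 : 0 ≤ n := norm_nonneg _
    have hk0 : 0 ≤ |k.2.1| + |k.2.2| := by positivity
    have hCn : 0 ≤ C' * n := by positivity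
    refine ⟨C + C' * n + (|k.2.1| + |k.2.2|), by positivity, fun k' hk' => ?_⟩
    rcases List.mem_cons.mp hk' with rfl | hk'
    · refine ⟨by linarith, fun p hp q hq => ?_⟩
      simp only [vf, norm_smul]
      have := mul_le_mul_of_nonneg_right (hC' p hp q hq) hn0
      linarith
    · obtain ⟨h5, h6⟩ := hC k' hk'
      exact ⟨by linarith, fun p hp q hq => by linarith [h6 p hp q hq]⟩

/-- Deformed coordinate. -/
noncomputable def dc (σ : ℝ) (u q : ℂ) : ℂ := u + (q - u) * E1 (σ * (q - u))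

/-- The separating function. -/
noncomputable def Th (ε σ : ℝ) (p : ℂ × ℂ × ℂ) (q : ℂ × ℂ) : ℂ :=
  (dc σ p.2.1 q.1 - p.1 * (dc σ p.2.1 q.1 ^ 2 - dc σ p.2.2 q.2 ^ 3)) * cexp (ε * (q.1 - p.2.1))

theorem norm_dc_le {σ : ℝ} (h0 : 0 ≤ σ) (h1 : σ ≤ 1) {u q : ℂ} {M A c : ℝ} (hu : ‖u‖ ≤ M)
    (hA : ‖q - u‖ ≤ A) (hc : 0 ≤ c) (hre : (q - u).re ≤ c) : ‖dc σ u q‖ ≤ M + A * Real.exp c := by
  refine (norm_add_le _ _).trans (add_le_add hu ?_)
  rw [norm_mul]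
  refine mul_le_mul hA (norm_E1_le hc ?_) (norm_nonneg _) ((norm_nonneg _).trans hA)
  rw [re_ofReal_mul]
  nlinarith

theorem Th_far {M ε : ℝ} (hM : 0 ≤ M) (hε : 0 < ε) : ∃ r₀ : ℝ, ∀ r : ℝ, r₀ ≤ r → ∀ σ : ℝ, 0 ≤ σ →
    σ ≤ 1 → ∀ p : ℂ × ℂ × ℂ, ‖p‖ ≤ M → ∀ q : ℂ × ℂ, ‖q - (-(r : ℂ) ^ 3, (r : ℂ) ^ 2)‖ ≤ 1 →
      ‖Th ε σ p q‖ ≤ 1 / 2 := by
  set N := 1 + M with hN
  set C₁ := M + (N + 4) * Real.exp N with hC₁
  set C₂ := (1 + 2 * M) * C₁ ^ 3 * Real.exp (ε * N) with hC₂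
  have hN0 : 0 < N := by positivity
  have hC₁1 : 1 ≤ C₁ := by
    have := Real.one_le_exp hN0.le
    nlinarith
  have hC₂0 : 0 < C₂ := by positivity
  refine ⟨max 1 ((6 + 2 * C₂) / ε), fun r hr σ h0 h1 p hp q hq => ?_⟩
  have hr1 : 1 ≤ r := (le_max_left _ _).trans hr
  have hr2 : 6 + 2 * C₂ ≤ ε * r := by
    have := (le_max_right _ _).trans hr
    rw [div_le_iff₀ hε] at this
    linarith
  have hx : ‖p.1‖ ≤ M := (norm_fst_le p).trans hp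
  have hu : ‖p.2.1‖ ≤ M := (norm_fst_le p.2).trans ((norm_snd_le p).trans hp)
  have hv : ‖p.2.2‖ ≤ M := (norm_snd_le p.2).trans ((norm_snd_le p).trans hp)
  have hd1 : ‖q.1 + (r : ℂ) ^ 3‖ ≤ 1 := by simpa using (norm_fst_le _).trans hq
  have hd2 : ‖q.2 - (r : ℂ) ^ 2‖ ≤ 1 := by simpa using (norm_snd_le _).trans hq
  have e1 : q.1 - p.2.1 = (q.1 + (r : ℂ) ^ 3 - p.2.1) - ((r ^ 3 : ℝ) : ℂ) := by push_cast; ring
  have e2 : q.2 - p.2.2 = (q.2 - (r : ℂ) ^ 2 - p.2.2) + ((r ^ 2 : ℝ) : ℂ) := by push_cast; ring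
  have b1 : ‖q.1 + (r : ℂ) ^ 3 - p.2.1‖ ≤ N := (norm_sub_le _ _).trans (by linarith)
  have b2 : ‖q.2 - (r : ℂ) ^ 2 - p.2.2‖ ≤ N := (norm_sub_le _ _).trans (by linarith)
  have hr3 : 0 ≤ r ^ 3 := by positivity
  have hrr : 0 ≤ r ^ 2 := by positivity
  have re1 : (q.1 - p.2.1).re ≤ N - r ^ 3 := by
    rw [e1, sub_re, ofReal_re]
    linarith [(re_le_norm _).trans b1]
  have re2 : (q.2 - p.2.2).re ≤ r ^ 2 + N := by
    rw [e2, add_re, ofReal_re]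
    linarith [(re_le_norm _).trans b2]
  have n1 : ‖q.1 - p.2.1‖ ≤ r ^ 3 + r ^ 2 + N := by
    rw [e1]
    refine (norm_sub_le _ _).trans ?_
    rw [norm_real, Real.norm_of_nonneg hr3]
    linarith
  have n2 : ‖q.2 - p.2.2‖ ≤ r ^ 3 + r ^ 2 + N := by
    rw [e2]
    refine (norm_add_le _ _).trans ?_
    rw [norm_real, Real.norm_of_nonneg hrr]
    linarith
  have hE := Real.quadratic_le_exp_of_nonneg hrr
  have hE1 : 1 ≤ Real.exp (r ^ 2) := Real.one_le_exp hrr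
  have hpoly : r ^ 3 + r ^ 2 + N ≤ (N + 4) * Real.exp (r ^ 2) := by
    have h5 : r ^ 3 ≤ (r ^ 2) ^ 2 := by
      rw [← pow_mul]
      exact pow_le_pow_right₀ hr1 (by norm_num)
    have h6 := mul_le_mul_of_nonneg_left hE1 hN0.le
    linarith
  set A := C₁ * Real.exp (2 * r ^ 2) with hA
  have hAle : M + (r ^ 3 + r ^ 2 + N) * Real.exp (r ^ 2 + N) ≤ A := by
    have e3 : Real.exp (2 * r ^ 2) = Real.exp (r ^ 2) * Real.exp (r ^ 2) := by
      rw [← Real.exp_add]; ring_nf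
    rw [hA, hC₁, Real.exp_add, e3]
    have h5 : 1 ≤ Real.exp (r ^ 2) * Real.exp (r ^ 2) := one_le_mul_of_one_le_of_one_le hE1 hE1
    have h6 : (r ^ 3 + r ^ 2 + N) * (Real.exp (r ^ 2) * Real.exp N) ≤
        (N + 4) * Real.exp (r ^ 2) * (Real.exp (r ^ 2) * Real.exp N) :=
      mul_le_mul_of_nonneg_right hpoly (by positivity)
    have h7 := mul_le_mul_of_nonneg_left h5 hM
    linarith
  have hA1 : 1 ≤ A := by
    exact one_le_mul_of_one_le_of_one_le hC₁1 (Real.one_le_exp (by positivity))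
  have d1 : ‖dc σ p.2.1 q.1‖ ≤ A :=
    (norm_dc_le h0 h1 hu n1 (c := r ^ 2 + N) (by positivity) (by linarith)).trans hAle
  have d2 : ‖dc σ p.2.2 q.2‖ ≤ A :=
    (norm_dc_le h0 h1 hv n2 (c := r ^ 2 + N) (by positivity) re2).trans hAle
  have hP : ‖dc σ p.2.1 q.1 - p.1 * (dc σ p.2.1 q.1 ^ 2 - dc σ p.2.2 q.2 ^ 3)‖ ≤
      (1 + 2 * M) * A ^ 3 := by
    refine (norm_sub_le _ _).trans ?_
    rw [norm_mul]
    have h5 : ‖dc σ p.2.1 q.1 ^ 2 - dc σ p.2.2 q.2 ^ 3‖ ≤ A ^ 2 + A ^ 3 := by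
      refine (norm_sub_le _ _).trans ?_
      rw [norm_pow, norm_pow]
      gcongr
    have h6 : A ≤ A ^ 3 := le_self_pow₀ hA1 (by norm_num)
    have h7 : A ^ 2 ≤ A ^ 3 := pow_le_pow_right₀ hA1 (by norm_num)
    have h8 := mul_le_mul hx h5 (norm_nonneg _) hM
    have h9 := mul_le_mul_of_nonneg_left h7 hM
    linarith
  have hexp : ‖cexp (ε * (q.1 - p.2.1))‖ ≤ Real.exp (ε * N) * Real.exp (-(ε * r ^ 3)) := by
    rw [norm_exp, re_ofReal_mul, ← Real.exp_add]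
    have := mul_le_mul_of_nonneg_left re1 hε.le
    exact Real.exp_le_exp.mpr (by linarith)
  have hfin : Real.exp (2 * r ^ 2) ^ 3 * Real.exp (-(ε * r ^ 3)) ≤ Real.exp (-(2 * C₂)) := by
    rw [← Real.exp_nat_mul, ← Real.exp_add]
    refine Real.exp_le_exp.mpr ?_
    push_cast
    have h5 : 1 ≤ r ^ 2 := one_le_pow₀ hr1
    have h6 : r ^ 2 * (6 + 2 * C₂) ≤ r ^ 2 * (ε * r) := mul_le_mul_of_nonneg_left hr2 hrr
    have h7 := mul_le_mul_of_nonneg_right h5 hC₂0.le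
    linarith
  have hlast : C₂ * Real.exp (-(2 * C₂)) ≤ 1 / 2 := by
    have h5 := Real.add_one_le_exp (2 * C₂)
    rw [Real.exp_neg, ← div_eq_mul_inv, div_le_iff₀ (Real.exp_pos _)]
    linarith
  calc ‖Th ε σ p q‖ ≤ (1 + 2 * M) * A ^ 3 * (Real.exp (ε * N) * Real.exp (-(ε * r ^ 3))) := by
        rw [Th, norm_mul]
        exact mul_le_mul hP hexp (norm_nonneg _) (by positivity)
    _ = C₂ * (Real.exp (2 * r ^ 2) ^ 3 * Real.exp (-(ε * r ^ 3))) := by rw [hC₂, hA]; ring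
    _ ≤ C₂ * Real.exp (-(2 * C₂)) := by gcongr
    _ ≤ 1 / 2 := hlast

theorem Th_zero (ε : ℝ) (p : ℂ × ℂ × ℂ) (W : ℂ) :
    Th ε 0 p (W ^ 3, W ^ 2) = W ^ 3 * cexp (ε * (W ^ 3 - p.2.1)) := by
  simp only [Th, dc, ofReal_zero, zero_mul, E1_zero]
  ring

/-- Separation of the base point from the tube. -/
theorem exists_sep {M : ℝ} (hM : 0 ≤ M) {W : ℂ} (hW : (W ^ 3).re ≤ 0) :
    ∃ ε > 0, ∃ σ > 0, ∃ δ > 0, 2 * δ ≤ 1 ∧ ∀ p : ℂ × ℂ × ℂ, ‖p‖ ≤ M → ∀ q ∈ Tube W (2 * δ),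
      (Th ε σ p q).re ≤ 1 / 2 := by
  set w := ‖W ^ 3‖ with hw
  have hw0 : 0 ≤ w := norm_nonneg _
  set ε := 1 / (8 * (w + 1) * (w + M + 1)) with hε
  have hε0 : 0 < ε := by positivity
  have hε1 : ε * (8 * (w + 1) * (w + M + 1)) = 1 := by rw [hε]; field_simp
  have a1 := mul_nonneg hε0.le hw0
  have a2 := mul_nonneg hε0.le hM
  have a3 := mul_nonneg a1 hw0
  have a4 := mul_nonneg a1 hM
  have hε2 : ε * (w + M) ≤ 1 := by linarith
  have hε3 : w * (2 * (ε * (w + M))) ≤ 1 / 4 := by linarith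
  clear_value ε
  obtain ⟨r₀, hr₀⟩ := Th_far hM hε0
  set S₀ : Set (ℂ × ℂ) := (fun r : ℝ => (-(r : ℂ) ^ 3, (r : ℂ) ^ 2)) '' Icc 0 r₀ ∪
    {(W ^ 3, W ^ 2)} with hS₀
  have hS₀c : IsCompact S₀ := (isCompact_Icc.image (by fun_prop)).union isCompact_singleton
  have hcont : Continuous fun a : (ℝ × ℂ × ℂ) × (ℂ × ℂ × ℂ) × (ℂ × ℂ) =>
      (Th ε a.1.1 a.2.1 (a.2.2 + a.1.2)).re := by
    have := E1_cont
    simp only [Th, dc]
    fun_prop
  obtain ⟨u, v, hu, hv, h0u, hKv, huv⟩ := generalized_tube_lemma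
    (isCompact_singleton (x := (0 : ℝ × ℂ × ℂ)))
    ((isCompact_closedBall (0 : ℂ × ℂ × ℂ) M).prod hS₀c)
    (isOpen_lt hcont (continuous_const (y := (1 / 2 : ℝ)))) (by
      rintro ⟨a, p, s⟩ ⟨ha, hp, hs⟩
      rw [mem_singleton_iff] at ha
      simp only at ha hp hs
      subst ha
      have hu : ‖p.2.1‖ ≤ M :=
        (norm_fst_le p.2).trans ((norm_snd_le p).trans (mem_closedBall_zero_iff.mp hp))
      simp only [mem_ofPred_eq, Prod.fst_zero, Prod.snd_zero, add_zero]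
      rcases hs with ⟨r, hr, rfl⟩ | rfl
      · have e : (-(r : ℂ) ^ 3, (r : ℂ) ^ 2) = ((-(r : ℂ)) ^ 3, (-(r : ℂ)) ^ 2) := by
          ext <;> simp only <;> ring
        simp only
        rw [e, Th_zero, show (-(r : ℂ)) ^ 3 = ((-r ^ 3 : ℝ) : ℂ) by push_cast; ring, re_ofReal_mul,
          exp_re]
        have him : |((ε : ℂ) * (((-r ^ 3 : ℝ) : ℂ) - p.2.1)).im| ≤ 1 := by
          rw [im_ofReal_mul, sub_im, ofReal_im, zero_sub, abs_mul, abs_neg, abs_of_pos hε0]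
          have := (abs_im_le_norm p.2.1).trans hu
          have := mul_le_mul_of_nonneg_left this hε0.le
          linarith
        have hcos := Real.cos_nonneg_of_mem_Icc
          (x := ((ε : ℂ) * (((-r ^ 3 : ℝ) : ℂ) - p.2.1)).im)
          ⟨by linarith [(abs_le.mp him).1, Real.one_le_pi_div_two],
            by linarith [(abs_le.mp him).2, Real.one_le_pi_div_two]⟩
        have hr3 : 0 ≤ r ^ 3 := by have := hr.1; positivity
        have := mul_nonneg hr3 (mul_nonneg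
          (Real.exp_pos ((ε : ℂ) * (((-r ^ 3 : ℝ) : ℂ) - p.2.1)).re).le hcos)
        linarith
      · rw [Th_zero]
        have h1 : ‖(ε : ℂ) * (W ^ 3 - p.2.1)‖ ≤ ε * (w + M) := by
          rw [norm_mul, norm_real, Real.norm_of_nonneg hε0.le]
          exact mul_le_mul_of_nonneg_left ((norm_sub_le _ _).trans (by linarith)) hε0.le
        have h2 := norm_exp_sub_one_le (h1.trans hε2)
        have h3 : ‖W ^ 3 * (cexp (ε * (W ^ 3 - p.2.1)) - 1)‖ ≤ 1 / 4 := by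
          rw [norm_mul]
          exact (mul_le_mul_of_nonneg_left (h2.trans (by linarith)) hw0).trans hε3
        rw [show W ^ 3 * cexp (ε * (W ^ 3 - p.2.1)) =
          W ^ 3 + W ^ 3 * (cexp (ε * (W ^ 3 - p.2.1)) - 1) by ring, add_re]
        linarith [(re_le_norm _).trans h3])
  obtain ⟨ρ, hρ, hρu⟩ := Metric.nhds_basis_closedBall.mem_iff.mp
    (hu.mem_nhds (h0u (mem_singleton _)))
  have hm : 0 < min ρ 1 := lt_min hρ one_pos
  refine ⟨ε, hε0, min ρ 1, hm, min ρ 1 / 2, by positivity, by linarith [min_le_right ρ 1], ?_⟩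
  rintro p hp q ⟨s, hs, hq⟩
  rw [mul_div_cancel₀ _ (two_ne_zero)] at hq
  have near : s ∈ S₀ → (Th ε (min ρ 1) p q).re ≤ 1 / 2 := by
    intro hs
    have := huv (show (((min ρ 1, q - s) : ℝ × ℂ × ℂ), p, s) ∈ u ×ˢ v from
      ⟨hρu (by
        rw [mem_closedBall_zero_iff, Prod.norm_def]
        exact max_le (by rw [Real.norm_of_nonneg hm.le]; exact min_le_left _ _)
          (hq.trans (min_le_left _ _))), hKv ⟨mem_closedBall_zero_iff.mpr hp, hs⟩⟩)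
    simp only [mem_ofPred_eq, add_sub_cancel] at this
    exact this.le
  rcases hs with ⟨r, hr, rfl⟩ | rfl
  · by_cases h : r ≤ r₀
    · exact near (Or.inl ⟨r, ⟨hr, h⟩, rfl⟩)
    · exact (re_le_norm _).trans (hr₀ r (le_of_not_ge h) _ hm.le (min_le_right _ _) p hp q
        (hq.trans (min_le_right _ _)))
  · exact near (Or.inr rfl)

end Pool.Agent.P.MP_eba2d2_an
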