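import Pool.Agent.P.MP_eba2d2_an.OkaBasic

set_option autoImplicit false

open Set Filter Topology Metric Complex

namespace Pool.Agent.P.MP_eba2d2_an

/-- The linear form of a shear. -/
def lin (a b : ℝ) (q : ℂ × ℂ) : ℂ := a * q.1 + b * q.2

theorem lin_add (a b : ℝ) (q q' : ℂ × ℂ) : lin a b (q + q') = lin a b q + lin a b q' := by
  simp only [lin, Prod.fst_add, Prod.snd_add]; ring

theorem norm_lin_le (a b : ℝ) (q : ℂ × ℂ) : ‖lin a b q‖ ≤ (|a| + |b|) * ‖q‖ := by
  refine (norm_add_le _ _).trans ?_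
  rw [norm_mul, norm_mul, norm_real, norm_real, Real.norm_eq_abs, Real.norm_eq_abs, add_mul]
  exact add_le_add (mul_le_mul_of_nonneg_left (norm_fst_le q) (abs_nonneg _))
    (mul_le_mul_of_nonneg_left (norm_snd_le q) (abs_nonneg _))

/-- The Hamiltonian field of an exponential. -/
noncomputable def vf (k : ℂ × ℝ × ℝ) (q : ℂ × ℂ) : ℂ × ℂ :=
  (k.1 * cexp (lin k.2.1 k.2.2 q)) • (((k.2.2 : ℝ) : ℂ), -((k.2.1 : ℝ) : ℂ))

theorem lin_vf (k : ℂ × ℝ × ℝ) (q : ℂ × ℂ) : lin k.2.1 k.2.2 (vf k q) = 0 := by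
  simp only [lin, vf, Prod.smul_fst, Prod.smul_snd, smul_eq_mul]; ring

theorem vf_add (k : ℂ × ℝ × ℝ) (q d : ℂ × ℂ) :
    vf k (q + d) = cexp (lin k.2.1 k.2.2 d) • vf k q := by
  simp only [vf, lin_add, exp_add, smul_smul]
  congr 1
  ring

/-- Scaling the coefficient. -/
def scl (w : ℂ) (k : ℂ × ℝ × ℝ) : ℂ × ℝ × ℝ := (w * k.1, k.2)

theorem vf_scl (w : ℂ) (k : ℂ × ℝ × ℝ) (q : ℂ × ℂ) : vf (scl w k) q = w • vf k q := by
  simp only [vf, scl, smul_smul, mul_assoc]

/-- Composition of shears. -/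
noncomputable def run : List (ℂ × ℝ × ℝ) → ℂ × ℂ → ℂ × ℂ
  | [], q => q
  | k :: l, q => run l (q + vf k q)

theorem run_append (l l' : List (ℂ × ℝ × ℝ)) (q : ℂ × ℂ) : run (l ++ l') q = run l' (run l q) := by
  induction l generalizing q with
  | nil => rfl
  | cons k l ih => exact ih _

theorem run_inv (l : List (ℂ × ℝ × ℝ)) (q : ℂ × ℂ) :
    run ((l.map (scl (-1))).reverse) (run l q) = q := by
  induction l generalizing q with
  | nil => rfl
  | cons k l ih =>
    rw [List.map_cons, List.reverse_cons, run_append]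
    simp only [run]
    rw [ih, vf_scl, vf_add, lin_vf]
    simp

theorem run_diff {F : Type*} [NormedAddCommGroup F] [NormedSpace ℂ F] {y : F}
    (l : List ((F → ℂ) × ℝ × ℝ)) (hl : ∀ k ∈ l, DifferentiableAt ℂ k.1 y) {q : F → ℂ × ℂ}
    (hq : DifferentiableAt ℂ q y) :
    DifferentiableAt ℂ (fun w => run (l.map fun k => (k.1 w, k.2)) (q w)) y := by
  induction l generalizing q with
  | nil => exact hq
  | cons k l ih =>
    simp only [List.map_cons, run]
    refine ih (fun k' hk' => hl k' (List.mem_cons_of_mem _ hk')) (hq.add ?_)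
    have := hl k List.mem_cons_self
    simp only [vf, lin]
    fun_prop

theorem trotter_aux {q : ℂ × ℂ} {B Λ ρ : ℝ} (hB : 0 ≤ B) (hΛ : 0 ≤ Λ) (hρ : Λ * ρ ≤ 1)
    (l : List (ℂ × ℝ × ℝ)) (hl : ∀ k ∈ l, ‖vf k q‖ ≤ B ∧ |k.2.1| + |k.2.2| ≤ Λ) (d : ℂ × ℂ)
    (hd : ‖d‖ + 3 * l.length * B ≤ ρ) :
    ‖run l (q + d) - (q + d) - (l.map fun k => vf k q).sum‖ ≤ l.length * (2 * Λ * ρ * B) := by
  induction l generalizing d with
  | nil => simp [run]
  | cons k l ih =>
    obtain ⟨h1, h2⟩ := hl k List.mem_cons_self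
    simp only [List.length_cons, Nat.cast_add, Nat.cast_one] at hd ⊢
    have hlB : 0 ≤ (l.length : ℝ) * B := by positivity
    have hdρ : ‖d‖ ≤ ρ := by nlinarith
    have h3 : ‖lin k.2.1 k.2.2 d‖ ≤ Λ * ρ :=
      (norm_lin_le _ _ _).trans (mul_le_mul h2 hdρ (norm_nonneg _) hΛ)
    have h4 : ‖vf k (q + d) - vf k q‖ ≤ 2 * Λ * ρ * B := by
      rw [vf_add, show cexp (lin k.2.1 k.2.2 d) • vf k q - vf k q =
        (cexp (lin k.2.1 k.2.2 d) - 1) • vf k q by rw [sub_smul, one_smul], norm_smul]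
      refine mul_le_mul ((norm_exp_sub_one_le (h3.trans hρ)).trans (by linarith)) h1
        (norm_nonneg _) ?_
      have := (norm_nonneg _).trans h3
      linarith
    have h5 : ‖vf k (q + d)‖ ≤ 3 * B := by
      have := norm_add_le (vf k (q + d) - vf k q) (vf k q)
      rw [sub_add_cancel] at this
      nlinarith
    have h6 := ih (fun k' hk' => hl k' (List.mem_cons_of_mem _ hk')) (d + vf k (q + d))
      (by have := norm_add_le d (vf k (q + d)); linarith)
    simp only [run, List.map_cons, List.sum_cons]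
    rw [← add_assoc] at h6
    have e : run l (q + d + vf k (q + d)) - (q + d) - (vf k q + (l.map fun k => vf k q).sum) =
        (run l (q + d + vf k (q + d)) - (q + d + vf k (q + d)) - (l.map fun k => vf k q).sum)
          + (vf k (q + d) - vf k q) := by abel
    rw [e]
    refine (norm_add_le _ _).trans ?_
    linarith

/-- One step Trotter estimate. -/
theorem trotter {q : ℂ × ℂ} {B Λ : ℝ} (hB : 0 ≤ B) (hΛ : 0 ≤ Λ) (l : List (ℂ × ℝ × ℝ)) {n : ℝ}
    (hn : (l.length : ℝ) ≤ n) (hρ : Λ * (3 * n * B) ≤ 1)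
    (hl : ∀ k ∈ l, ‖vf k q‖ ≤ B ∧ |k.2.1| + |k.2.2| ≤ Λ) :
    ‖run l q - q - (l.map fun k => vf k q).sum‖ ≤ 6 * n ^ 2 * Λ * B ^ 2 := by
  have h0 : (0 : ℝ) ≤ l.length := Nat.cast_nonneg _
  have := trotter_aux hB hΛ hρ l hl 0 (by rw [norm_zero, zero_add]; gcongr)
  rw [add_zero] at this
  refine this.trans ?_
  have hn0 : 0 ≤ n := h0.trans hn
  calc (l.length : ℝ) * (2 * Λ * (3 * n * B) * B) ≤ n * (2 * Λ * (3 * n * B) * B) := by gcongr
    _ = _ := by ring

/-- Exponential sums with entire coefficients in the parameter. -/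
def ES (a₀ : ℝ) (H : ℂ × ℂ × ℂ → ℂ × ℂ → ℂ) : Prop :=
  ∃ l : List ((ℂ × ℂ × ℂ → ℂ) × ℝ × ℝ), (∀ k ∈ l, Differentiable ℂ k.1 ∧ a₀ ≤ k.2.1) ∧
    ∀ p q, H p q = (l.map fun k => k.1 p * cexp (lin k.2.1 k.2.2 q)).sum

namespace ES

variable {a₀ a₁ : ℝ} {H H' : ℂ × ℂ × ℂ → ℂ × ℂ → ℂ}

theorem congr (h : ES a₀ H) (e : ∀ p q, H' p q = H p q) : ES a₀ H' := by
  obtain ⟨l, h1, h2⟩ := h
  exact ⟨l, h1, fun p q => (e p q).trans (h2 p q)⟩

theorem mono (h : ES a₀ H) (e : a₁ ≤ a₀) : ES a₁ H := by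
  obtain ⟨l, h1, h2⟩ := h
  exact ⟨l, fun k hk => ⟨(h1 k hk).1, e.trans (h1 k hk).2⟩, h2⟩

theorem term {c : ℂ × ℂ × ℂ → ℂ} (hc : Differentiable ℂ c) (a b : ℝ) :
    ES a fun p q => c p * cexp (lin a b q) :=
  ⟨[(c, a, b)], by simpa using hc, by simp⟩

theorem const {c : ℂ × ℂ × ℂ → ℂ} (hc : Differentiable ℂ c) : ES 0 fun p _ => c p :=
  (term hc 0 0).congr fun p q => by simp [lin]

theorem zero : ES a₀ fun _ _ => 0 := ⟨[], by simp, by simp⟩

theorem add (h : ES a₀ H) (h' : ES a₀ H') : ES a₀ fun p q => H p q + H' p q := by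
  obtain ⟨l, h1, h2⟩ := h
  obtain ⟨l', h1', h2'⟩ := h'
  refine ⟨l ++ l', fun k hk => ?_, fun p q => by simp [h2, h2']⟩
  rcases List.mem_append.mp hk with hk | hk
  · exact h1 k hk
  · exact h1' k hk

theorem term_mul {c : ℂ × ℂ × ℂ → ℂ} (hc : Differentiable ℂ c) (a b : ℝ) (h : ES a₀ H) :
    ES (a + a₀) fun p q => c p * cexp (lin a b q) * H p q := by
  obtain ⟨l, h1, h2⟩ := h
  refine ⟨l.map fun k => (fun p => c p * k.1 p, a + k.2.1, b + k.2.2), fun k hk => ?_,
    fun p q => ?_⟩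
  · obtain ⟨k', hk', rfl⟩ := List.mem_map.mp hk
    exact ⟨hc.mul (h1 k' hk').1, by linarith [(h1 k' hk').2]⟩
  · beta_reduce
    rw [h2, ← List.sum_map_mul_left, List.map_map]
    congr 1
    refine List.map_congr_left fun k _ => ?_
    simp only [Function.comp, lin]
    push_cast
    rw [show (a + k.2.1 : ℂ) * q.1 + (b + k.2.2) * q.2 =
      (a * q.1 + b * q.2) + (k.2.1 * q.1 + k.2.2 * q.2) by ring,
      exp_add ((a : ℂ) * q.1 + b * q.2)]
    ring

theorem mul (h : ES a₀ H) (h' : ES a₁ H') : ES (a₀ + a₁) fun p q => H p q * H' p q := by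
  obtain ⟨l, h1, h2⟩ := h
  refine ES.congr (H := fun p q => (l.map fun k => k.1 p * cexp (lin k.2.1 k.2.2 q)).sum * H' p q)
    ?_ fun p q => by rw [h2]
  clear h2
  induction l with
  | nil => exact zero.congr fun p q => by simp
  | cons k l ih =>
    obtain ⟨h3, h4⟩ := h1 k List.mem_cons_self
    refine (((term_mul h3 k.2.1 k.2.2 h').mono (by linarith)).add
      (ih fun k' hk' => h1 k' (List.mem_cons_of_mem _ hk'))).congr fun p q => ?_
    simp only [List.map_cons, List.sum_cons]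
    ring

theorem mul0 (h : ES 0 H) (h' : ES a₁ H') : ES a₁ fun p q => H p q * H' p q := by
  simpa using h.mul h'

theorem pow (h : ES 0 H) (m : ℕ) : ES 0 fun p q => H p q ^ m := by
  induction m with
  | zero => exact (const (c := fun _ => 1) (differentiable_const _)).congr fun p q => by simp
  | succ m ih => exact (ih.mul0 h).congr fun p q => pow_succ _ _

theorem sub (h : ES a₀ H) (h' : ES a₀ H') : ES a₀ fun p q => H p q - H' p q :=
  (h.add ((const (c := fun _ => -1) (differentiable_const _)).mul0 h')).congr fun p q => by ring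

end ES

theorem hasDerivAt_list (l : List (ℂ × ℝ × ℝ)) (q : ℂ × ℂ) :
    HasDerivAt (fun τ : ℂ => (l.map fun k => k.1 * cexp (lin k.2.1 k.2.2 (q + (τ, 0)))).sum)
      (-((l.map fun k => vf k q).sum).2) 0 ∧
    HasDerivAt (fun τ : ℂ => (l.map fun k => k.1 * cexp (lin k.2.1 k.2.2 (q + (0, τ)))).sum)
      (((l.map fun k => vf k q).sum).1) 0 := by
  induction l with
  | nil => simpa using hasDerivAt_const (0 : ℂ) (0 : ℂ)
  | cons k l ih =>
    simp only [List.map_cons, List.sum_cons, Prod.fst_add, Prod.snd_add, neg_add]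
    constructor
    · refine HasDerivAt.fun_add ?_ ih.1
      have h1 : HasDerivAt (fun τ : ℂ => lin k.2.1 k.2.2 (q + (τ, 0))) (k.2.1 : ℂ) 0 := by
        simpa [lin] using ((hasDerivAt_id (0 : ℂ)).const_add q.1).const_mul (k.2.1 : ℂ)
      have h2 := h1.cexp.const_mul k.1
      refine h2.congr_deriv ?_
      simp [vf, Prod.mk_zero_zero]
      ring
    · refine HasDerivAt.fun_add ?_ ih.2
      have h1 : HasDerivAt (fun τ : ℂ => lin k.2.1 k.2.2 (q + (0, τ))) (k.2.2 : ℂ) 0 := by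
        simpa [lin] using ((hasDerivAt_id (0 : ℂ)).const_add q.2).const_mul (k.2.2 : ℂ)
      have h2 := h1.cexp.const_mul k.1
      refine h2.congr_deriv ?_
      simp [vf, Prod.mk_zero_zero]
      ring

end Pool.Agent.P.MP_eba2d2_an
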