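import Pool.Agent.P.MP_eba2d2_an.OkaLift

set_option autoImplicit false

open Set Filter Topology Metric Complex

namespace Pool.Agent.P.MP_eba2d2_an

variable {E : Type} [NormedAddCommGroup E] [NormedSpace ℂ E] [FiniteDimensional ℂ E]

omit [FiniteDimensional ℂ E] in
theorem convex_re_le (lam : E →L[ℂ] ℂ) (c : ℝ) : Convex ℝ {y : E | (lam y).re ≤ c} :=
  convex_halfSpace_le (f := fun y => (lam y).re)
    ⟨fun a b => by simp, fun r a => by simp [lam.map_smul_of_tower]⟩ c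

omit [FiniteDimensional ℂ E] in
theorem isClosed_re_le (lam : E →L[ℂ] ℂ) (c : ℝ) : IsClosed {y : E | (lam y).re ≤ c} :=
  isClosed_le (by fun_prop) continuous_const

theorem exists_pair {L : Set E} (hL : IsCompact L) (hc : Convex ℝ L) {lam : E →L[ℂ] ℂ} {c c' : ℝ}
    (hcc : c < c') {f : E → ℂ × ℂ × ℂ} (hf : VMap (L ∩ {y | (lam y).re ≤ c'}) f) {y₀ : E}
    (hy₀ : y₀ ∈ L) (hy₀' : (lam y₀).re = c') {ε₂ : ℝ} (hε₂ : 0 < ε₂) :
    ∃ U V ℓ : E → ℂ, ∀ y ∈ L, ContDiffAt ℂ 1 U y ∧ ContDiffAt ℂ 1 V y ∧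
      ((lam y).re ≤ c' → (U y, V y) ∉ Ray') ∧ ((lam y).re = c' → U y ^ 2 - V y ^ 3 ≠ 0) ∧
      (c' ≤ (lam y).re → ContDiffAt ℂ 1 ℓ y ∧ ∀ᶠ w in 𝓝 y, V w = cexp (2 * ℓ w)) ∧
      ((lam y).re ≤ c → ‖U y - (1 + (f y).1 * (f y).2.2)‖ ≤ ε₂ ∧
        ‖V y - (1 + (f y).2.1 * (f y).2.2)‖ ≤ ε₂) := by
  classical
  set A := L ∩ {y | (lam y).re ≤ c'} with hA
  have hAc : IsCompact A := hL.inter_right (isClosed_re_le lam c')
  have hAv : Convex ℝ A := hc.inter (convex_re_le lam c')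
  obtain ⟨p₁, hp1, hp2, hG⟩ := exists_curves hAc hAv ⟨y₀, hy₀, hy₀'.le⟩
    (F := fun y => ((f y).1, 1 + (f y).1 * (f y).2.2, 1 + (f y).2.1 * (f y).2.2)) (fun y hy => by
      have h1 := (hf y hy).1
      refine ⟨by fun_prop, ?_⟩
      filter_upwards [(hf y hy).2] with w hw
      rw [hw.z_eq]
      ring)
  obtain ⟨η₃, hη₃, hball⟩ : ∃ η₃ > 0, ∀ q : ℂ × ℂ, ‖q - p₁‖ ≤ η₃ →
      q.1 ^ 2 - q.2 ^ 3 ≠ 0 ∧ 0 < (q.2 / p₁.2).re := by
    have c1 : ContinuousAt (fun q : ℂ × ℂ => q.1 ^ 2 - q.2 ^ 3) p₁ := by fun_prop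
    have c2 : ContinuousAt (fun q : ℂ × ℂ => (q.2 / p₁.2).re) p₁ := by fun_prop
    obtain ⟨η₃, h1, h2⟩ := Metric.nhds_basis_closedBall.eventually_iff.mp
      ((c1.eventually_ne hp1).and (c2.eventually (Ioi_mem_nhds (a := 0) (by simp [hp2]))))
    exact ⟨η₃, h1, fun q hq => h2 (by rwa [mem_closedBall, dist_eq_norm])⟩
  obtain ⟨G, hG⟩ := hG (η₃ / 3) (by positivity)
  have unif : ∀ (τ₀ : ℂ) (η : ℝ), 0 < η → ∀ᶠ τ in 𝓝 τ₀, ∀ ζ ∈ A, ‖G (ζ, τ) - G (ζ, τ₀)‖ < η := by
    intro τ₀ η hη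
    refine hAc.eventually_forall_of_forall_eventually
      (P := fun τ ζ => ‖G (ζ, τ) - G (ζ, τ₀)‖ < η) fun ζ hζ => ?_
    have h1 := ((hG ζ hζ).1 τ₀).continuousAt
    have c1 : ContinuousAt (fun a : ℂ × E => G (a.2, a.1)) (τ₀, ζ) :=
      h1.comp_of_eq (f := fun a : ℂ × E => (a.2, a.1)) (by fun_prop) rfl
    have c2 : ContinuousAt (fun a : ℂ × E => G (a.2, τ₀)) (τ₀, ζ) :=
      h1.comp_of_eq (f := fun a : ℂ × E => (a.2, τ₀)) (by fun_prop) rfl
    exact (c1.sub c2).norm.eventually (Iio_mem_nhds (by simpa using hη))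
  obtain ⟨r0, hr0, hu0⟩ := Metric.eventually_nhds_iff_ball.mp (unif 0 (ε₂ / 2) (by positivity))
  obtain ⟨r1, hr1, hu1⟩ := Metric.eventually_nhds_iff_ball.mp (unif 1 (η₃ / 3) (by positivity))
  obtain ⟨ρ, hρ⟩ := hL.exists_bound_of_continuousOn lam.continuous.continuousOn
  obtain ⟨χ, hχ, hχ0, hχ1⟩ := exists_cutoff (ρ := ρ) hcc (lt_min hr0 hr1)
  set G' : E → ℂ × ℂ := fun y => G (y, χ (lam y)) with hG'
  have hG'h : ∀ y ∈ A, ContDiffAt ℂ 1 G' y := fun y hy =>
    ((hG y hy).1 _).comp y (f := fun y => (y, χ (lam y))) (contDiffAt_id.prodMk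
      ((contDiffAt_of_differentiable hχ _).comp y lam.contDiff.contDiffAt))
  have hG'c : ContinuousOn G' A := fun y hy => (hG'h y hy).continuousAt.continuousWithinAt
  have hG'C : ∀ y ∈ L, (lam y).re = c' → ‖G' y - p₁‖ ≤ 2 * (η₃ / 3) := by
    intro y hy h
    have h1 := hu1 (χ (lam y)) (by
      rw [mem_ball, dist_eq_norm]
      exact (hχ1 _ (hρ y hy) h.ge).trans_le (min_le_right _ _)) y ⟨hy, h.le⟩
    have h2 := (hG y ⟨hy, h.le⟩).2.2.2
    have := norm_add_le (G' y - G (y, 1)) (G (y, 1) - p₁)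
    rw [sub_add_sub_cancel] at this
    linarith
  obtain ⟨ε₃, hε₃, hthick⟩ := (hAc.image_of_continuousOn hG'c).exists_cthickening_subset_open
    isClosed_Ray'.isOpen_compl (by
      rintro _ ⟨y, hy, rfl⟩ h
      exact (hG y hy).2.2.1 _ (Ray'_subset h))
  set ε₁ := min (ε₂ / 2) (min (η₃ / 3) ε₃) with hε₁
  have hε₁0 : 0 < ε₁ := lt_min (by positivity) (lt_min (by positivity) hε₃)
  obtain ⟨U, hU, hU'⟩ := appr_of_convex hAc hAv (φ := fun y => (G' y).1)
    (fun y hy => (hG'h y hy).fst) ε₁ hε₁0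
  obtain ⟨a, b, ha, hb, hab⟩ := split_convex hL hc lam c'
    (fun y => log ((G' y).2 / p₁.2) + log p₁.2) (fun y hy h =>
      ((contDiffAt_log (Or.inl (hball _ ((hG'C y hy h).trans (by linarith))).2)).comp y
        (f := fun y => (G' y).2 / p₁.2) ((hG'h y ⟨hy, h.le⟩).snd.div_const _)).add
        contDiffAt_const)
  obtain ⟨B, hB⟩ := hAc.exists_bound_of_continuousOn hG'c
  have hB0 : 0 ≤ B := (norm_nonneg _).trans (hB y₀ ⟨hy₀, hy₀'.le⟩)
  obtain ⟨g, hg, hg'⟩ := appr_of_convex hAc hAv (φ := a) (fun y hy => ha y hy.1 hy.2)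
    (min 1 (ε₁ / (2 * (B + 1)))) (by positivity)
  set V : E → ℂ := fun w => if (lam w).re ≤ c' then (G' w).2 * cexp (a w - g w)
    else cexp (b w - g w) with hV
  have hre : Continuous fun w => (lam w).re := by fun_prop
  have hcut : ∀ y ∈ L, (lam y).re = c' →
      ∀ᶠ w in 𝓝 y, (G' w).2 * cexp (a w - g w) = cexp (b w - g w) := by
    intro y hy h
    have h1 : (G' y).2 / p₁.2 ≠ 0 := fun h0 => by
      have := (hball _ ((hG'C y hy h).trans (by linarith))).2
      rw [h0] at this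
      simp at this
    filter_upwards [hab y hy h,
      ((hG'h y ⟨hy, h.le⟩).snd.div_const p₁.2).continuousAt.eventually_ne h1] with w h2 h3
    rw [show b w - g w = (b w - a w) + (a w - g w) by ring, exp_add, ← h2, exp_add, exp_log h3,
      exp_log hp2, div_mul_cancel₀ _ hp2]
  have hVA : ∀ y ∈ L, (lam y).re ≤ c' → ∀ᶠ w in 𝓝 y, V w = (G' w).2 * cexp (a w - g w) := by
    intro y hy h
    rcases h.eq_or_lt with h | h
    · filter_upwards [hcut y hy h] with w hw
      simp only [hV]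
      split_ifs
      · rfl
      · exact hw.symm
    · filter_upwards [hre.continuousAt.eventually (Iio_mem_nhds h)] with w hw
      exact if_pos (le_of_lt hw)
  have hVB : ∀ y ∈ L, c' ≤ (lam y).re → ∀ᶠ w in 𝓝 y, V w = cexp (b w - g w) := by
    intro y hy h
    rcases h.eq_or_lt with h | h
    · filter_upwards [hcut y hy h.symm] with w hw
      simp only [hV]
      split_ifs
      · exact hw
      · rfl
    · filter_upwards [hre.continuousAt.eventually (Ioi_mem_nhds h)] with w hw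
      exact if_neg (not_le.mpr hw)
  have hgh : ∀ y, ContDiffAt ℂ 1 g y := contDiffAt_of_differentiable hg
  have hclose : ∀ y ∈ L, (lam y).re ≤ c' → ‖(U y, V y) - G' y‖ ≤ ε₁ := by
    intro y hy h
    rw [Prod.norm_def]
    refine max_le (hU' y ⟨hy, h⟩).le ?_
    simp only [Prod.snd_sub]
    rw [(hVA y hy h).self_of_nhds, show (G' y).2 * cexp (a y - g y) - (G' y).2 =
      (G' y).2 * (cexp (a y - g y) - 1) by ring, norm_mul]
    have h1 := hg' y ⟨hy, h⟩
    rw [norm_sub_rev] at h1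
    have h2 := norm_exp_sub_one_le (h1.le.trans (min_le_left _ _))
    have h3 := h1.le.trans (min_le_right _ _)
    rw [le_div_iff₀ (by positivity)] at h3
    have h4 := mul_le_mul ((norm_snd_le _).trans (hB y ⟨hy, h⟩)) h2 (norm_nonneg _) hB0
    nlinarith [norm_nonneg (a y - g y)]
  refine ⟨U, V, fun w => (b w - g w) / 2, fun y hy => ⟨contDiffAt_of_differentiable hU y, ?_,
    fun h => ?_, fun h => ?_, fun h => ⟨?_, ?_⟩, fun h => ?_⟩⟩
  · rcases le_total (lam y).re c' with h | h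
    · exact ((hG'h y ⟨hy, h⟩).snd.mul ((ha y hy h).sub (hgh y)).cexp).congr_of_eventuallyEq
        (hVA y hy h)
    · exact ((hb y hy h).sub (hgh y)).cexp.congr_of_eventuallyEq (hVB y hy h)
  · refine hthick (mem_cthickening_of_dist_le _ (G' y) _ _ ⟨y, ⟨hy, h⟩, rfl⟩ ?_)
    rw [dist_eq_norm]
    exact (hclose y hy h).trans ((min_le_right _ _).trans (min_le_right _ _))
  · refine (hball (U y, V y) ?_).1
    have := norm_add_le ((U y, V y) - G' y) (G' y - p₁)
    rw [sub_add_sub_cancel] at this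
    have h1 := (hclose y hy h.le).trans ((min_le_right _ _).trans (min_le_left _ _))
    linarith [hG'C y hy h]
  · exact ((hb y hy h).sub (hgh y)).div_const _
  · filter_upwards [hVB y hy h] with w hw
    rw [hw]
    congr 1
    ring
  · have hyA : y ∈ A := ⟨hy, h.trans hcc.le⟩
    have h1 := hu0 (χ (lam y)) (by
      rw [mem_ball_zero_iff]
      exact (hχ0 _ (hρ y hy) h).trans_le (min_le_left _ _)) y hyA
    rw [(hG y hyA).2.1] at h1
    have h2 := (hclose y hy hyA.2).trans (min_le_left _ _)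
    have := norm_add_le ((U y, V y) - G' y)
      (G' y - (1 + (f y).1 * (f y).2.2, 1 + (f y).2.1 * (f y).2.2))
    rw [sub_add_sub_cancel] at this
    have h3 : ‖(U y, V y) - (1 + (f y).1 * (f y).2.2, 1 + (f y).2.1 * (f y).2.2)‖ ≤ ε₂ := by
      linarith
    exact ⟨(norm_fst_le _).trans h3, (norm_snd_le _).trans h3⟩

theorem sq_eq_one_iff_of_ne_zero_aux {a : ℂ} (h : a ^ 2 = 1) : a = 1 ∨ a = -1 := by
  have : (a - 1) * (a + 1) = 0 := by linear_combination h
  rcases mul_eq_zero.mp this with h | h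
  · exact Or.inl (sub_eq_zero.mp h)
  · exact Or.inr (eq_neg_of_add_eq_zero_left h)

theorem exists_H {L : Set E} (hL : IsCompact L) (hc : Convex ℝ L) {x : E → ℝ} (hx : Continuous x)
    {c' : ℝ} {y₀ : E} (hy₀ : y₀ ∈ L) (hy₀' : x y₀ = c') {U V ℓ : E → ℂ}
    (hU : ∀ y ∈ L, ContDiffAt ℂ 1 U y) (hV : ∀ y ∈ L, ContDiffAt ℂ 1 V y)
    (hA : ∀ y ∈ L, x y ≤ c' → (U y, V y) ∉ Ray') (hC : ∀ y ∈ L, x y = c' → U y ^ 2 - V y ^ 3 ≠ 0)
    (hB : ∀ y ∈ L, c' ≤ x y → ContDiffAt ℂ 1 ℓ y ∧ ∀ᶠ w in 𝓝 y, V w = cexp (2 * ℓ w)) :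
    (∀ y ∈ L, ∀ᶠ w in 𝓝 y, ∃ᶠ v in 𝓝 w, U v ^ 2 - V v ^ 3 ≠ 0) ∧
    ∃ H : E → ℂ, ∀ y ∈ L, ContDiffAt ℂ 1 H y ∧
      ZD (fun w => U w ^ 2 - V w ^ 3) (fun w => cexp (H w) * U w - V w) y ∧
      (x y < c' → U y ^ 2 - V y ^ 3 = 0 → H y = -log (U y / V y)) := by
  set Z : E → ℂ := fun w => U w ^ 2 - V w ^ 3 with hZ
  obtain ⟨r, hr, hrO⟩ := hL.exists_thickening_subset_open ((isOpen_hol U).inter (isOpen_hol V))
    fun y hy => ⟨hU y hy, hV y hy⟩
  set T := thickening r L with hT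
  have hTo : IsOpen T := isOpen_thickening
  have hLT : L ⊆ T := self_subset_thickening hr L
  have hUT : ∀ y ∈ T, ContDiffAt ℂ 1 U y := fun y hy => (hrO hy).1
  have hVT : ∀ y ∈ T, ContDiffAt ℂ 1 V y := fun y hy => (hrO hy).2
  have hZT : ∀ y ∈ T, ContDiffAt ℂ 1 Z y := fun y hy => ((hUT y hy).pow 2).sub ((hVT y hy).pow 3)
  have hN := dense_ne_zero hTo (hc.thickening r) (Z := Z)
    (fun y hy => (hol_diff (hZT y hy)).differentiableWithinAt) (hLT hy₀) (hC y₀ hy₀ hy₀')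
  refine ⟨fun y hy => ?_, ?_⟩
  · filter_upwards [hTo.mem_nhds (hLT hy)] with w hw
    exact hN w hw
  set Q : Bool × Bool → E → Prop := fun j w => match j with
    | (false, false) => Z w ≠ 0
    | (false, true) => x w < c' ∧ V w ≠ 0 ∧ U w / V w ∈ slitPlane
    | (true, false) => c' < x w ∧ ContDiffAt ℂ 1 ℓ w ∧ V w = cexp (2 * ℓ w) ∧
        0 < (U w * cexp (-(3 * ℓ w))).re
    | (true, true) => c' < x w ∧ ContDiffAt ℂ 1 ℓ w ∧ V w = cexp (2 * ℓ w) ∧
        (U w * cexp (-(3 * ℓ w))).re < 0 with hQ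
  set h : Bool × Bool → E → ℂ := fun j w => match j with
    | (false, false) => 0
    | (false, true) => -log (U w / V w)
    | (true, false) => -ℓ w
    | (true, true) => -ℓ w + Real.pi * I with hh
  set S : Bool × Bool → Set E := fun j => {y | ∀ᶠ w in 𝓝 y, w ∈ T ∧ Q j w} with hS
  have hST : ∀ j, ∀ y ∈ S j, y ∈ T ∧ Q j y := fun j y hy =>
    Eventually.self_of_nhds (p := fun w => w ∈ T ∧ Q j w) hy
  have hhol : ∀ j, ∀ y ∈ S j, ContDiffAt ℂ 1 (h j) y := by
    intro j y hy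
    obtain ⟨h1, h2⟩ := hST j y hy
    rcases j with ⟨_ | _, _ | _⟩
    · exact contDiffAt_const
    · exact ((contDiffAt_log h2.2.2).comp y (f := fun w => U w / V w)
        ((hUT y h1).div (hVT y h1) h2.2.1)).neg
    · exact h2.2.1.neg
    · exact h2.2.1.neg.add contDiffAt_const
  have hd : CData Z S h := by
    refine ⟨fun j => isOpen_setOfPred_eventually_nhds, fun j y hy => hN y (hST j y hy).1,
      fun j j' y hy hy' => ?_⟩
    by_cases hjj : j = j'
    · subst hjj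
      exact ZD.zero.congr' fun w => by ring
    · refine ZD.of_ne (hZT y (hST j y hy).1) ?_ ((hhol j y hy).sub (hhol j' y hy'))
      have h1 := (hST j y hy).2
      have h2 := (hST j' y hy').2
      rcases j with ⟨_ | _, _ | _⟩ <;> rcases j' with ⟨_ | _, _ | _⟩ <;>
        first
        | exact h1
        | exact h2
        | exact (hjj rfl).elim
        | exact absurd (h1.1.trans h2.1) (lt_irrefl _)
        | exact absurd (h1.2.2.2.trans h2.2.2.2) (lt_irrefl _)
  have hexp : ∀ j, ∀ y ∈ S j, ZD Z (fun w => cexp (h j w) * U w - V w) y := by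
    intro j y hy
    obtain ⟨h1, h2⟩ := hST j y hy
    have hj := hhol j y hy
    rcases j with ⟨_ | _, _ | _⟩
    · exact ZD.of_ne (hZT y h1) h2 ((hj.cexp.mul (hUT y h1)).sub (hVT y h1))
    · refine ZD.zero.congr ?_
      filter_upwards [hy] with w hw
      obtain ⟨-, -, h3, h4⟩ := hw
      have h5 := slitPlane_ne_zero h4
      have h6 : U w ≠ 0 := fun h0 => h5 (by rw [h0, zero_div])
      simp only [hh]
      rw [exp_neg, exp_log h5]
      field_simp
      ring
    · have hl := h2.2.1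
      have hUy := hUT y h1
      refine ZD.cancel (ψ := fun w => U w * cexp (-(3 * ℓ w)) + 1) ((ZD.mul_self
        (ψ := fun w => cexp (-ℓ w) ^ 4) (by fun_prop)).congr ?_) (by fun_prop) fun h0 => ?_
      · filter_upwards [hy] with w hw
        obtain ⟨-, -, -, h3, -⟩ := hw
        have e1 : cexp (-(3 * ℓ w)) = cexp (-ℓ w) ^ 3 := by
          rw [← exp_nat_mul]; congr 1; push_cast; ring
        have e2 : V w * cexp (-ℓ w) ^ 2 = 1 := by
          rw [h3, ← exp_nat_mul, ← exp_add, ← exp_zero]; congr 1; push_cast; ring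
        simp only [hh, hZ]
        rw [e1]
        generalize cexp (-ℓ w) = s at e2 ⊢
        linear_combination (-U w * s + V w * (V w * s ^ 2 + 1)) * e2
      · have := congrArg re h0
        simp only [add_re, one_re, zero_re] at this
        linarith [h2.2.2.2]
    · have hl := h2.2.1
      have hUy := hUT y h1
      refine ZD.cancel (ψ := fun w => U w * cexp (-(3 * ℓ w)) - 1) ((ZD.mul_self
        (ψ := fun w => -cexp (-ℓ w) ^ 4) (by fun_prop)).congr ?_) (by fun_prop) fun h0 => ?_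
      · filter_upwards [hy] with w hw
        obtain ⟨-, -, -, h3, -⟩ := hw
        have e1 : cexp (-(3 * ℓ w)) = cexp (-ℓ w) ^ 3 := by
          rw [← exp_nat_mul]; congr 1; push_cast; ring
        have e2 : V w * cexp (-ℓ w) ^ 2 = 1 := by
          rw [h3, ← exp_nat_mul, ← exp_add, ← exp_zero]; congr 1; push_cast; ring
        simp only [hh, hZ]
        rw [e1, exp_add, exp_pi_mul_I]
        generalize cexp (-ℓ w) = s at e2 ⊢
        linear_combination (-U w * s - V w * (V w * s ^ 2 + 1)) * e2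
      · have := congrArg re h0
        simp only [sub_re, one_re, zero_re] at this
        linarith [h2.2.2.2]
  have hcovA : ∀ y ∈ L, x y < c' → Z y = 0 → y ∈ S (false, true) := by
    intro y hy h1 hz
    obtain ⟨h2, h3⟩ := not_Ray' (hA y hy h1.le) hz
    filter_upwards [hTo.mem_nhds (hLT hy), hx.continuousAt.eventually (Iio_mem_nhds h1),
      (hV y hy).continuousAt.eventually_ne h2,
      ((hU y hy).div (hV y hy) h2).continuousAt.eventually (isOpen_slitPlane.mem_nhds h3)]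
      with w a1 a2 a3 a4
    exact ⟨a1, a2, a3, a4⟩
  have hcov : ∀ y ∈ L, ∃ j, y ∈ S j := by
    intro y hy
    by_cases hz : Z y = 0
    swap
    · refine ⟨(false, false), ?_⟩
      filter_upwards [hTo.mem_nhds (hLT hy), (hZT y (hLT hy)).continuousAt.eventually_ne hz]
        with w a1 a2
      exact ⟨a1, a2⟩
    rcases lt_trichotomy (x y) c' with h1 | h1 | h1
    · exact ⟨(false, true), hcovA y hy h1 hz⟩
    · exact (hC y hy h1 hz).elim
    · obtain ⟨h2, h3⟩ := hB y hy h1.le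
      have hUy := hU y hy
      have c1 : ContinuousAt (fun w => (U w * cexp (-(3 * ℓ w))).re) y :=
        continuous_re.continuousAt.comp (f := fun w => U w * cexp (-(3 * ℓ w)))
          (ContDiffAt.continuousAt (𝕜 := ℂ) (n := 1) (by fun_prop))
      have e : (U y * cexp (-(3 * ℓ y))) ^ 2 = 1 := by
        have h4 : U y ^ 2 = V y ^ 3 := sub_eq_zero.mp hz
        rw [mul_pow, h4, h3.self_of_nhds, ← exp_nat_mul, ← exp_nat_mul, ← exp_add, ← exp_zero]
        congr 1; push_cast; ring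
      rcases sq_eq_one_iff_of_ne_zero_aux e with h4 | h4
      · refine ⟨(true, false), ?_⟩
        filter_upwards [hTo.mem_nhds (hLT hy), hx.continuousAt.eventually (Ioi_mem_nhds h1),
          hol_eventually h2, h3, c1.eventually (Ioi_mem_nhds (a := 0) (by simp [h4]))]
          with w a1 a2 a3 a4 a5
        exact ⟨a1, a2, a3, a4, a5⟩
      · refine ⟨(true, true), ?_⟩
        filter_upwards [hTo.mem_nhds (hLT hy), hx.continuousAt.eventually (Ioi_mem_nhds h1),
          hol_eventually h2, h3, c1.eventually (Iio_mem_nhds (a := 0) (by simp [h4]))]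
          with w a1 a2 a3 a4 a5
        exact ⟨a1, a2, a3, a4, a5⟩
  obtain ⟨H, hH⟩ := cousin_convex hL hc hd hcov
  refine ⟨H, fun y hy => ?_⟩
  obtain ⟨j, hj⟩ := hcov y hy
  have h1 := hH y hy j hj
  have h2 := h1.hol (hZT y (hLT hy))
  refine ⟨by simpa using h2.add (hhol j y hj), ?_, fun h3 hz => ?_⟩
  · refine (((h1.exp_sub_one h2).mul_left (ψ := fun w => cexp (h j w) * U w)
      ((hhol j y hj).cexp.mul (hU y hy))).add (hexp j y hj)).congr' fun w => ?_
    rw [exp_sub]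
    have := exp_ne_zero (h j w)
    field_simp
    ring
  · exact sub_eq_zero.mp ((hH y hy (false, true) (hcovA y hy h3 hz)).val hz)

end Pool.Agent.P.MP_eba2d2_an
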